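import Pool.Agent.Lib.MP_e1e491_gt.P2.Sphere

/-! The Borsuk-Ulam theorem in the plane and its consequences. -/

namespace KAC

open Set Metric Filter Topology
open scoped Classical

theorem bu_log {g : ℂ → ℂ} (hg : ContinuousOn g (closedBall 0 1))
    (h0 : ∀ w ∈ closedBall (0 : ℂ) 1, g w ≠ 0) :
    ∃ l : ℂ → ℂ, ContinuousOn l (closedBall 0 1) ∧
      ∀ w ∈ closedBall (0 : ℂ) 1, Complex.exp (l w) = g w := by
  have hc : Convex ℝ (closedBall (0 : ℂ) 1) := convex_closedBall _ _
  have hz : (0 : ℂ) ∈ closedBall (0 : ℂ) 1 := mem_closedBall_self zero_le_one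
  have := hc.contractibleSpace ⟨0, hz⟩
  have := hc.locallyPathConnectedSpace
  obtain ⟨F, ⟨-, hF⟩, -⟩ := Complex.isCoveringMapOn_exp.existsUnique_continuousMap_lifts
    (A := closedBall (0 : ℂ) 1)
    ⟨(closedBall (0 : ℂ) 1).domRestrict g, continuousOn_iff_continuous_domRestrict.mp hg⟩
    (a₀ := ⟨0, hz⟩) (Complex.exp_log (h0 0 hz)) (fun x => h0 x x.2)
  refine ⟨fun z => if h : z ∈ closedBall (0 : ℂ) 1 then F ⟨z, h⟩ else 0, ?_, fun w hw => ?_⟩
  · rw [continuousOn_iff_continuous_domRestrict]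
    refine (map_continuous F).congr fun z => ?_
    show F z = if h : (z : ℂ) ∈ closedBall (0 : ℂ) 1 then F ⟨z, h⟩ else 0
    rw [dif_pos z.2]
  · simp only [dif_pos hw]
    exact congrFun hF ⟨w, hw⟩

theorem bu_disc {g : ℂ → ℂ} (hg : ContinuousOn g (closedBall 0 1))
    (h0 : ∀ w ∈ closedBall (0 : ℂ) 1, g w ≠ 0) (ho : ∀ w : ℂ, ‖w‖ = 1 → g (-w) = -g w) : False := by
  obtain ⟨l, hl, he⟩ := bu_log hg h0
  have hs : ∀ w ∈ sphere (0 : ℂ) 1, w ∈ closedBall (0 : ℂ) 1 := fun w hw =>
    sphere_subset_closedBall hw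
  have hn : ∀ w ∈ sphere (0 : ℂ) 1, -w ∈ closedBall (0 : ℂ) 1 := fun w hw => by
    simpa using hs w hw
  have hu : ContinuousOn (fun w => l (-w) - l w) (sphere (0 : ℂ) 1) :=
    (hl.comp continuous_neg.continuousOn hn).sub (hl.mono hs)
  have hx : ∀ w ∈ sphere (0 : ℂ) 1, Complex.exp (l (-w) - l w) = -1 := fun w hw => by
    rw [Complex.exp_sub, he _ (hn w hw), he _ (hs w hw), ho w (by simpa using hw), neg_div,
      div_self (h0 w (hs w hw))]
  have h1 : (1 : ℂ) ∈ sphere (0 : ℂ) 1 := by simp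
  have h2 : (-1 : ℂ) ∈ sphere (0 : ℂ) 1 := by simp
  have hk := Complex.isCoveringMap_exp.constOn_of_comp
    (isPreconnected_sphere (by simp) (0 : ℂ) 1) hu
    (fun a ha b hb => Subtype.ext ((hx a ha).trans (hx b hb).symm)) h1 h2
  have hz : l (-1) - l 1 = 0 := by
    simp only [neg_neg] at hk
    linear_combination hk / 2
  have := hx 1 h1
  rw [hz, Complex.exp_zero] at this
  norm_num at this

theorem no_plane {ψ : ℂ → ℂ} {L : ℂ} (hc : Continuous ψ) (hi : Function.Injective ψ)
    (hL : ∀ w, ψ w ≠ L) (ht : Tendsto ψ (cocompact ℂ) (𝓝 L)) : False := by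
  have hT : Tendsto (fun w : ℂ => -((starRingEnd ℂ) w)⁻¹) (𝓝[≠] 0) (cocompact ℂ) := by
    rw [← Metric.cobounded_eq_cocompact, ← tendsto_norm_atTop_iff_cobounded]
    simpa using tendsto_norm_atTop_iff_cobounded.2 (tendsto_inv₀_nhdsNE_zero (α := ℂ))
  have hχ : Continuous (Function.update (fun w : ℂ => ψ (-((starRingEnd ℂ) w)⁻¹)) 0 L) := by
    refine continuous_iff_continuousAt.2 fun w => ?_
    by_cases hw : w = 0
    · rw [hw, continuousAt_update_same]
      exact ht.comp hT
    · rw [continuousAt_update_of_ne hw]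
      exact hc.continuousAt.comp
        (Complex.continuous_conj.continuousAt.inv₀ (by simpa using hw)).neg
  refine bu_disc (hc.sub hχ).continuousOn (fun w _ => ?_) (fun w hw => ?_)
  · by_cases hw : w = 0
    · rw [hw, Pi.sub_apply, Function.update_self, sub_ne_zero]
      exact hL 0
    · rw [Pi.sub_apply, Function.update_of_ne hw, sub_ne_zero]
      intro h
      have h1 : w * (starRingEnd ℂ) w = -1 := by
        have h2 : (starRingEnd ℂ) w ≠ 0 := by simpa using hw
        calc w * (starRingEnd ℂ) w = -((starRingEnd ℂ) w)⁻¹ * (starRingEnd ℂ) w := by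
              rw [← hi h]
          _ = -1 := by rw [neg_mul, inv_mul_cancel₀ h2]
      rw [Complex.mul_conj] at h1
      have h3 : Complex.normSq w = -1 := by exact_mod_cast h1
      linarith [Complex.normSq_nonneg w]
  · have hw0 : w ≠ 0 := by
      rintro rfl
      simp at hw
    have h1 : ((starRingEnd ℂ) w)⁻¹ = w := by
      rw [← map_inv₀, Complex.inv_eq_conj hw, Complex.conj_conj]
    rw [Pi.sub_apply, Pi.sub_apply, Function.update_of_ne hw0,
      Function.update_of_ne (neg_ne_zero.2 hw0), map_neg, inv_neg, h1, neg_neg, neg_sub]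

theorem no_sphere {φ : KP2.S2 → ℂ} (hc : Continuous φ) (hi : Function.Injective φ) : False := by
  have hN : (WithLp.toLp 2 ![0, 0, 1] : EuclideanSpace ℝ (Fin 3)) ∈
      sphere (0 : EuclideanSpace ℝ (Fin 3)) 1 := by
    rw [mem_sphere_zero_iff_norm, EuclideanSpace.norm_eq, Real.sqrt_eq_one]
    simp [Fin.sum_univ_three]
  have hp : ∀ w : ℂ, (0 : ℝ) < 1 + w.re ^ 2 + w.im ^ 2 := fun w => by positivity
  have hd : ∀ w : ℂ, dist (KP2.sphere_vec w.re w.im) (WithLp.toLp 2 ![0, 0, 1]) ^ 2 =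
      4 / (1 + ‖w‖ ^ 2) := fun w => by
    have h := hp w
    rw [EuclideanSpace.dist_eq, Real.sq_sqrt (Finset.sum_nonneg fun i _ => sq_nonneg _),
      Complex.sq_norm, Complex.normSq_apply, ← sq, ← sq, ← add_assoc]
    simp only [KP2.sphere_vec, Fin.sum_univ_three, Real.dist_eq, sq_abs, Matrix.cons_val_zero,
      Matrix.cons_val_one, Matrix.cons_val]
    field_simp
    ring
  have hv : Continuous fun w : ℂ => KP2.sphere_vec w.re w.im := by
    refine (PiLp.continuous_toLp 2 _).comp (continuous_pi fun i => ?_)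
    fin_cases i <;> exact Continuous.div (by fun_prop) (by fun_prop) fun w => (hp w).ne'
  refine no_plane (ψ := fun w => φ ⟨KP2.sphere_vec w.re w.im, KP2.sphere_vec_mem _ _⟩)
    (L := φ ⟨_, hN⟩) (hc.comp (hv.subtype_mk _)) (fun w z h => ?_) (fun w h => ?_) ?_
  · have h1 := KP2.sphere_vec_dist w.re w.im z.re z.im
    rw [show KP2.sphere_vec w.re w.im = KP2.sphere_vec z.re z.im from congrArg Subtype.val (hi h),
      dist_self, zero_pow two_ne_zero, eq_comm, div_eq_zero_iff] at h1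
    rcases h1 with h1 | h1
    · apply Complex.ext <;> nlinarith [sq_nonneg (w.re - z.re), sq_nonneg (w.im - z.im)]
    · exact absurd h1 (mul_pos (hp w) (hp z)).ne'
  · have h1 := hd w
    rw [show KP2.sphere_vec w.re w.im = _ from congrArg Subtype.val (hi h), dist_self] at h1
    have : (0 : ℝ) < 4 / (1 + ‖w‖ ^ 2) := by positivity
    rw [← h1] at this
    norm_num at this
  · refine (hc.tendsto _).comp (tendsto_subtype_rng.2 (tendsto_iff_dist_tendsto_zero.2 ?_))
    have h1 : Tendsto (fun w : ℂ => 4 / (1 + ‖w‖ ^ 2)) (cocompact ℂ) (𝓝 0) :=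
      tendsto_const_nhds.div_atTop (tendsto_atTop_add_const_left _ _
        ((tendsto_pow_atTop two_ne_zero).comp tendsto_norm_cocompact_atTop))
    have h2 := h1.sqrt
    rw [Real.sqrt_zero] at h2
    refine h2.congr fun w => ?_
    rw [← hd w, Real.sqrt_sq dist_nonneg]

end KAC
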