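import Pool.Agent.Lib.MP_e1e491_gt.Ac.Defs
import Pool.Agent.Lib.MP_e1e491_gt.S1B

/-! Cuts and their boundaries. -/

namespace KAC

open Set KKC
open scoped Pointwise Classical

variable {G Z : Type} [Group G] [MetricSpace Z] [CompactSpace Z] [MulAction G Z] (H : HB G Z)
  {K : ℕ} {A B : Set G}

set_option linter.unusedSectionVars false

theorem cut1_symm (x y : G) : H.len (y⁻¹ * x) = H.len (x⁻¹ * y) := by
  rw [← H.len_inv, mul_inv_rev, inv_inv]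

theorem Dl_smul (g : G) (A : Set G) :
    Dl H K (g • A) = (fun p : G × G => (g * p.1, g * p.2)) '' Dl H K A := by
  ext ⟨x, y⟩
  constructor
  · rintro ⟨h1, h2, h3⟩
    rw [mem_smul_set_iff_inv_smul_mem, smul_eq_mul] at h2 h3
    refine ⟨(g⁻¹ * x, g⁻¹ * y), ⟨?_, h2, h3⟩, by simp⟩
    rwa [show (g⁻¹ * x)⁻¹ * (g⁻¹ * y) = x⁻¹ * y by group]
  · rintro ⟨⟨u, v⟩, ⟨h1, h2, h3⟩, e⟩
    obtain ⟨rfl, rfl⟩ := Prod.mk.inj e
    refine ⟨?_, smul_mem_smul_set h2, fun h => h3 (smul_mem_smul_set_iff.1 h)⟩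
    rwa [show (g * u)⁻¹ * (g * v) = u⁻¹ * v by group]

theorem Dl_compl (A : Set G) : Dl H K Aᶜ = Prod.swap '' Dl H K A := by
  ext ⟨x, y⟩
  constructor
  · rintro ⟨h1, h2, h3⟩
    exact ⟨(y, x), ⟨(cut1_symm H x y).trans_le h1, not_notMem.1 h3, h2⟩, rfl⟩
  · rintro ⟨⟨u, v⟩, ⟨h1, h2, h3⟩, e⟩
    obtain ⟨rfl, rfl⟩ := Prod.mk.inj e
    exact ⟨(cut1_symm H u v).trans_le h1, h3, fun h => h h2⟩

theorem fin_smul (g : G) (hA : (Dl H K A).Finite) : (Dl H K (g • A)).Finite := by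
  rw [Dl_smul]
  exact hA.image _

theorem fin_compl (hA : (Dl H K A).Finite) : (Dl H K Aᶜ).Finite := by
  rw [Dl_compl]
  exact hA.image _

theorem cut1_inter (A B : Set G) : Dl H K (A ∩ B) ⊆ Dl H K A ∪ Dl H K B := by
  rintro p ⟨h1, h2, h3⟩
  by_cases h : p.2 ∈ A
  · exact Or.inr ⟨h1, h2.2, fun k => h3 ⟨h, k⟩⟩
  · exact Or.inl ⟨h1, h2.1, h⟩

theorem cut1_union (A B : Set G) : Dl H K (A ∪ B) ⊆ Dl H K A ∪ Dl H K B := by
  rintro p ⟨h1, h2 | h2, h3⟩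
  · exact Or.inl ⟨h1, h2, fun k => h3 (Or.inl k)⟩
  · exact Or.inr ⟨h1, h2, fun k => h3 (Or.inr k)⟩

theorem fin_inter (hA : (Dl H K A).Finite) (hB : (Dl H K B).Finite) : (Dl H K (A ∩ B)).Finite := by
  exact (hA.union hB).subset (cut1_inter H A B)

theorem fin_union (hA : (Dl H K A).Finite) (hB : (Dl H K B).Finite) : (Dl H K (A ∪ B)).Finite := by
  exact (hA.union hB).subset (cut1_union H A B)

theorem ncard_smul (g : G) (A : Set G) : (Dl H K (g • A)).ncard = (Dl H K A).ncard := by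
  rw [Dl_smul]
  refine ncard_image_of_injective _ fun p q e => ?_
  obtain ⟨e1, e2⟩ := Prod.mk.inj e
  exact Prod.ext (mul_left_cancel e1) (mul_left_cancel e2)

theorem ncard_compl (A : Set G) : (Dl H K Aᶜ).ncard = (Dl H K A).ncard := by
  rw [Dl_compl]
  exact ncard_image_of_injective _ Prod.swap_injective

theorem ncard_submod (hA : (Dl H K A).Finite) (hB : (Dl H K B).Finite) :
    (Dl H K (A ∩ B)).ncard + (Dl H K (A ∪ B)).ncard ≤ (Dl H K A).ncard + (Dl H K B).ncard := by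
  rw [← ncard_union_add_ncard_inter _ _ (fin_inter H hA hB) (fin_union H hA hB),
    ← ncard_union_add_ncard_inter _ _ hA hB]
  refine add_le_add (ncard_le_ncard (union_subset (cut1_inter H A B) (cut1_union H A B))
    (hA.union hB)) (ncard_le_ncard ?_ (hA.inter_of_left _))
  rintro p ⟨⟨h1, h2, -⟩, -, -, h3⟩
  exact ⟨⟨h1, h2.1, fun k => h3 (Or.inl k)⟩, h1, h2.2, fun k => h3 (Or.inr k)⟩

theorem cut1_walk {N : ℕ}
    (hN : ∀ x y, N ≤ H.len x → H.len (x⁻¹ * y) ≤ 1 → x ∈ A → y ∈ A) (n : ℕ) :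
    ∀ g h, H.len (g⁻¹ * h) = n → 2 * N + n ≤ H.len g + H.len h → (g ∈ A ↔ h ∈ A) := by
  induction n with
  | zero =>
    intro g h e _
    rw [inv_mul_eq_one.1 ((H.len_eq_zero _).1 e)]
  | succ n ih =>
    intro g h e hl
    obtain ⟨k, e1, e2⟩ := H.par _ n e
    have e3 : H.len ((g * k)⁻¹ * h) = 1 := by rwa [mul_inv_rev, mul_assoc]
    have a1 := H.len_mul (g * k) ((g * k)⁻¹ * h)
    have a2 := H.len_mul (g * k) k⁻¹
    have a3 := H.len_mul h (h⁻¹ * g)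
    rw [mul_inv_cancel_left] at a1 a3
    rw [mul_inv_cancel_right, H.len_inv] at a2
    rw [cut1_symm H g h] at a3
    refine (ih g (g * k) (by rwa [inv_mul_cancel_left]) (by omega)).trans
      ⟨hN _ _ (by omega) e3.le, hN _ _ (by omega) ((cut1_symm H _ _).trans e3).le⟩

theorem eq_of_Dl_empty (hK : 1 ≤ K) (h : Dl H K A = ∅) : A = ∅ ∨ A = univ := by
  have key : ∀ g, 1 ∈ A ↔ g ∈ A := fun g =>
    cut1_walk H (N := 0) (fun x y _ h1 hx => by_contra fun hy =>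
      (h ▸ (⟨h1.trans hK, hx, hy⟩ : (x, y) ∈ Dl H K A) : (x, y) ∈ (∅ : Set (G × G)))) _ 1 g rfl
      (by rw [inv_one, one_mul]; omega)
  by_cases h1 : 1 ∈ A
  · exact Or.inr (eq_univ_of_forall fun g => (key g).1 h1)
  · exact Or.inl (eq_empty_of_forall_notMem fun g hg => h1 ((key g).2 hg))

theorem eq_of_Dl (hK : 1 ≤ K) (h : Dl H K A = Dl H K B) (hn : (Dl H K A).Nonempty) : A = B := by
  have key : ∀ {A B : Set G}, Dl H K A = Dl H K B → ∀ x y, H.len (x⁻¹ * y) ≤ K → x ∈ A → x ∉ B →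
      y ∈ A ∧ y ∉ B := by
    intro A B h x y h1 h2 h3
    refine ⟨by_contra fun k => h3 ?_, fun k => ?_⟩
    · exact (h ▸ (⟨h1, h2, k⟩ : (x, y) ∈ Dl H K A) : (x, y) ∈ Dl H K B).2.1
    · exact (h.symm ▸ (⟨(cut1_symm H x y).trans_le h1, k, h3⟩ : (y, x) ∈ Dl H K B) :
        (y, x) ∈ Dl H K A).2.2 h2
  have h0 : Dl H K (symmDiff A B) = ∅ := by
    refine eq_empty_of_forall_notMem ?_
    rintro ⟨x, y⟩ ⟨h1, h2, h3⟩
    rw [mem_symmDiff] at h2 h3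
    exact h3 (h2.imp (fun k => key h x y h1 k.1 k.2) fun k => key h.symm x y h1 k.1 k.2)
  rcases eq_of_Dl_empty H hK h0 with e | e
  · exact symmDiff_eq_empty.1 e
  · obtain ⟨p, hp⟩ := hn
    have h1 : p.1 ∈ symmDiff A B := e ▸ mem_univ _
    rw [mem_symmDiff] at h1
    exact (h1.elim (fun k => k.2 (h ▸ hp : p ∈ Dl H K B).2.1) fun k => k.2 hp.2.1).elim

theorem bd_mono (h : A ⊆ B) : bd H A ⊆ bd H B := by
  rintro ξ ⟨r, hr, k⟩
  exact ⟨r, hr, fun g hg => h (k g hg)⟩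

theorem cut1_ex (ξ : Z) {r : ℝ} (hr : 0 < r) : ∃ g, H.q (.inr ξ) (.inl g) < r := by
  have hC := H.s1b_C_pos
  obtain ⟨n, hn⟩ := H.exists_sc_lt (div_pos hr hC)
  obtain ⟨g, e1, e2⟩ := H.ray ξ n
  refine ⟨g, e2.trans_lt ?_⟩
  have h := hn g e1.ge
  rwa [lt_div_iff₀ hC, mul_comm, HB.sc, e1] at h

theorem bd_empty : bd H (∅ : Set G) = ∅ := by
  refine eq_empty_of_forall_notMem ?_
  rintro ξ ⟨r, hr, k⟩
  obtain ⟨g, hg⟩ := cut1_ex H ξ hr
  exact k g hg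

theorem bd_univ : bd H (univ : Set G) = univ := by
  exact eq_univ_of_forall fun ξ => ⟨1, one_pos, fun g _ => mem_univ g⟩

theorem bd_inter (A B : Set G) : bd H (A ∩ B) = bd H A ∩ bd H B := by
  refine Subset.antisymm (subset_inter (bd_mono H inter_subset_left)
    (bd_mono H inter_subset_right)) ?_
  rintro ξ ⟨⟨r, hr, k⟩, r', hr', k'⟩
  exact ⟨min r r', lt_min hr hr', fun g hg =>
    ⟨k g (hg.trans_le (min_le_left _ _)), k' g (hg.trans_le (min_le_right _ _))⟩⟩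

theorem bd_compl (hK : 1 ≤ K) (hA : (Dl H K A).Finite) : bd H Aᶜ = (bd H A)ᶜ := by
  refine Subset.antisymm (fun ξ h1 h2 => ?_) fun ξ hξ => ?_
  · have h3 : ξ ∈ bd H (Aᶜ ∩ A) := bd_inter H _ _ ▸ ⟨h1, h2⟩
    rw [compl_inter_self, bd_empty] at h3
    exact h3
  obtain ⟨N, hN⟩ := (hA.image fun p => H.len p.1).bddAbove
  have hC := H.s1b_C_pos
  have hr : 0 < H.a ^ (-((N + 1 : ℕ) : ℝ)) / H.C :=
    div_pos (Real.rpow_pos_of_pos H.s1b_a_pos _) hC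
  obtain ⟨h, h1, h2⟩ : ∃ h, H.q (.inr ξ) (.inl h) < H.a ^ (-((N + 1 : ℕ) : ℝ)) / H.C ∧ h ∉ A := by
    by_contra hc
    exact hξ ⟨_, hr, fun h hh => by_contra fun k => hc ⟨h, hh, k⟩⟩
  refine ⟨_, hr, fun g hg hgA => h2 ?_⟩
  refine (cut1_walk H (N := N + 1) (fun x y hx h3 hxA => by_contra fun hy => ?_) _ g h rfl ?_).1 hgA
  · have h4 : H.len x ≤ N := hN ⟨(x, y), ⟨h3.trans hK, hxA, hy⟩, rfl⟩
    omega
  · have h3 := H.ultra (.inl g) (.inr ξ) (.inl h)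
    rw [H.q_comm (.inl g) (.inr ξ)] at h3
    have h4 := max_lt hg h1
    rw [lt_div_iff₀ hC, mul_comm] at h4
    have h5 := h3.trans_lt h4
    rw [H.q_GG, Real.rpow_lt_rpow_left_iff H.ha] at h5
    have h6 : (2 * ((N + 1 : ℕ) : ℝ) + H.len (g⁻¹ * h) : ℝ) ≤ H.len g + H.len h := by linarith
    exact_mod_cast h6

theorem bd_union (hK : 1 ≤ K) (hA : (Dl H K A).Finite) (hB : (Dl H K B).Finite) :
    bd H (A ∪ B) = bd H A ∪ bd H B := by
  rw [← compl_inj_iff, ← bd_compl H hK (fin_union H hA hB), compl_union, bd_inter,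
    bd_compl H hK hA, bd_compl H hK hB, compl_union]

theorem cut1_smul (g : G) {ξ : Z} (hξ : ξ ∈ bd H A) : g • ξ ∈ bd H (g • A) := by
  obtain ⟨r, hr, k⟩ := hξ
  have hM : 0 < H.C ^ 3 / H.sc g⁻¹ := div_pos (pow_pos H.s1b_C_pos 3) (H.s1_sc_pos _)
  refine ⟨_, div_pos hr hM, fun h hh => mem_smul_set_iff_inv_smul_mem.2 (k _ ?_)⟩
  have h1 := H.s1_q_smul g⁻¹ (.inr (g • ξ)) (.inl h)
  rw [Sum.smul_inr, Sum.smul_inl, inv_smul_smul] at h1
  rw [lt_div_iff₀ hM, mul_comm] at hh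
  exact h1.trans_lt hh

theorem bd_smul (g : G) (A : Set G) : bd H (g • A) = g • bd H A := by
  refine Subset.antisymm (fun ξ hξ => ?_) ?_
  · have h := cut1_smul H g⁻¹ hξ
    rw [inv_smul_smul] at h
    exact mem_smul_set_iff_inv_smul_mem.2 h
  · rintro _ ⟨ξ, hξ, rfl⟩
    exact cut1_smul H g hξ

theorem cut1_open (A : Set G) : IsOpen (bd H A) := by
  have hC := H.s1b_C_pos
  refine Metric.isOpen_iff.2 ?_
  rintro ξ ⟨r, hr, k⟩
  refine ⟨_, div_pos (div_pos hr hC) hC, fun ζ hζ => ⟨_, div_pos hr hC, fun g hg => k g ?_⟩⟩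
  rw [Metric.mem_ball, dist_comm, lt_div_iff₀ hC, mul_comm] at hζ
  have h := max_lt ((H.q_le ξ ζ).trans_lt hζ) hg
  rw [lt_div_iff₀ hC, mul_comm] at h
  exact (H.ultra _ _ _).trans_lt h

theorem bd_clopen (hK : 1 ≤ K) (hA : (Dl H K A).Finite) : IsClopen (bd H A) := by
  refine ⟨⟨?_⟩, cut1_open H A⟩
  rw [← bd_compl H hK hA]
  exact cut1_open H _

theorem exists_cut (K : ℕ) {U : Set Z} (hU : IsClopen U) :
    ∃ A : Set G, (Dl H K A).Finite ∧ bd H A = U := by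
  obtain ⟨δ, hδ, hs⟩ := hU.isClosed.isCompact.exists_thickening_subset_open hU.isOpen subset_rfl
  have key : ∀ x y, dist x y < δ → y ∈ U → x ∈ U := fun x y h hy =>
    hs (Metric.mem_thickening_iff.2 ⟨y, hy, h⟩)
  obtain ⟨L, hL, h1⟩ := H.s1_loc_mul K
  have hL0 : 0 < L := one_pos.trans_le hL
  have hC : 0 < H.C ^ 4 := pow_pos H.s1b_C_pos 4
  have near : ∀ ξ g, H.q (.inr ξ) (.inl g) < δ / H.C ^ 4 → dist ξ (H.loc g) < δ := by
    intro ξ g h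
    rw [lt_div_iff₀ hC, mul_comm] at h
    exact (H.s1_dist_loc ξ g).trans_lt h
  refine ⟨{g | H.loc g ∈ U}, ?_, Subset.antisymm ?_ fun ξ hξ => ?_⟩
  · refine (((H.s1_fin_sc (div_pos hδ hL0)).prod (H.fin K)).image
      fun p : G × G => (p.1, p.1 * p.2)).subset ?_
    rintro ⟨x, y⟩ ⟨h2, h3, h4⟩
    refine ⟨(x, x⁻¹ * y), ⟨?_, h2⟩, by simp⟩
    have h5 := h1 x (x⁻¹ * y) h2
    rw [mul_inv_cancel_left, dist_comm] at h5
    have h6 : δ ≤ dist (H.loc y) (H.loc x) := not_lt.1 fun k => h4 (key _ _ k h3)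
    change δ / L ≤ H.sc x
    rw [div_le_iff₀ hL0, mul_comm]
    exact h6.trans h5
  · rintro ξ ⟨r, hr, k⟩
    obtain ⟨g, hg⟩ := cut1_ex H ξ (lt_min hr (div_pos hδ hC))
    exact key _ _ (near ξ g (hg.trans_le (min_le_right _ _))) (k g (hg.trans_le (min_le_left _ _)))
  · exact ⟨_, div_pos hδ hC, fun g hg => key _ _ (dist_comm ξ _ ▸ near ξ g hg) hξ⟩

end KAC
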