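import Pool.Agent.Lib.MP_e1e491_gt.Ac.Cut1

/-! Cuts with the least number of edges are connected through triangles. -/

namespace KAC

open Set KKC
open scoped Pointwise Classical

variable {G Z : Type} [Group G] [MetricSpace Z] [CompactSpace Z] [MulAction G Z] (H : HB G Z)
  {K : ℕ} {A : Set G}

/-- The parity of the number of marked edges on the path of parents. -/
noncomputable def cut2_f (len : G → ℕ) (p : G → G) (c : G → G → Prop) (a : G) : Prop :=
  if len (p a) < len a then ¬ (cut2_f len p c (p a) ↔ c (p a) a) else False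
termination_by len a

omit [CompactSpace Z] in
theorem cut2_symm {x y : G} (h : H.len (x⁻¹ * y) ≤ K) : H.len (y⁻¹ * x) ≤ K := by
  rw [← H.len_inv]
  simpa using h

omit [CompactSpace Z] in
theorem cut2_tri {S : Set (G × G)} (hS : Cl H K A S) {x y z : G}
    (hxy : H.len (x⁻¹ * y) ≤ K) (hyz : H.len (y⁻¹ * z) ≤ K) (hxz : H.len (x⁻¹ * z) ≤ K) :
    ((x, z) ∈ S ∨ (z, x) ∈ S) ↔
      ¬ (((x, y) ∈ S ∨ (y, x) ∈ S) ↔ ((y, z) ∈ S ∨ (z, y) ∈ S)) := by
  have hyx := cut2_symm H hxy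
  have hzy := cut2_symm H hyz
  have hzx := cut2_symm H hxz
  have m : ∀ u v, (u, v) ∈ S → u ∈ A ∧ v ∉ A := fun u v h => (hS.1 h).2
  have a1 := m x y
  have a2 := m y x
  have a3 := m y z
  have a4 := m z y
  have a5 := m x z
  have a6 := m z x
  have b1 : (x, y) ∈ S → _ := fun h => hS.2 _ h z hxz hzy
  have b2 : (y, x) ∈ S → _ := fun h => hS.2 _ h z hyz hzx
  have b3 : (y, z) ∈ S → _ := fun h => hS.2 _ h x hyx hxz
  have b4 : (z, y) ∈ S → _ := fun h => hS.2 _ h x hzx hxy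
  have b5 : (x, z) ∈ S → _ := fun h => hS.2 _ h y hxy hyz
  have b6 : (z, x) ∈ S → _ := fun h => hS.2 _ h y hzy hyx
  dsimp only at b1 b2 b3 b4 b5 b6
  by_cases hx : x ∈ A <;> by_cases hy : y ∈ A <;> by_cases hz : z ∈ A <;> simp_all <;> tauto

omit [CompactSpace Z] in
theorem cut2_prim (hP : H.Par ⊤ K) {S : Set (G × G)} (hS : Cl H K A S) :
    ∃ B : Set G, ∀ a b, H.len (a⁻¹ * b) ≤ K →
      (((a, b) ∈ S ∨ (b, a) ∈ S) ↔ ¬ (a ∈ B ↔ b ∈ B)) := by
  have hp : ∀ a : G, ∃ p : G, a ≠ 1 → H.len p < H.len a ∧ H.len (p⁻¹ * a) ≤ K ∧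
      ∀ b, H.len (a⁻¹ * b) ≤ K → H.len b ≤ H.len a → H.len (p⁻¹ * b) ≤ K := by
    intro a
    by_cases ha : a = 1
    · exact ⟨1, fun h => absurd ha h⟩
    · obtain ⟨p, -, h1, h2, h3⟩ := hP a (Subgroup.mem_top a) ha
      exact ⟨p, fun _ => ⟨h1, h2, fun b => h3 b (Subgroup.mem_top b)⟩⟩
  choose p hp using hp
  refine ⟨{a | cut2_f H.len p (fun u v => (u, v) ∈ S ∨ (v, u) ∈ S) a}, ?_⟩
  simp only [mem_ofPred_eq]
  set f := cut2_f H.len p (fun u v => (u, v) ∈ S ∨ (v, u) ∈ S) with hf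
  suffices h : ∀ n a b, H.len a + H.len b < n → H.len (a⁻¹ * b) ≤ K →
      (((a, b) ∈ S ∨ (b, a) ∈ S) ↔ ¬ (f a ↔ f b)) from
    fun a b => h _ a b (Nat.lt_succ_self _)
  intro n
  induction n with
  | zero => intro a b h; omega
  | succ n ih =>
    have key : ∀ a b, H.len a + H.len b < n + 1 → H.len (a⁻¹ * b) ≤ K → H.len b ≤ H.len a →
        (((a, b) ∈ S ∨ (b, a) ∈ S) ↔ ¬ (f a ↔ f b)) := by
      intro a b h hab hle
      by_cases ha : a = 1
      · have hb : b = 1 := (H.len_eq_zero b).1 (by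
          rw [ha, (H.len_eq_zero 1).2 rfl] at hle; omega)
        have hn : (a, b) ∉ S := fun h' => (hS.1 h').2.2 (by rw [hb, ← ha]; exact (hS.1 h').2.1)
        rw [hb, ← ha] at hn ⊢
        simp [hn]
      · obtain ⟨h1, h2, h3⟩ := hp a ha
        have e : f a ↔ ¬ (f (p a) ↔ ((p a, a) ∈ S ∨ (a, p a) ∈ S)) := by
          rw [hf, cut2_f, if_pos h1]
        have i := ih (p a) b (by omega) (h3 b hab hle)
        have t := cut2_tri H hS h2 hab (h3 b hab hle)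
        generalize ((p a, a) ∈ S ∨ (a, p a) ∈ S) = c1 at *
        generalize ((p a, b) ∈ S ∨ (b, p a) ∈ S) = c2 at *
        generalize ((a, b) ∈ S ∨ (b, a) ∈ S) = c3 at *
        tauto
    intro a b h hab
    rcases le_total (H.len b) (H.len a) with hle | hle
    · exact key a b h hab hle
    · have := key b a (by omega) (cut2_symm H hab) hle
      tauto

omit [CompactSpace Z] in
theorem cut2_card {B : Set G} {T : Set (G × G)} (hT : T.Finite)
    (h : ∀ p ∈ Dl H K B, p ∈ T ∨ p.swap ∈ T) :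
    (Dl H K B).Finite ∧ (Dl H K B).ncard ≤ T.ncard := by
  have h1 : ∀ p ∈ Dl H K B, (if p ∈ T then p else p.swap) ∈ T := by
    intro p hp
    split_ifs with hT
    · exact hT
    · exact (h p hp).resolve_left hT
  have h2 : InjOn (fun p : G × G => if p ∈ T then p else p.swap) (Dl H K B) := by
    rintro ⟨x, y⟩ ⟨-, hx, hy⟩ ⟨u, v⟩ ⟨-, hu, hv⟩ e
    dsimp only at e hx hy hu hv
    split_ifs at e
    · exact e
    · obtain ⟨rfl, rfl⟩ := Prod.mk.inj e
      exact absurd hx hv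
    · obtain ⟨rfl, rfl⟩ := Prod.mk.inj e
      exact absurd hu hy
    · exact Prod.swap_injective e
  exact ⟨Finite.of_injOn (fun p hp => h1 p hp) h2 hT, ncard_le_ncard_of_injOn _ h1 h2 hT⟩

theorem tc_of_min (hK : 1 ≤ K) (hP : H.Par ⊤ K) {ξ ζ : Z} (hA : Sep H K A ξ ζ)
    (hm : ∀ B, Sep H K B ξ ζ → (Dl H K A).ncard ≤ (Dl H K B).ncard) : TC H K A := by
  intro S hS hne
  obtain ⟨B, hB⟩ := cut2_prim H hP hS
  obtain ⟨f1, c1⟩ := cut2_card H (K := K) (B := B) (hA.1.subset hS.1) (by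
    rintro ⟨x, y⟩ ⟨hxy, hx, hy⟩
    exact (hB x y hxy).2 fun h => hy (h.1 hx))
  obtain ⟨f2, c2⟩ := cut2_card H (K := K) (B := A ∩ Bᶜ ∪ Aᶜ ∩ B) (hA.1.sdiff (t := S)) (by
    rintro ⟨x, y⟩ ⟨hxy, hx, hy⟩
    have h1 := hB x y hxy
    have h2 : (x, y) ∈ S → x ∈ A ∧ y ∉ A := fun h => (hS.1 h).2
    have h3 : (y, x) ∈ S → y ∈ A ∧ x ∉ A := fun h => (hS.1 h).2
    have h4 := cut2_symm H hxy
    simp only [mem_union, mem_inter_iff, mem_compl_iff] at hx hy
    simp only [Dl, mem_sdiff, mem_ofPred_eq, Prod.swap_prod_mk]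
    tauto)
  by_cases hs : ξ ∈ bd H B ↔ ζ ∉ bd H B
  · exact eq_of_subset_of_ncard_le hS.1 ((hm B ⟨f1, hs⟩).trans c1) hA.1
  · exfalso
    have e : bd H (A ∩ Bᶜ ∪ Aᶜ ∩ B) = bd H A ∩ (bd H B)ᶜ ∪ (bd H A)ᶜ ∩ bd H B := by
      rw [bd_union H hK (fin_inter H hA.1 (fin_compl H f1)) (fin_inter H (fin_compl H hA.1) f1),
        bd_inter, bd_inter, bd_compl H hK f1, bd_compl H hK hA.1]
    have h1 := hm _ ⟨f2, by
      have := hA.2
      simp only [e, mem_union, mem_inter_iff, mem_compl_iff]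
      tauto⟩
    obtain ⟨p, hp⟩ := hne
    have h2 : (Dl H K A \ S).ncard < (Dl H K A).ncard :=
      ncard_lt_ncard ⟨sdiff_subset, fun h => (h (hS.1 hp)).2 hp⟩ hA.1
    omega

theorem TC.smul (h : TC H K A) (g : G) : TC H K (g • A) := by
  intro S hS hne
  have m : ∀ x : G, g * x ∈ g • A ↔ x ∈ A := fun x => smul_mem_smul_set_iff (a := g)
  have l : ∀ x y : G, (g * x)⁻¹ * (g * y) = x⁻¹ * y := fun x y => by group
  have e := h {p | (g * p.1, g * p.2) ∈ S} ⟨fun p hp => by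
      have := hS.1 hp
      simpa only [Dl, mem_ofPred_eq, m, l] using this, fun p hp z h1 h2 => by
      have := hS.2 _ hp (g * z) (by simpa only [l] using h1) (by simpa only [l] using h2)
      simpa only [m, mem_ofPred_eq] using this⟩
    (by
      obtain ⟨p, hp⟩ := hne
      exact ⟨(g⁻¹ * p.1, g⁻¹ * p.2), by simpa using hp⟩)
  refine Subset.antisymm hS.1 ?_
  rw [Dl_smul, ← e]
  rintro _ ⟨p, hp, rfl⟩
  exact hp

theorem tc_finite (hK : 1 ≤ K) (n : ℕ) : {A : Set G | (Dl H K A).Finite ∧ (Dl H K A).ncard ≤ n ∧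
    TC H K A ∧ ∃ y, (1, y) ∈ Dl H K A}.Finite := by
  refine Finite.of_injOn (f := Dl H K)
    (t := {S | S ⊆ {g | H.len g ≤ n * K} ×ˢ {g | H.len g ≤ n * K + K}}) ?_ ?_
    ((H.fin _).prod (H.fin _)).finite_subsets
  · rintro A ⟨hf, hn, ht, y, hy⟩
    have h1 : ∀ j, ((1 : G), y) ∈ {p ∈ Dl H K A | H.len p.1 ≤ j * K} := fun j =>
      ⟨hy, by simp [(H.len_eq_zero 1).2 rfl]⟩
    have key : ∀ j, {p ∈ Dl H K A | H.len p.1 ≤ j * K} = Dl H K A ∨
        j + 1 ≤ {p ∈ Dl H K A | H.len p.1 ≤ j * K}.ncard := by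
      intro j
      induction j with
      | zero => exact Or.inr ((ncard_pos (hf.subset (sep_subset _ _))).2 ⟨_, h1 0⟩)
      | succ j ih =>
        have hm : {p ∈ Dl H K A | H.len p.1 ≤ j * K} ⊆
            {p ∈ Dl H K A | H.len p.1 ≤ (j + 1) * K} := fun p hp =>
          ⟨hp.1, hp.2.trans (Nat.mul_le_mul_right _ (Nat.le_succ j))⟩
        by_cases he : {p ∈ Dl H K A | H.len p.1 ≤ j * K} = Dl H K A
        · exact Or.inl (Subset.antisymm (sep_subset _ _) (he.symm.subset.trans hm))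
        · refine Or.inr (Nat.succ_le_of_lt ((ih.resolve_left he).trans_lt
            (ncard_lt_ncard ⟨hm, fun hb => he (ht _ ⟨sep_subset _ _, ?_⟩ ⟨_, h1 j⟩)⟩
              (hf.subset (sep_subset _ _)))))
          rintro p ⟨hp, hl⟩ z h2 h3
          refine ⟨fun hz => hb ⟨⟨h3, hz, hp.2.2⟩, ?_⟩, fun hz => ⟨⟨h2, hp.2.1, hz⟩, hl⟩⟩
          have := H.len_mul p.1 (p.1⁻¹ * z)
          rw [mul_inv_cancel_left] at this
          rw [Nat.succ_mul]
          exact this.trans (Nat.add_le_add hl h2)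
    rcases key n with he | he
    · intro p hp
      have h2 := (he.symm.subset hp).2
      have := H.len_mul p.1 (p.1⁻¹ * p.2)
      rw [mul_inv_cancel_left] at this
      exact ⟨h2, this.trans (Nat.add_le_add h2 hp.1)⟩
    · have := ncard_le_ncard (sep_subset (Dl H K A) fun p => H.len p.1 ≤ n * K) hf
      omega
  · rintro A ⟨-, -, -, y, hy⟩ B - e
    exact eq_of_Dl H hK e ⟨_, hy⟩

end KAC
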