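import Pool.Agent.Lib.MP_e1e491_gt.Ac.Cut2

/-! Optimal cuts exist and are nested. -/

namespace KAC

open Set KKC
open scoped Pointwise Classical

variable {G Z : Type} [Group G] [MetricSpace Z] [CompactSpace Z] [MulAction G Z] (H : HB G Z)
  {K : ℕ} {μ : Set G → ℝ} {A B : Set G} {ξ ζ ξ' ζ' : Z}

theorem Sep.nonempty (hK : 1 ≤ K) (h : Sep H K A ξ ζ) : (Dl H K A).Nonempty := by
  rw [nonempty_iff_ne_empty]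
  intro h0
  have h2 := h.2
  rcases eq_of_Dl_empty H hK h0 with rfl | rfl
  · rw [bd_empty] at h2
    simp at h2
  · rw [bd_univ] at h2
    simp at h2

omit [CompactSpace Z] in
theorem cut3_symm (h : Sep H K A ξ ζ) : Sep H K A ζ ξ := ⟨h.1, by have := h.2; tauto⟩

theorem cut3_smul (h : Sep H K A ξ ζ) (g : G) : Sep H K (g • A) (g • ξ) (g • ζ) := by
  refine ⟨fin_smul H g h.1, ?_⟩
  rw [bd_smul, smul_mem_smul_set_iff, smul_mem_smul_set_iff]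
  exact h.2

theorem Mn.symm (h : Mn H K μ A ξ ζ) : Mn H K μ A ζ ξ := by
  exact ⟨cut3_symm H h.1, fun B hB => h.2.1 B (cut3_symm H hB),
    fun B hB => h.2.2 B (cut3_symm H hB)⟩

theorem Mn.compl (hK : 1 ≤ K) (hμ : IsMu H K μ) (h : Mn H K μ A ξ ζ) : Mn H K μ Aᶜ ξ ζ := by
  refine ⟨⟨fin_compl H h.1.1, ?_⟩, ?_, ?_⟩
  · rw [bd_compl H hK h.1.1, mem_compl_iff, mem_compl_iff]
    exact not_congr h.1.2
  · rw [ncard_compl]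
    exact h.2.1
  · rw [ncard_compl, hμ.compl]
    exact h.2.2

theorem Mn.smul (hμ : IsMu H K μ) (h : Mn H K μ A ξ ζ) (g : G) :
    Mn H K μ (g • A) (g • ξ) (g • ζ) := by
  have key : ∀ B, Sep H K B (g • ξ) (g • ζ) → Sep H K (g⁻¹ • B) ξ ζ := fun B hB => by
    simpa only [inv_smul_smul] using cut3_smul H hB g⁻¹
  refine ⟨cut3_smul H h.1 g, fun B hB => ?_, fun B hB hn => ?_⟩
  · have h1 := h.2.1 _ (key B hB)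
    rwa [ncard_smul, ← ncard_smul H g A] at h1
  · rw [ncard_smul] at hn
    have h1 := h.2.2 _ (key B hB) (by rw [ncard_smul, hn])
    rwa [hμ.smul, ← hμ.smul g A] at h1

theorem exists_mn (hK : 1 ≤ K) (hP : H.Par ⊤ K) (hμ : IsMu H K μ) (h : Sep H K A ξ ζ) :
    ∃ B, Mn H K μ B ξ ζ := by
  have hex : ∃ n, ∃ B, Sep H K B ξ ζ ∧ (Dl H K B).ncard = n := ⟨_, A, h, rfl⟩
  have hmin : ∀ B, Sep H K B ξ ζ → Nat.find hex ≤ (Dl H K B).ncard := fun B hB =>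
    Nat.find_min' hex ⟨B, hB, rfl⟩
  have hfin : (μ '' {B | Sep H K B ξ ζ ∧ (Dl H K B).ncard = Nat.find hex}).Finite := by
    refine ((tc_finite H hK (Nat.find hex)).image μ).subset ?_
    rintro _ ⟨B, ⟨hB, hn⟩, rfl⟩
    obtain ⟨q, hq⟩ := Sep.nonempty H hK hB
    refine ⟨q.1⁻¹ • B, ⟨fin_smul H _ hB.1, by rw [ncard_smul, hn], ?_, q.1⁻¹ * q.2, ?_⟩,
      hμ.smul _ _⟩
    · exact TC.smul H (tc_of_min H hK hP hB fun C hC => hn ▸ hmin C hC) _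
    · rw [Dl_smul]
      exact ⟨q, hq, by simp⟩
  obtain ⟨_, ⟨B, ⟨hB, hn⟩, rfl⟩, hle⟩ := exists_min_image _ id hfin
    (Nonempty.image μ (Nat.find_spec hex))
  exact ⟨B, hB, fun C hC => hn ▸ hmin C hC, fun C hC hc => hle _ ⟨C, ⟨hC, hc.trans hn⟩, rfl⟩⟩

theorem cut3_key (hK : 1 ≤ K) (hμ : IsMu H K μ) (hA : Mn H K μ A ξ ζ)
    (hB : Mn H K μ B ξ' ζ') (h1 : (A \ B).Nonempty) (h2 : (B \ A).Nonempty)
    (h3 : ξ ∈ bd H A ∧ ξ ∈ bd H B ↔ ¬ (ζ ∈ bd H A ∧ ζ ∈ bd H B))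
    (h4 : ξ' ∈ bd H A ∨ ξ' ∈ bd H B ↔ ¬ (ζ' ∈ bd H A ∨ ζ' ∈ bd H B)) : False := by
  have s1 : Sep H K (A ∩ B) ξ ζ := ⟨fin_inter H hA.1.1 hB.1.1, by rw [bd_inter]; exact h3⟩
  have s2 : Sep H K (A ∪ B) ξ' ζ' :=
    ⟨fin_union H hA.1.1 hB.1.1, by rw [bd_union H hK hA.1.1 hB.1.1]; exact h4⟩
  have e1 := hA.2.1 _ s1
  have e2 := hB.2.1 _ s2
  have e3 := ncard_submod H hA.1.1 hB.1.1
  have e4 := hA.2.2 _ s1 (by omega)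
  have e5 := hB.2.2 _ s2 (by omega)
  have e6 := hμ.strict A B hA.1.1 hB.1.1 h1 h2
  linarith

theorem cut3_p1 {a1 a2 a3 a4 b1 b2 b3 b4 : Prop} (a : a1 ↔ ¬ a2) (b : b3 ↔ ¬ b4)
    (k1 : (a1 ∧ b1 ↔ ¬ (a2 ∧ b2)) → (a3 ∨ b3 ↔ ¬ (a4 ∨ b4)) → False)
    (k2 : (b3 ∧ a3 ↔ ¬ (b4 ∧ a4)) → (b1 ∨ a1 ↔ ¬ (b2 ∨ a2)) → False)
    (k3 : (a1 ∧ ¬ b1 ↔ ¬ (a2 ∧ ¬ b2)) → (a3 ∨ ¬ b3 ↔ ¬ (a4 ∨ ¬ b4)) → False)
    (k4 : (¬ b3 ∧ a3 ↔ ¬ (¬ b4 ∧ a4)) → (¬ b1 ∨ a1 ↔ ¬ (¬ b2 ∨ a2)) → False) :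
    (b1 ↔ ¬ b2) ∧ (a3 ↔ ¬ a4) := by
  by_cases a2 <;> by_cases b4 <;> by_cases a3 <;> by_cases a4 <;> by_cases b1 <;> by_cases b2 <;>
    simp_all

theorem cut3_p2 {a1 a2 b1 b2 : Prop} (a : a1 ↔ ¬ a2) (b : b1 ↔ ¬ b2)
    (k5 : (a1 ∧ b1 ↔ ¬ (a2 ∧ b2)) → (a1 ∨ b1 ↔ ¬ (a2 ∨ b2)) → False)
    (k6 : (a1 ∧ ¬ b1 ↔ ¬ (a2 ∧ ¬ b2)) → (a1 ∨ ¬ b1 ↔ ¬ (a2 ∨ ¬ b2)) → False) : False := by
  by_cases a2 <;> by_cases b2 <;> simp_all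

theorem Mn.nested (hK : 1 ≤ K) (hμ : IsMu H K μ) (hA : Mn H K μ A ξ ζ)
    (hB : Mn H K μ B ξ' ζ') : Nested A B := by
  by_contra hn
  simp only [Nested, not_or] at hn
  obtain ⟨n1, n2, n3, n4⟩ := hn
  have h1 : (A \ B).Nonempty := sdiff_nonempty.2 n1
  have h2 : (B \ A).Nonempty := sdiff_nonempty.2 n2
  have h3 : (A \ Bᶜ).Nonempty := by
    rw [sdiff_compl]
    exact not_disjoint_iff_nonempty_inter.1 n3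
  have h4 : (Bᶜ \ A).Nonempty := by
    rw [sdiff_eq, ← compl_union, union_comm]
    exact nonempty_compl.2 n4
  have hc := bd_compl H hK hB.1.1
  have a := hA.1.2
  have b := hB.1.2
  have k1 := cut3_key H hK hμ hA hB h1 h2
  have k2 := cut3_key H hK hμ hB hA h2 h1
  have k3 := cut3_key H hK hμ hA (Mn.compl H hK hμ hB) h3 h4
  have k4 := cut3_key H hK hμ (Mn.compl H hK hμ hB) hA h4 h3
  simp only [hc, mem_compl_iff] at k3 k4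
  have s1 : Sep H K B ξ ζ := ⟨hB.1.1, (cut3_p1 a b k1 k2 k3 k4).1⟩
  have s2 : Sep H K A ξ' ζ' := ⟨hA.1.1, (cut3_p1 a b k1 k2 k3 k4).2⟩
  have e1 : (Dl H K A).ncard = (Dl H K B).ncard := le_antisymm (hA.2.1 _ s1) (hB.2.1 _ s2)
  have e2 : μ B ≤ μ A := hB.2.2 _ s2 e1
  have hB' : Mn H K μ B ξ ζ := ⟨s1, fun C hC => e1 ▸ hA.2.1 C hC,
    fun C hC hn => e2.trans (hA.2.2 C hC (hn.trans e1.symm))⟩
  have k5 := cut3_key H hK hμ hA hB' h1 h2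
  have k6 := cut3_key H hK hμ hA (Mn.compl H hK hμ hB') h3 h4
  simp only [hc, mem_compl_iff] at k6
  exact cut3_p2 a s1.2 k5 k6

end KAC
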