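import Pool.Agent.Lib.MP_e1e491_gt.Ac.Cut1

/-! Kneser finiteness for nested cuts. -/

namespace KAC

open Set KKC
open scoped Pointwise Classical

variable {G Z : Type} [Group G] [MetricSpace Z] [CompactSpace Z] [MulAction G Z] (H : HB G Z)
  {K : ℕ}

omit [CompactSpace Z] in
theorem cut4_fin {A : Set G} (hA : (Dl H K A).Finite) {x y : G} (h : H.len (x⁻¹ * y) ≤ K) :
    {B | B ∈ MulAction.orbit G A ∧ x ∈ B ∧ y ∉ B}.Finite := by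
  refine (hA.image fun p => (x * p.1⁻¹) • A).subset ?_
  rintro _ ⟨⟨g, rfl⟩, hx, hy⟩
  simp only [mem_smul_set_iff_inv_smul_mem, smul_eq_mul] at hx hy
  refine ⟨(g⁻¹ * x, g⁻¹ * y), ⟨?_, hx, hy⟩, by simp⟩
  simpa [mul_assoc] using h

theorem cut4_least (hK : 1 ≤ K) {E : Set (Set G)} (hn : ∀ A ∈ E, ∀ B ∈ E, Nested A B)
    (hc : ∀ A ∈ E, (Dl H K A).Nonempty ∧ TC H K A)
    (hf : ∀ x y, H.len (x⁻¹ * y) ≤ K → {B | B ∈ E ∧ x ∈ B ∧ y ∉ B}.Finite) {A : Set G}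
    (hA : A ∈ E) : ∃ u z v, H.len (u⁻¹ * z) ≤ K ∧ H.len (u⁻¹ * v) ≤ K ∧
      IsLeast {B | B ∈ E ∧ u ∈ B ∧ z ∈ B ∧ v ∉ B} A := by
  have hch : ∀ B ∈ E, ∀ B' ∈ E, ∀ u v, u ∈ B → u ∈ B' → v ∉ B → v ∉ B' → B ⊆ B' ∨ B' ⊆ B := by
    intro B hB B' hB' u v h1 h2 h3 h4
    rcases hn B hB B' hB' with h | h | h | h
    · exact Or.inl h
    · exact Or.inr h
    · exact absurd h2 (disjoint_left.1 h h1)
    · exact ((h ▸ mem_univ v : v ∈ B ∪ B').elim h3 h4).elim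
  obtain ⟨⟨⟨x, y⟩, hxy, hx, hy⟩, hT⟩ := hc A hA
  by_cases hne : {B | (B ∈ E ∧ x ∈ B ∧ y ∉ B) ∧ B ⊂ A}.Nonempty
  · obtain ⟨A', ⟨⟨hA', hx', hy'⟩, hlt⟩, hmax⟩ :=
      ((hf x y hxy).subset fun B hB => hB.1).exists_maximal hne
    by_cases hz : ∃ u z v, H.len (u⁻¹ * z) ≤ K ∧ H.len (u⁻¹ * v) ≤ K ∧ u ∈ A' ∧ v ∉ A ∧ z ∈ A ∧
        z ∉ A'
    · obtain ⟨u, z, v, h1, h2, hu, hv, hz, hz'⟩ := hz
      refine ⟨u, z, v, h1, h2, ⟨hA, hlt.1 hu, hz, hv⟩, fun B ⟨hB, h3, h4, h5⟩ => ?_⟩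
      by_contra h6
      have h7 := (hch A hA B hB u v (hlt.1 hu) h3 hv h5).resolve_left h6
      have h8 := (hch B hB A' hA' u v h3 hu h5 fun h => hv (hlt.1 h)).resolve_left
        fun h => hz' (h h4)
      exact hz' (hmax ⟨⟨hB, h8 hx', fun h => hy (h7 h)⟩, h7, h6⟩ h8 h4)
    · push Not at hz
      have hS : ({p | H.len (p.1⁻¹ * p.2) ≤ K ∧ p.1 ∈ A' ∧ p.2 ∉ A} : Set (G × G)).Nonempty :=
        ⟨(x, y), hxy, hx', hy⟩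
      have h1 := hT {p | H.len (p.1⁻¹ * p.2) ≤ K ∧ p.1 ∈ A' ∧ p.2 ∉ A}
        ⟨fun p hp => ⟨hp.1, hlt.1 hp.2.1, hp.2.2⟩, fun p hp z h1 h2 =>
        ⟨fun h => ⟨h2, hz _ _ _ h1 hp.1 hp.2.1 hp.2.2 h, hp.2.2⟩, fun h => ⟨h1, hp.2.1, h⟩⟩⟩ hS
      have h2 := (hc A' hA').2 {p | H.len (p.1⁻¹ * p.2) ≤ K ∧ p.1 ∈ A' ∧ p.2 ∉ A}
        ⟨fun p hp => ⟨hp.1, hp.2.1, fun h => hp.2.2 (hlt.1 h)⟩,
        fun p hp z h1 h2 => ⟨fun h => ⟨h2, h, hp.2.2⟩,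
          fun h => ⟨h1, hp.2.1, fun h' => h (hz _ _ _ h1 hp.1 hp.2.1 hp.2.2 h')⟩⟩⟩ hS
      exact absurd (eq_of_Dl H hK (h2.symm.trans h1) (hc A' hA').1) hlt.ne
  · refine ⟨x, x, y, ?_, hxy, ⟨hA, hx, hx, hy⟩, fun B ⟨hB, h3, _, h5⟩ => ?_⟩
    · rw [inv_mul_cancel, (H.len_eq_zero 1).2 rfl]
      exact Nat.zero_le _
    · by_contra h6
      exact hne ⟨B, ⟨hB, h3, h5⟩, (hch A hA B hB x y hx h3 hy h5).resolve_left h6, h6⟩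

theorem kneser (hK : 1 ≤ K) {E : Set (Set G)} (hi : ∀ (g : G), ∀ A ∈ E, g • A ∈ E)
    (hn : ∀ A ∈ E, ∀ B ∈ E, Nested A B)
    (hc : ∀ A ∈ E, (Dl H K A).Finite ∧ (Dl H K A).Nonempty ∧ TC H K A) :
    ∃ F : Set (Set G), F.Finite ∧ F ⊆ E ∧ ∀ A ∈ E, ∃ g : G, ∃ B ∈ F, A = g • B := by
  have hQ : (MulAction.orbit G '' E).Finite := by
    by_contra hinf
    have hP := (H.fin K).prod (H.fin K)
    obtain ⟨t, ht, hcard⟩ := Set.Infinite.exists_subset_card_eq hinf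
      (({g | H.len g ≤ K} ×ˢ {g | H.len g ≤ K}).ncard + 1)
    obtain ⟨E', hE'⟩ : ∃ E' : Set (Set G), ∀ A, A ∈ E' ↔ A ∈ E ∧ MulAction.orbit G A ∈ t :=
      ⟨{A | A ∈ E ∧ MulAction.orbit G A ∈ t}, fun _ => Iff.rfl⟩
    have hi' : ∀ (g : G), ∀ A ∈ E', g • A ∈ E' := fun g A hA =>
      (hE' _).2 ⟨hi g A ((hE' A).1 hA).1, by
        rw [MulAction.orbit_smul]
        exact ((hE' A).1 hA).2⟩
    have hf : ∀ x y, H.len (x⁻¹ * y) ≤ K → {B | B ∈ E' ∧ x ∈ B ∧ y ∉ B}.Finite := by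
      intro x y h
      refine (t.finite_toSet.biUnion (t := fun ω => {B | B ∈ ω ∧ x ∈ B ∧ y ∉ B})
        fun ω hω => ?_).subset fun B hB => ?_
      · obtain ⟨A, hA, rfl⟩ := ht hω
        exact cut4_fin H (hc A hA).1 h
      · exact mem_biUnion ((hE' B).1 hB.1).2 ⟨MulAction.mem_orbit_self B, hB.2⟩
    have hsub : (t : Set (Set (Set G))) ⊆ (fun s : G × G => MulAction.orbit G
        (sInf {B | B ∈ E' ∧ 1 ∈ B ∧ s.1 ∈ B ∧ s.2 ∉ B})) ''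
        ({g | H.len g ≤ K} ×ˢ {g | H.len g ≤ K}) := by
      intro ω hω
      obtain ⟨A, hA, rfl⟩ := ht hω
      obtain ⟨u, z, v, h1, h2, ⟨hA', h3, h4, h5⟩, h6⟩ := cut4_least H hK
        (fun A hA B hB => hn A ((hE' A).1 hA).1 B ((hE' B).1 hB).1)
        (fun A hA => (hc A ((hE' A).1 hA).1).2) hf ((hE' A).2 ⟨hA, hω⟩)
      have h7 : IsLeast {B | B ∈ E' ∧ 1 ∈ B ∧ u⁻¹ * z ∈ B ∧ u⁻¹ * v ∉ B} (u⁻¹ • A) := by
        refine ⟨⟨hi' _ _ hA', ?_⟩, fun B ⟨hB, h8⟩ => ?_⟩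
        · simpa [mem_inv_smul_set_iff] using ⟨h3, h4, h5⟩
        · refine smul_set_subset_iff_subset_inv_smul_set.2 (h6 ⟨hi' _ _ hB, ?_⟩)
          simpa [mem_smul_set_iff_inv_smul_mem] using h8
      refine ⟨(u⁻¹ * z, u⁻¹ * v), ⟨h1, h2⟩, ?_⟩
      simp only [h7.csInf_eq, MulAction.orbit_smul]
    have h9 := (ncard_le_ncard hsub (hP.image _)).trans (ncard_image_le hP)
    rw [ncard_coe_finset, hcard] at h9
    omega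
  obtain ⟨F, hFE, hF, e⟩ := (exists_subset_image_finite_and
    (p := fun t => t = MulAction.orbit G '' E)).1 ⟨_, subset_rfl, hQ, rfl⟩
  refine ⟨F, hF, hFE, fun A hA => ?_⟩
  obtain ⟨B, hB, h⟩ : MulAction.orbit G A ∈ MulAction.orbit G '' F := e ▸ mem_image_of_mem _ hA
  obtain ⟨g, hg⟩ : A ∈ MulAction.orbit G B := h ▸ MulAction.mem_orbit_self A
  exact ⟨g, B, hB, hg.symm⟩

end KAC
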