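import Pool.Agent.Lib.MP_e1e491_gt.Ac.Cut1

/-! The strictly submodular function. -/

namespace KAC

open Set KKC
open scoped Pointwise Classical

variable {G Z : Type} [Group G] [MetricSpace Z] [CompactSpace Z] [MulAction G Z] (H : HB G Z)
  {K : ℕ}

/-- The points that `s` moves to the other side of `A`. -/
def mu_E (A : Set G) (s : G) : Set G := {x | x ∈ A ↔ x * s ∉ A}

omit [CompactSpace Z] in
theorem mu_bound (hK : 1 ≤ K) {A : Set G} (hA : (Dl H K A).Finite) : ∃ c : ℕ, ∀ s,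
    (mu_E A s).Finite ∧ (mu_E A s).ncard ≤ c * H.len s := by
  obtain ⟨F, hF, hF'⟩ : ∃ F : Set G, F.Finite ∧ ∀ t, H.len t = 1 → mu_E A t ⊆ F := by
    refine ⟨Prod.fst '' Dl H K A ∪ Prod.snd '' Dl H K A, (hA.image _).union (hA.image _),
      fun t ht y hy => ?_⟩
    by_cases h : y ∈ A
    · exact Or.inl ⟨(y, y * t), ⟨by simpa [ht] using hK, h, hy.1 h⟩, rfl⟩
    · exact Or.inr ⟨(y * t, y), ⟨by simpa [H.len_inv, ht] using hK,
        not_not.1 fun h' => h (hy.2 h'), h⟩, rfl⟩
  refine ⟨F.ncard, fun s => ?_⟩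
  generalize hn : H.len s = n
  induction n generalizing s with
  | zero =>
    have e : mu_E A s = ∅ := by
      rw [(H.len_eq_zero s).1 hn]
      ext x
      simp [mu_E]
    simp [e]
  | succ n ih =>
    obtain ⟨h, h1, h2⟩ := H.par s n hn
    obtain ⟨i1, i2⟩ := ih h h1
    have hs : mu_E A s ⊆ mu_E A h ∪ (fun y => y * h⁻¹) '' F := by
      intro x hx
      by_cases hh : x ∈ mu_E A h
      · exact Or.inl hh
      refine Or.inr ⟨x * h, hF' _ h2 ?_, by simp⟩
      simp only [mu_E, mem_ofPred_eq] at hx hh ⊢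
      rw [mul_assoc, mul_inv_cancel_left]
      tauto
    have hf := i1.union (hF.image fun y => y * h⁻¹)
    refine ⟨hf.subset hs, (ncard_le_ncard hs hf).trans ((ncard_union_le _ _).trans ?_)⟩
    have := ncard_image_le (f := fun y => y * h⁻¹) hF
    rw [Nat.mul_succ]
    omega

theorem mu_sub {A B : Set G} {s : G} (hA : (mu_E A s).Finite) (hB : (mu_E B s).Finite) :
    (mu_E (A ∩ B) s).ncard + (mu_E (A ∪ B) s).ncard ≤ (mu_E A s).ncard + (mu_E B s).ncard ∧
    ∀ x ∈ A \ B, x * s ∈ B \ A →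
      (mu_E (A ∩ B) s).ncard + (mu_E (A ∪ B) s).ncard < (mu_E A s).ncard + (mu_E B s).ncard := by
  have h1 : mu_E (A ∩ B) s ∪ mu_E (A ∪ B) s ⊆ mu_E A s ∪ mu_E B s := by
    intro x
    simp only [mu_E, mem_ofPred_eq, mem_union, mem_inter_iff]
    tauto
  have h2 : mu_E (A ∩ B) s ∩ mu_E (A ∪ B) s ⊆ mu_E A s ∩ mu_E B s := by
    intro x
    simp only [mu_E, mem_ofPred_eq, mem_union, mem_inter_iff]
    tauto
  have f := (hA.union hB).subset h1
  rw [← ncard_union_add_ncard_inter _ _ (f.subset subset_union_left) (f.subset subset_union_right),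
    ← ncard_union_add_ncard_inter _ _ hA hB]
  have a1 := ncard_le_ncard h1 (hA.union hB)
  refine ⟨add_le_add a1 (ncard_le_ncard h2 (hA.inter_of_left _)), fun x hx hy => ?_⟩
  refine add_lt_add_of_le_of_lt a1 (ncard_lt_ncard ⟨h2, fun h => ?_⟩ (hA.inter_of_left _))
  have h3 := @h x
  simp only [mu_E, mem_ofPred_eq, mem_union, mem_inter_iff, mem_sdiff] at h3 hx hy
  tauto

theorem exists_mu (hK : 1 ≤ K) : ∃ μ, IsMu H K μ := by
  have : Countable G := by
    rw [← countable_univ_iff]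
    refine (countable_iUnion fun n => (H.fin n).countable).mono fun g _ => ?_
    exact mem_iUnion.2 ⟨H.len g, Nat.le_refl _⟩
  obtain ⟨e, he⟩ := exists_injective_nat G
  obtain ⟨w, w0, hw⟩ : ∃ w : G → ℝ, (∀ s, 0 < w s) ∧ ∀ s, w s * H.len s ≤ (1 / 2) ^ e s := by
    refine ⟨fun s => (1 / 2) ^ e s / (H.len s + 1), fun s => by positivity, fun s => ?_⟩
    rw [div_mul_eq_mul_div, div_le_iff₀ (by positivity)]
    exact mul_le_mul_of_nonneg_left (by linarith) (by positivity)
  have sm : ∀ A, (Dl H K A).Finite → Summable fun s => w s * ((mu_E A s).ncard : ℝ) := by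
    intro A hA
    obtain ⟨c, hc⟩ := mu_bound H hK hA
    refine Summable.of_nonneg_of_le (fun s => mul_nonneg (w0 s).le (Nat.cast_nonneg _))
      (fun s => ?_) ((summable_geometric_two.comp_injective he).mul_left (c : ℝ))
    have h1 : ((mu_E A s).ncard : ℝ) ≤ c * H.len s := by exact_mod_cast (hc s).2
    have h2 := mul_le_mul_of_nonneg_left h1 (w0 s).le
    have h3 := mul_le_mul_of_nonneg_left (hw s) (Nat.cast_nonneg (α := ℝ) c)
    simp only [Function.comp]
    linarith
  refine ⟨fun A => ∑' s, w s * ((mu_E A s).ncard : ℝ), fun g A => ?_, fun A => ?_,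
    fun A B hA hB ⟨x, hx⟩ ⟨y, hy⟩ => ?_⟩
  · refine tsum_congr fun s => ?_
    have e : mu_E (g • A) s = g • mu_E A s := by
      ext x
      simp only [mu_E, mem_ofPred_eq, mem_smul_set_iff_inv_smul_mem, smul_eq_mul, mul_assoc]
    rw [e, ncard_smul_set]
  · refine tsum_congr fun s => ?_
    have e : mu_E Aᶜ s = mu_E A s := by
      ext x
      simp only [mu_E, mem_ofPred_eq, mem_compl_iff]
      tauto
    rw [e]
  · obtain ⟨_, fA⟩ := mu_bound H hK hA
    obtain ⟨_, fB⟩ := mu_bound H hK hB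
    have s1 := sm _ (fin_inter H hA hB)
    have s2 := sm _ (fin_union H hA hB)
    rw [← s1.tsum_add s2, ← (sm A hA).tsum_add (sm B hB)]
    refine Summable.tsum_lt_tsum (i := x⁻¹ * y) (fun s => ?_) ?_ (s1.add s2)
      ((sm A hA).add (sm B hB))
    · have h1 := (mu_sub (fA s).1 (fB s).1).1
      simp only [← mul_add]
      exact mul_le_mul_of_nonneg_left (by exact_mod_cast h1) (w0 s).le
    · have h1 := (mu_sub (fA (x⁻¹ * y)).1 (fB (x⁻¹ * y)).1).2 x hx (by simpa using hy)
      simp only [← mul_add]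
      exact mul_lt_mul_of_pos_left (by exact_mod_cast h1) (w0 _)

end KAC
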