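import Pool.Agent.Lib.MP_e1e491_gt.Ac.Cut3
import Pool.Agent.Lib.MP_e1e491_gt.Ac.Cut4
import Pool.Agent.Lib.MP_e1e491_gt.Ac.Mu
import Pool.Agent.Lib.MP_e1e491_gt.S1Q

/-! The nested family of clopen sets. -/

namespace KAC

open Set KKC
open scoped Pointwise Classical

variable {G Z : Type} [Group G] [MetricSpace Z] [CompactSpace Z] [MulAction G Z] (H : HB G Z)
include H

theorem no_isolated [Infinite Z] (ξ : Z) {r : ℝ} (hr : 0 < r) : ∃ ζ, ζ ≠ ξ ∧ dist ζ ξ < r := by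
  by_contra hn
  have h0 : ∀ ζ, ζ ≠ ξ → r ≤ dist ζ ξ := fun ζ h => not_lt.1 fun h' => hn ⟨ζ, h, h'⟩
  obtain ⟨L, hL, h1⟩ := H.view_exists
  obtain ⟨C, hC, h2⟩ := H.view_far L hL
  have hC0 : 0 < C := by linarith
  obtain ⟨f, hf⟩ := Infinite.natEmbedding Z
  have hd : ∀ i j, i ≠ j → 0 < dist (f i) (f j) := fun i j h => dist_pos.2 (hf.ne h)
  obtain ⟨m, hm, m1, m2, m3⟩ : ∃ m > 0, m ≤ dist (f 0) (f 1) ∧ m ≤ dist (f 0) (f 2) ∧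
      m ≤ dist (f 1) (f 2) :=
    ⟨min (dist (f 0) (f 1)) (min (dist (f 0) (f 2)) (dist (f 1) (f 2))),
      lt_min (hd 0 1 (by decide)) (lt_min (hd 0 2 (by decide)) (hd 1 2 (by decide))),
      min_le_left _ _, (min_le_right _ _).trans (min_le_left _ _),
      (min_le_right _ _).trans (min_le_right _ _)⟩
  obtain ⟨g, hg⟩ := h1 ξ (min 1 (r * (m / 4) / C)) (by positivity) (min_le_left _ _)
  have h3 : ∀ y, y ≠ g⁻¹ • ξ → dist y (H.loc g⁻¹) ≤ m / 4 := by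
    intro y hy
    have h4 := h2 g ξ _ hg (g • y)
    rw [inv_smul_smul] at h4
    have h5 := mul_le_mul_of_nonneg_right (h0 (g • y) fun e => hy (by rw [← e, inv_smul_smul]))
      (dist_nonneg (x := y) (y := H.loc g⁻¹))
    have h6 : C * min 1 (r * (m / 4) / C) ≤ r * (m / 4) := by
      rw [mul_comm, ← le_div_iff₀ hC0]
      exact min_le_right _ _
    exact le_of_mul_le_mul_left (h5.trans (h4.trans h6)) hr
  have h4 : ∀ i j, f i ≠ g⁻¹ • ξ → f j ≠ g⁻¹ • ξ → dist (f i) (f j) < m := fun i j hi hj => by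
    linarith [h3 _ hi, h3 _ hj, dist_triangle_right (f i) (f j) (H.loc g⁻¹)]
  by_cases e0 : f 0 = g⁻¹ • ξ
  · exact absurd m3 (not_le.2 (h4 1 2 (e0 ▸ hf.ne (by decide)) (e0 ▸ hf.ne (by decide))))
  by_cases e1 : f 1 = g⁻¹ • ξ
  · exact absurd m2 (not_le.2 (h4 0 2 e0 (e1 ▸ hf.ne (by decide))))
  · exact absurd m1 (not_le.2 (h4 0 1 e0 e1))

theorem exists_fam [Infinite Z] : ∃ 𝒞 : Set (Set Z), Fam G 𝒞 := by
  obtain ⟨K₀, hK₀⟩ := H.par_of_qc H.s1_qc_top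
  obtain ⟨K, hK, hP⟩ : ∃ K, 1 ≤ K ∧ H.Par ⊤ K :=
    ⟨max K₀ 1, le_max_right _ _, hK₀ _ (le_max_left _ _)⟩
  obtain ⟨μ, hμ⟩ := exists_mu H hK
  obtain ⟨E, hE⟩ : ∃ E : Set (Set G), ∀ A, A ∈ E ↔ ∃ ξ ζ, Mn H K μ A ξ ζ :=
    ⟨{A | _}, fun _ => Iff.rfl⟩
  have hf : ∀ A ∈ E, (Dl H K A).Finite := fun A hA => by
    obtain ⟨ξ, ζ, h⟩ := (hE A).1 hA
    exact h.1.1
  have hs : ∀ (g : G), ∀ A ∈ E, g • A ∈ E := fun g A hA => by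
    obtain ⟨ξ, ζ, h⟩ := (hE A).1 hA
    exact (hE _).2 ⟨_, _, Mn.smul H hμ h g⟩
  have hn : ∀ A ∈ E, ∀ B ∈ E, Nested A B := fun A hA B hB => by
    obtain ⟨ξ, ζ, h⟩ := (hE A).1 hA
    obtain ⟨ξ', ζ', h'⟩ := (hE B).1 hB
    exact Mn.nested H hK hμ h h'
  have hc : ∀ A ∈ E, (bd H A)ᶜ ∈ bd H '' E := fun A hA => by
    obtain ⟨ξ, ζ, h⟩ := (hE A).1 hA
    exact ⟨Aᶜ, (hE _).2 ⟨ξ, ζ, Mn.compl H hK hμ h⟩, bd_compl H hK h.1.1⟩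
  refine ⟨bd H '' E, ?_, ?_, ?_, ?_, ?_, ?_, ?_⟩
  · rintro _ ⟨A, hA, rfl⟩
    exact bd_clopen H hK (hf A hA)
  · rintro _ ⟨A, hA, rfl⟩
    obtain ⟨x, hx⟩ : (bd H A).Nonempty := by
      obtain ⟨ξ, ζ, h⟩ := (hE A).1 hA
      by_cases h1 : ζ ∈ bd H A
      · exact ⟨ζ, h1⟩
      · exact ⟨ξ, h.1.2.2 h1⟩
    obtain ⟨r, hr, h1⟩ := Metric.isOpen_iff.1 (bd_clopen H hK (hf A hA)).isOpen x hx
    obtain ⟨y, h2, h3⟩ := no_isolated H x hr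
    exact ⟨y, h1 h3, x, hx, h2⟩
  · rintro _ ⟨A, hA, rfl⟩
    exact hc A hA
  · rintro g _ ⟨A, hA, rfl⟩
    exact ⟨g • A, hs g A hA, bd_smul H g A⟩
  · rintro _ ⟨A, hA, rfl⟩ _ ⟨B, hB, rfl⟩
    rcases hn A hA B hB with h | h | h | h
    · exact Or.inl (bd_mono H h)
    · exact Or.inr (Or.inl (bd_mono H h))
    · refine Or.inr (Or.inr (Or.inl ?_))
      rw [disjoint_iff_inter_eq_empty, ← bd_inter, h.inter_eq, bd_empty]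
    · refine Or.inr (Or.inr (Or.inr ?_))
      rw [← bd_union H hK (hf A hA) (hf B hB), h, bd_univ]
  · obtain ⟨F, h1, h2, h3⟩ := kneser H hK hs hn fun A hA => by
      obtain ⟨ξ, ζ, h⟩ := (hE A).1 hA
      exact ⟨h.1.1, Sep.nonempty H hK h.1, tc_of_min H hK hP h.1 h.2.1⟩
    refine ⟨bd H '' F, h1.image _, image_mono h2, ?_⟩
    rintro _ ⟨A, hA, rfl⟩
    obtain ⟨g, B, hB, rfl⟩ := h3 A hA
    exact ⟨g, _, ⟨B, hB, rfl⟩, bd_smul H g B⟩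
  · intro x y hy
    rw [connectedComponent_eq_iInter_isClopen, mem_iInter, not_forall] at hy
    obtain ⟨⟨U, h1, h2⟩, h3⟩ := hy
    obtain ⟨A, h4, rfl⟩ := exists_cut H K h1
    obtain ⟨B, hB⟩ := exists_mn H hK hP hμ (A := A) (ξ := x) (ζ := y) ⟨h4, iff_of_true h2 h3⟩
    have h5 := (hE B).2 ⟨x, y, hB⟩
    by_cases h6 : x ∈ bd H B
    · exact ⟨_, ⟨B, h5, rfl⟩, h6, hB.1.2.1 h6⟩
    · exact ⟨_, hc B h5, h6, fun h7 => h6 (hB.1.2.2 h7)⟩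

end KAC
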