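import Pool.Agent.Lib.MP_e1e491_gt.V2
import Pool.Agent.Lib.MP_e1e491_gt.Vf
import Pool.Agent.Lib.MP_e1e491_gt.P2.QS
import Pool.Agent.Lib.MP_e1e491_gt.P2.Eta
import Pool.Agent.Lib.MP_e1e491_gt.P2.Sphere

/-! Reduction of the embedding problem to connected boundaries: definitions. -/

namespace KAC

open Set KKC
open scoped Pointwise Classical

/-- One of the four corners of `A` and `B` is empty. -/
def Nested {X : Type} (A B : Set X) : Prop := A ⊆ B ∨ B ⊆ A ∨ Disjoint A B ∨ A ∪ B = univ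

section Cuts

variable {G Z : Type} [Group G] [MetricSpace Z] [MulAction G Z] (H : HB G Z)

/-- The Rips edges that leave `A`. -/
def Dl (K : ℕ) (A : Set G) : Set (G × G) :=
  {p | H.len (p.1⁻¹ * p.2) ≤ K ∧ p.1 ∈ A ∧ p.2 ∉ A}

/-- The boundary points all of whose close group elements lie in `A`. -/
def bd (A : Set G) : Set Z := {ξ | ∃ r > 0, ∀ g, H.q (.inr ξ) (.inl g) < r → g ∈ A}

/-- `A` is a cut that separates `ξ` and `ζ`. -/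
def Sep (K : ℕ) (A : Set G) (ξ ζ : Z) : Prop :=
  (Dl H K A).Finite ∧ (ξ ∈ bd H A ↔ ζ ∉ bd H A)

/-- `S` is a set of edges leaving `A` that is closed under passing through triangles. -/
def Cl (K : ℕ) (A : Set G) (S : Set (G × G)) : Prop :=
  S ⊆ Dl H K A ∧ ∀ p ∈ S, ∀ z, H.len (p.1⁻¹ * z) ≤ K → H.len (z⁻¹ * p.2) ≤ K →
    (z ∈ A → (z, p.2) ∈ S) ∧ (z ∉ A → (p.1, z) ∈ S)

/-- The edges leaving `A` are connected through triangles. -/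
def TC (K : ℕ) (A : Set G) : Prop := ∀ S, Cl H K A S → S.Nonempty → S = Dl H K A

/-- An invariant, strictly submodular function on cuts. -/
structure IsMu (K : ℕ) (μ : Set G → ℝ) : Prop where
  smul : ∀ (g : G) (A : Set G), μ (g • A) = μ A
  compl : ∀ A, μ Aᶜ = μ A
  strict : ∀ A B, (Dl H K A).Finite → (Dl H K B).Finite → (A \ B).Nonempty → (B \ A).Nonempty →
    μ (A ∩ B) + μ (A ∪ B) < μ A + μ B

/-- `A` is an optimal cut between `ξ` and `ζ`. -/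
def Mn (K : ℕ) (μ : Set G → ℝ) (A : Set G) (ξ ζ : Z) : Prop :=
  Sep H K A ξ ζ ∧ (∀ B, Sep H K B ξ ζ → (Dl H K A).ncard ≤ (Dl H K B).ncard) ∧
    ∀ B, Sep H K B ξ ζ → (Dl H K B).ncard = (Dl H K A).ncard → μ A ≤ μ B

end Cuts

/-- An invariant nested family of clopen sets with finitely many orbits that separates the
components. -/
structure Fam (G : Type) {Z : Type} [Group G] [TopologicalSpace Z] [MulAction G Z]
    (𝒞 : Set (Set Z)) : Prop where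
  clopen : ∀ U ∈ 𝒞, IsClopen U
  nt : ∀ U ∈ 𝒞, U.Nontrivial
  compl : ∀ U ∈ 𝒞, Uᶜ ∈ 𝒞
  smul : ∀ (g : G), ∀ U ∈ 𝒞, g • U ∈ 𝒞
  nested : ∀ U ∈ 𝒞, ∀ W ∈ 𝒞, Nested U W
  orb : ∃ F : Set (Set Z), F.Finite ∧ F ⊆ 𝒞 ∧ ∀ U ∈ 𝒞, ∃ g : G, ∃ W ∈ F, U = g • W
  sep : ∀ x y, y ∉ connectedComponent x → ∃ U ∈ 𝒞, x ∈ U ∧ y ∉ U

section Tree

variable {Z : Type}

/-- The members that contain at most one of three points. -/
def small (𝒞 : Set (Set Z)) (o : Fin 3 → Z) : Set (Set Z) :=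
  {U ∈ 𝒞 | ∀ i j, o i ∈ U → o j ∈ U → i = j}

/-- The maximal members that miss `ξ`. -/
def Adj (𝒞 : Set (Set Z)) (ξ : Z) : Set (Set Z) :=
  {W ∈ 𝒞 | ξ ∉ W ∧ ∀ W' ∈ 𝒞, ξ ∉ W' → W ⊆ W' → W' = W}

/-- Every member that misses `ξ` lies in a maximal one. -/
def Good (𝒞 : Set (Set Z)) (ξ : Z) : Prop := ∀ W ∈ 𝒞, ξ ∉ W → ∃ W' ∈ Adj 𝒞 ξ, W ⊆ W'

/-- The points of `V` in no member properly inside `V`. -/
def core (𝒰 : Set (Set Z)) (V : Set Z) : Set Z := {x ∈ V | ∀ U ∈ 𝒰, U ⊂ V → x ∉ U}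

/-- `U` is a maximal member properly inside `V`. -/
def Child (𝒰 : Set (Set Z)) (V U : Set Z) : Prop :=
  U ∈ 𝒰 ∧ U ⊂ V ∧ ∀ W ∈ 𝒰, U ⊆ W → W ⊂ V → W = U

/-- Two different points of `V` that lie in no common member properly inside `V`. -/
def Apart (𝒰 : Set (Set Z)) (V : Set Z) (x y : Z) : Prop :=
  x ∈ V ∧ y ∈ V ∧ x ≠ y ∧ ∀ U ∈ 𝒰, U ⊂ V → ¬ (x ∈ U ∧ y ∈ U)

/-- A distortion function. -/
def Gauge (η : ℝ → ℝ) : Prop := Monotone η ∧ (∀ t, 0 ≤ η t) ∧ ∀ δ > 0, ∃ ε > 0, η ε ≤ δ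

variable [MetricSpace Z]

/-- A laminar family whose members have diameter comparable with their distance to the rest. -/
structure Lam (𝒰 : Set (Set Z)) (L : ℝ) : Prop where
  one_le : 1 ≤ L
  lam : ∀ U ∈ 𝒰, ∀ W ∈ 𝒰, U ⊆ W ∨ W ⊆ U ∨ Disjoint U W
  nt : ∀ U ∈ 𝒰, U.Nontrivial
  ne : univ ∉ 𝒰
  fin : ∀ δ > 0, {U ∈ 𝒰 | Big δ U}.Finite
  gap : ∀ U ∈ 𝒰, ∀ x ∈ U, ∀ x' ∈ U, ∀ y ∉ U, dist x x' ≤ L * dist x y
  gap' : ∀ U ∈ 𝒰, ∃ x ∈ U, ∃ x' ∈ U, ∃ y ∉ U, dist x y ≤ L * dist x x'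

/-- `F` is a quasisymmetric embedding of `V` with its children collapsed to points. -/
structure NQ (𝒰 : Set (Set Z)) (η : ℝ → ℝ) (V : Set Z) (F : Z → ℂ) : Prop where
  const : ∀ U ∈ 𝒰, U ⊂ V → ∀ x ∈ U, ∀ y ∈ U, F x = F y
  ne : ∀ x y, Apart 𝒰 V x y → F x ≠ F y
  qs : ∀ t x y z, Apart 𝒰 V x y → Apart 𝒰 V x z → dist x y ≤ t * dist x z →
    dist (F x) (F y) ≤ η t * dist (F x) (F z)

/-- Doubling. -/
def Dob (Z : Type) [MetricSpace Z] : Prop :=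
  ∀ T : ℝ, ∃ N : ℕ, ∀ r > 0, ∀ (ξ : Z) (P : Finset Z),
    (∀ x ∈ P, ∀ y ∈ P, x ≠ y → r ≤ dist x y) → (∀ x ∈ P, dist x ξ ≤ T * r) → P.card ≤ N

/-- The image of `C` is porous. -/
def Por (C : Set Z) (f : Z → ℂ) (c : ℝ) : Prop :=
  ∀ p ∈ C, ∀ q ∈ C, ∃ w, dist w (f p) ≤ dist (f p) (f q) ∧
    ∀ x ∈ C, c * dist (f p) (f q) ≤ dist w (f x)

end Tree

/-- Normalised data for the gluing. -/
structure GD (Z : Type) [MetricSpace Z] where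
  𝒰 : Set (Set Z)
  L : ℝ
  η : ℝ → ℝ
  F : Set Z → Z → ℂ
  lam : Lam 𝒰 L
  gauge : Gauge η
  nq : ∀ V ∈ insert univ 𝒰, NQ 𝒰 η V (F V)
  le_one : ∀ V ∈ insert univ 𝒰, ∀ x ∈ V, ‖F V x‖ ≤ 1
  big : ∀ V ∈ insert univ 𝒰, ∃ x ∈ V, ∃ y ∈ V, 1 / 2 ≤ dist (F V x) (F V y)

/-- The chain of nodes that contain `x`; it is empty after its last node. -/
def ch {Z : Type} (𝒰 : Set (Set Z)) (x : Z) : ℕ → Set Z
  | 0 => univ
  | k + 1 => ⋃₀ {U ∈ 𝒰 | U ⊂ ch 𝒰 x k ∧ x ∈ U}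

namespace GD

variable {Z : Type} [MetricSpace Z] (D : GD Z)

/-- The distance from the image of `x` to the other images. -/
noncomputable def iso (V : Set Z) (x : Z) : ℝ :=
  sInf {d | ∃ y, Apart D.𝒰 V x y ∧ d = dist (D.F V x) (D.F V y)}

/-- The scale of the picture at level `k`. -/
noncomputable def Λ (x : Z) (k : ℕ) : ℝ :=
  ∏ j ∈ Finset.range k, if (ch D.𝒰 x (j + 1)).Nonempty then D.iso (ch D.𝒰 x j) x / 100 else 0

/-- The glued map. -/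
noncomputable def Φ (x : Z) : ℂ := ∑' k, (D.Λ x k : ℂ) * D.F (ch D.𝒰 x k) x

end GD

section Sub

variable {G Z : Type} [Group G] [MetricSpace Z] [MulAction G Z] (H : HB G Z)

/-- The Gromov product of the length function. -/
noncomputable def gG (x y : G) : ℝ := ((H.len x : ℝ) + H.len y - H.len (x⁻¹ * y)) / 2

/-- `A` is roughly geodesic. -/
def RG (A : Subgroup G) (c : ℕ) : Prop :=
  ∀ x ∈ A, ∀ t ≤ H.len x, ∃ h ∈ A, H.len h ≤ t + c ∧ t ≤ H.len h + c ∧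
    H.len h + H.len (h⁻¹ * x) ≤ H.len x + c

/-- `S` is the ball of radius `K` of `A`. -/
def Gen {A : Subgroup G} (K : ℕ) (S : Finset A) : Prop := ∀ a : A, a ∈ S ↔ H.len a ≤ K

/-- Comparison of the Gromov products of `A` and of `G`. -/
def Cmp {A : Subgroup G} (S : Finset A) (K B : ℝ) : Prop :=
  ∀ x y z : A, min ((gG H x y - gG H x z) / K) (gG H x y - gG H x z) - B ≤ gp S x y - gp S x z

/-- `u` converges to the boundary point `ξ`. -/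
def Tends {A : Subgroup G} (u : ℕ → A) (ξ : Z) : Prop :=
  Filter.Tendsto (fun i => H.q (.inr ξ) (.inl (u i))) Filter.atTop (nhds 0)

end Sub

/-- A blow-up: maps that are uniformly controlled away from the poles `y n`, send the points near
the poles far away and fill the plane. -/
structure Blow {X : Type} [MetricSpace X] (F : ℕ → X → ℂ) (y : ℕ → X) : Prop where
  bdd : ∀ η > 0, ∃ R : ℝ, ∀ᶠ n in Filter.atTop, ∀ x, η ≤ dist x (y n) → ‖F n x‖ ≤ R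
  cont : ∀ η > 0, ∀ δ > 0, ∃ ε > 0, ∀ᶠ n in Filter.atTop, ∀ x x', η ≤ dist x (y n) →
    η ≤ dist x' (y n) → dist x x' ≤ ε → dist (F n x) (F n x') ≤ δ
  inj : ∀ η > 0, ∀ ε > 0, ∃ δ > 0, ∀ᶠ n in Filter.atTop, ∀ x x', η ≤ dist x (y n) →
    η ≤ dist x' (y n) → ε ≤ dist x x' → δ ≤ dist (F n x) (F n x')
  prop : ∀ R : ℝ, ∃ η > 0, ∀ᶠ n in Filter.atTop, ∀ x, dist x (y n) < η → R ≤ ‖F n x‖
  onto : ∀ w : ℂ, ∀ ε > 0, ∀ᶠ n in Filter.atTop, ∃ x, dist (F n x) w < ε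

/-- Data for the extension of `f` from `C` to `X`: feet `p`, scales given by `q`, images `w`. -/
structure ExD {Z : Type} [MetricSpace Z] (C X : Set Z) (f : Z → ℂ) (κ : ℝ) (p q : Z → Z)
    (w : Z → ℂ) : Prop where
  one_le : 1 ≤ κ
  mem : ∀ a ∈ X, p a ∈ C ∧ q a ∈ C
  up : ∀ a ∈ X, dist a (p a) ≤ κ * dist (p a) (q a)
  low : ∀ a ∈ X, ∀ b ∈ X, a ≠ b → dist (p a) (q a) ≤ κ * dist a b
  up' : ∀ a ∈ X, dist (w a) (f (p a)) ≤ κ * dist (f (p a)) (f (q a))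
  low' : ∀ a ∈ X, ∀ b ∈ X, a ≠ b → dist (f (p a)) (f (q a)) ≤ κ * dist (w a) (w b)

/-- The embedding theorem for the spaces homeomorphic to `C`. -/
def Conn {Z : Type} [TopologicalSpace Z] (C : Set Z) : Prop :=
  ∀ (A Y : Type) [Group A] [MetricSpace Y] [MulAction A Y] (_ : HB A Y) (_ : Y ≃ₜ C),
    ∃ f : Y → KP2.S2, KP2.WQS f ∧ Function.Injective f

end KAC
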