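import Pool.Agent.Lib.MP_e1e491_gt.Ac.Defs

/-! Greedy choice of separated points and the count of the neighbours. -/

namespace KAC

open Set KKC
open scoped Pointwise Classical

variable {Z : Type} [MetricSpace Z] {C X Y : Set Z} {f : Z → ℂ}

theorem greedy {I : Type} (N : ℕ) (w₀ : I → ℂ) (r : I → ℝ) (hr : ∀ i, 0 < r i)
    (hN : ∀ i (P : Finset I), (∀ j ∈ P, dist (w₀ i) (w₀ j) ≤ 2 * (r i + r j)) → P.card ≤ N) :
    ∃ w : I → ℂ, (∀ i, dist (w i) (w₀ i) ≤ r i) ∧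
      ∀ i j, i ≠ j → min (r i) (r j) / (2 * N + 2) ≤ dist (w i) (w j) := by
  obtain ⟨S, hS⟩ := zorn_subset {S : Set (I × ℂ) | (∀ p ∈ S, dist p.2 (w₀ p.1) ≤ r p.1) ∧
      ∀ p ∈ S, ∀ q ∈ S, p ≠ q → p.1 ≠ q.1 ∧ min (r p.1) (r q.1) / (2 * N + 2) ≤ dist p.2 q.2}
    fun c hc hc' => ⟨⋃₀ c, ⟨fun p ⟨s, hs, hp⟩ => (hc hs).1 p hp,
      fun p ⟨s, hs, hp⟩ q ⟨t, ht, hq⟩ => (hc'.total hs ht).elim
        (fun e => (hc ht).2 p (e hp) q hq) fun e => (hc hs).2 p hp q (e hq)⟩,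
      fun s hs => subset_sUnion_of_mem hs⟩
  obtain ⟨h1, h2⟩ := hS.prop
  have hN0 : (0 : ℝ) ≤ N := Nat.cast_nonneg N
  have key : ∀ i, ∃ c, (i, c) ∈ S := fun i => by
    by_contra hc
    have hri := hr i
    let t := r i / (N + 1)
    have ht : 0 < t := by positivity
    have ht' : (N + 1) * t = r i := mul_div_cancel₀ _ (by positivity)
    let c : Fin (N + 1) → ℂ := fun k => w₀ i + ((k : ℕ) * t : ℝ)
    have hcd : ∀ k, dist (c k) (w₀ i) ≤ r i := fun k => by
      rw [dist_self_add_left, Complex.norm_real, Real.norm_of_nonneg (by positivity), ← ht']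
      exact mul_le_mul_of_nonneg_right (by exact_mod_cast k.2.le) ht.le
    have h3 : ∀ k, ∃ q ∈ S, dist (c k) q.2 < t / 2 := fun k => by
      by_contra hk
      have hk' : ∀ q ∈ S, i ≠ q.1 ∧ min (r i) (r q.1) / (2 * N + 2) ≤ dist (c k) q.2 :=
        fun q hq => ⟨fun e => hc ⟨q.2, e ▸ hq⟩, le_trans (by
          rw [div_le_iff₀ (by positivity)]
          linarith [min_le_left (r i) (r q.1)]) (not_lt.1 fun e => hk ⟨q, hq, e⟩)⟩
      refine hc ⟨c k, hS.le_of_ge (y := insert (i, c k) S) ⟨?_, ?_⟩ (subset_insert _ _)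
        (mem_insert _ _)⟩
      · rintro p (rfl | hp)
        exacts [hcd k, h1 p hp]
      · rintro p (rfl | hp) q (rfl | hq) e
        · exact absurd rfl e
        · exact hk' q hq
        · rw [min_comm, dist_comm]
          exact ⟨(hk' p hp).1.symm, (hk' p hp).2⟩
        · exact h2 p hp q hq e
    choose q hq hq' using h3
    have hi : Function.Injective fun k => (q k).1 := fun k l e => by
      have e1 : q k = q l := by_contra fun n => (h2 _ (hq k) _ (hq l) n).1 e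
      have e2 := dist_triangle_right (c k) (c l) (q k).2
      have e3 := hq' l
      rw [← e1] at e3
      rw [dist_add_left, Complex.dist_eq, ← Complex.ofReal_sub, Complex.norm_real, ← sub_mul,
        Real.norm_eq_abs, abs_mul, abs_of_pos ht] at e2
      have e4 : |((k : ℕ) : ℝ) - (l : ℕ)| < 1 :=
        lt_of_mul_lt_mul_right (by linarith [hq' k]) ht.le
      have e5 : |((k : ℕ) : ℤ) - (l : ℕ)| < 1 := by exact_mod_cast e4
      exact Fin.ext (by rw [abs_lt] at e5; omega)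
    have h4 := hN i (Finset.univ.image fun k => (q k).1) fun j hj => by
      obtain ⟨k, -, rfl⟩ := Finset.mem_image.1 hj
      have e1 := dist_triangle4 (w₀ i) (c k) (q k).2 (w₀ (q k).1)
      rw [dist_comm (w₀ i) (c k)] at e1
      nlinarith [hcd k, hq' k, h1 _ (hq k), hr (q k).1]
    rw [Finset.card_image_of_injective _ hi, Finset.card_univ, Fintype.card_fin] at h4
    omega
  choose w hw using key
  exact ⟨w, fun i => h1 _ (hw i),
    fun i j e => (h2 _ (hw i) _ (hw j) fun n => e (congrArg Prod.fst n)).2⟩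

theorem wqs_inv (hf : KP2.WQS (C.restrict f)) (hi : InjOn f C) (T : ℝ) : ∃ M : ℝ, 1 ≤ M ∧
    ∀ x ∈ C, ∀ y ∈ C, ∀ z ∈ C, dist (f x) (f y) ≤ T * dist (f x) (f z) → dist x y ≤ M * dist x z := by
  have hT := abs_nonneg T
  obtain ⟨ε, hε, h⟩ := hf.2 (1 / (2 * (|T| + 1))) (by positivity)
  refine ⟨max 1 ε⁻¹, le_max_left _ _, fun x hx y hy z hz e => not_lt.1 fun k => ?_⟩
  have h0 := dist_nonneg (x := x) (y := z)
  have h1 : dist x z ≤ ε * dist x y :=
    (inv_mul_le_iff₀ hε).1 ((mul_le_mul_of_nonneg_right (le_max_right _ _) h0).trans k.le)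
  have h2 : dist (f x) (f z) ≤ 1 / (2 * (|T| + 1)) * dist (f x) (f y) :=
    h ⟨x, hx⟩ ⟨z, hz⟩ ⟨y, hy⟩ h1
  rw [one_div, le_inv_mul_iff₀ (by positivity)] at h2
  have h3 := dist_nonneg (x := f x) (y := f z)
  have h4 := mul_le_mul_of_nonneg_right (le_abs_self T) h3
  have h5 : x = y := hi hx hy (dist_le_zero.1 (by linarith))
  rw [h5, dist_self] at k
  exact k.not_ge (mul_nonneg (zero_le_one.trans (le_max_left _ _)) dist_nonneg)

theorem nb_count (hD : Dob Z) (hf : KP2.WQS (C.restrict f)) (hi : InjOn f C) {p q : Z → Z} {κ : ℝ}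
    (hκ : 1 ≤ κ)
    (hp : ∀ y ∈ Y, p y ∈ C ∧ q y ∈ C ∧ p y ≠ q y ∧ dist y (p y) ≤ κ * dist (p y) (q y))
    (hs : ∀ y ∈ Y, ∀ y' ∈ Y, y ≠ y' → dist (p y) (q y) ≤ κ * dist y y') (T : ℝ) :
    ∃ N : ℕ, ∀ y ∈ Y, ∀ P : Finset Z, (∀ y' ∈ P, y' ∈ Y ∧
      dist (f (p y)) (f (q y)) ≤ T * dist (f (p y')) (f (q y')) ∧
      dist (f (p y')) (f (q y')) ≤ T * dist (f (p y)) (f (q y)) ∧
      dist (f (p y)) (f (p y')) ≤ T * dist (f (p y)) (f (q y))) → P.card ≤ N := by
  obtain ⟨M, hM, h⟩ := wqs_inv hf hi (T * T + 2 * T)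
  obtain ⟨N, hN⟩ := hD ((2 * M * κ + M) * (2 * M * κ))
  refine ⟨N, fun y hy P hP => ?_⟩
  obtain ⟨p1, q1, n1, -⟩ := hp y hy
  have hσ := dist_pos.2 n1
  have ha := dist_pos.2 fun e => n1 (hi p1 q1 e)
  have hK : 0 < 2 * M * κ := by positivity
  have key : ∀ y' ∈ P, dist (p y) (q y) ≤ 2 * M * dist (p y') (q y') ∧
      dist y' (p y) ≤ (2 * M * κ + M) * dist (p y) (q y) := fun y' hy' => by
    obtain ⟨k0, k1, k2, k3⟩ := hP y' hy'
    obtain ⟨p2, q2, -, k4⟩ := hp y' k0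
    have ha' := dist_nonneg (x := f (p y')) (y := f (q y'))
    have hT : 0 ≤ T := not_lt.1 fun e => by nlinarith
    have e1 := mul_le_mul_of_nonneg_left k1 hT
    have e2 := mul_nonneg hT ha.le
    have e3 := mul_nonneg hT e2
    have e4 := mul_nonneg hT ha'
    have d1 := h _ p1 _ p2 _ q1 (by linarith)
    have d2 := h _ p1 _ q2 _ q1 (by linarith [dist_triangle (f (p y)) (f (p y')) (f (q y'))])
    have d3 := h _ p2 _ p1 _ q2 (by rw [dist_comm]; linarith)
    have d4 := h _ p2 _ q1 _ q2 (by linarith [dist_triangle_left (f (p y')) (f (q y)) (f (p y))])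
    have d5 := mul_le_mul_of_nonneg_left (show dist (p y') (q y') ≤ 2 * M * dist (p y) (q y) by
      linarith [dist_triangle_left (p y') (q y') (p y)]) (zero_le_one.trans hκ)
    exact ⟨by linarith [dist_triangle_left (p y) (q y) (p y')],
      by linarith [dist_triangle_right y' (p y) (p y')]⟩
  refine hN (dist (p y) (q y) / (2 * M * κ)) (div_pos hσ hK) (p y) P (fun a a1 b b1 e => ?_)
    fun a a1 => ?_
  · rw [div_le_iff₀ hK]
    have := mul_le_mul_of_nonneg_left (hs a (hP a a1).1 b (hP b b1).1 e)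
      (show 0 ≤ 2 * M by linarith)
    linarith [(key a a1).1]
  · rw [mul_assoc, mul_div_cancel₀ _ hK.ne']
    exact (key a a1).2

end KAC
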