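import Pool.Agent.Lib.MP_e1e491_gt.Ac.Ex1

/-! The data for the extension. -/

namespace KAC

open Set KKC
open scoped Pointwise Classical

variable {Z : Type} [MetricSpace Z] {C X Y : Set Z} {f : Z → ℂ}

theorem ex2_feet [CompactSpace Z] (hc : IsPreconnected C) (hn : C.Nontrivial) {L : ℝ}
    (hiso : ∀ y ∈ X \ C, ∃ p ∈ C, ∀ x ∈ X, x ≠ y → dist y p ≤ L * dist y x) :
    ∃ κ : ℝ, 1 ≤ κ ∧ ∀ y ∈ X \ C, ∃ p q : Z, p ∈ C ∧ q ∈ C ∧ p ≠ q ∧ dist y p ≤ κ * dist p q ∧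
      ∀ x ∈ X, y ≠ x → dist p q ≤ κ * dist y x := by
  obtain ⟨c₁, h₁, c₂, h₂, h12⟩ := hn
  have hD := dist_pos.2 h12
  obtain ⟨B, hB⟩ := Metric.isBounded_iff.1 (isCompact_univ (X := Z)).isBounded
  refine ⟨max 1 (max L (2 * B / dist c₁ c₂)), le_max_left _ _, fun y hy => ?_⟩
  have k1 : 1 ≤ max 1 (max L (2 * B / dist c₁ c₂)) := le_max_left _ _
  have k2 : L ≤ max 1 (max L (2 * B / dist c₁ c₂)) := (le_max_left _ _).trans (le_max_right _ _)
  have k3 : 2 * B / dist c₁ c₂ ≤ max 1 (max L (2 * B / dist c₁ c₂)) :=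
    (le_max_right _ _).trans (le_max_right _ _)
  generalize max 1 (max L (2 * B / dist c₁ c₂)) = κ at k1 k2 k3
  obtain ⟨p, hp, hl⟩ := hiso y hy
  have hρ : 0 < dist y p := dist_pos.2 fun e => hy.2 (e ▸ hp)
  obtain ⟨e, he, hpe⟩ : ∃ e ∈ C, dist c₁ c₂ / 2 ≤ dist p e := by
    have t := dist_triangle_left c₁ c₂ p
    rcases le_total (dist p c₁) (dist p c₂) with k | k
    · exact ⟨c₂, h₂, by linarith⟩
    · exact ⟨c₁, h₁, by linarith⟩
  have hm : 0 < min (dist y p) (dist c₁ c₂ / 2) := by positivity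
  obtain ⟨q, hq, e⟩ := hc.intermediate_value hp he (f := fun x => dist p x)
    (continuous_const.dist continuous_id).continuousOn
    (show min (dist y p) (dist c₁ c₂ / 2) ∈ Icc _ _ from
      ⟨by simpa using hm.le, (min_le_right _ _).trans hpe⟩)
  replace e : dist p q = min (dist y p) (dist c₁ c₂ / 2) := e
  refine ⟨p, q, hp, hq, dist_pos.1 (e ▸ hm), ?_, fun x hx hyx => ?_⟩
  · rw [e]
    rcases le_total (dist y p) (dist c₁ c₂ / 2) with k | k
    · rw [min_eq_left k]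
      exact le_mul_of_one_le_left hρ.le k1
    · rw [min_eq_right k]
      calc dist y p ≤ B := hB (mem_univ _) (mem_univ _)
        _ = 2 * B / dist c₁ c₂ * (dist c₁ c₂ / 2) := by field_simp
        _ ≤ _ := by gcongr
  · exact (e.le.trans (min_le_left _ _)).trans ((hl x hx hyx.symm).trans
      (mul_le_mul_of_nonneg_right k2 dist_nonneg))

theorem exists_ExD [CompactSpace Z] (hD : Dob Z) (hC : IsClosed C) (hc : IsPreconnected C)
    (hn : C.Nontrivial) (hf : KP2.WQS (C.restrict f)) (hi : InjOn f C) {c L : ℝ} (hc0 : 0 < c)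
    (hp : Por C f c) (hs : C ⊆ X)
    (hiso : ∀ y ∈ X \ C, ∃ p ∈ C, ∀ x ∈ X, x ≠ y → dist y p ≤ L * dist y x) :
    ∃ κ p q w, ExD C X f κ p q w := by
  obtain ⟨κ₀, hκ₀, h1⟩ := ex2_feet hc hn hiso
  have : Nonempty Z := ⟨hn.nonempty.some⟩
  choose! p q hpC hqC hpq hup hlow using h1
  obtain ⟨d, hd0, hd1, hdc⟩ : ∃ d : ℝ, 0 < d ∧ d ≤ 1 ∧ d ≤ c :=
    ⟨min c 1, by positivity, min_le_right _ _, min_le_left _ _⟩
  obtain ⟨N, hN⟩ := nb_count (Y := X \ C) (p := p) (q := q) hD hf hi hκ₀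
    (fun y hy => ⟨hpC y hy, hqC y hy, hpq y hy, hup y hy⟩)
    (fun y hy y' hy' e => hlow y hy y' hy'.1 e) (6 / d)
  obtain ⟨r, hr⟩ : ∃ r : Z → ℝ, ∀ y, dist (f (p y)) (f (q y)) = r y := ⟨_, fun _ => rfl⟩
  have hr0 : ∀ y ∈ X \ C, 0 < r y := fun y hy =>
    hr y ▸ dist_pos.2 fun e => hpq y hy (hi (hpC y hy) (hqC y hy) e)
  have h2 : ∀ y ∈ X \ C, ∃ w, dist w (f (p y)) ≤ r y ∧ ∀ x ∈ C, d * r y ≤ dist w (f x) := by
    intro y hy
    obtain ⟨w, k1, k2⟩ := hp _ (hpC y hy) _ (hqC y hy)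
    rw [hr] at k1 k2
    exact ⟨w, k1, fun x hx => (mul_le_mul_of_nonneg_right hdc (hr0 y hy).le).trans (k2 x hx)⟩
  choose! w₀ hw1 hw2 using h2
  simp only [hr] at hN
  have cmp : ∀ y ∈ X \ C, ∀ z ∈ X \ C, dist (w₀ y) (w₀ z) ≤ 2 * (d * r y / 4 + d * r z / 4) →
      d * r y ≤ 3 * r z := by
    intro y hy z hz h
    have t := dist_triangle (w₀ y) (w₀ z) (f (p z))
    have := mul_le_of_le_one_left (hr0 z hz).le hd1
    linarith [hw2 y hy _ (hpC z hz), hw1 z hz]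
  obtain ⟨w₁, hw3, hw4⟩ := greedy (I := ↥(X \ C)) N (fun i => w₀ i) (fun i => d * r i / 4)
    (fun i => by have := hr0 i i.2; positivity) (by
      intro i P hP
      rw [← Finset.card_map (Function.Embedding.subtype _)]
      refine hN i i.2 _ fun y hy => ?_
      obtain ⟨j, hj, rfl⟩ := Finset.mem_map.1 hy
      have k0 := hP j hj
      have k1 := cmp i i.2 j j.2 k0
      have k2 := cmp j j.2 i i.2 (by rwa [dist_comm, add_comm])
      have ri := hr0 i i.2
      have rj := hr0 j j.2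
      have di := mul_le_of_le_one_left ri.le hd1
      have dj := mul_le_of_le_one_left rj.le hd1
      refine ⟨j.2, ?_, ?_, ?_⟩ <;> simp only [Function.Embedding.coe_subtype] <;>
        rw [div_mul_eq_mul_div, le_div_iff₀ hd0]
      · linarith
      · linarith
      · have t := dist_triangle4 (f (p i)) (w₀ i) (w₀ j) (f (p j))
        rw [dist_comm (f (p i)) (w₀ i)] at t
        have t2 : dist (f (p i)) (f (p j)) ≤ 3 / 2 * (r i + r j) := by
          linarith [hw1 i i.2, hw1 j j.2]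
        have t3 := mul_le_mul_of_nonneg_right t2 hd0.le
        linarith)
  obtain ⟨w, hwC, hwY⟩ : ∃ w : Z → ℂ, (∀ a ∈ C, w a = f a) ∧ ∀ i : ↥(X \ C), w i = w₁ i :=
    ⟨fun a => if h : a ∈ X \ C then w₁ ⟨a, h⟩ else f a, fun a ha => dif_neg fun h => h.2 ha,
      fun i => dif_pos i.2⟩
  have far : ∀ y ∈ X \ C, ∀ x ∈ C, 3 / 4 * (d * r y) ≤ dist (w y) (f x) := by
    intro y hy x hx
    have t := dist_triangle_left (w₀ y) (f x) (w y)
    have k := hw3 ⟨y, hy⟩
    rw [← hwY] at k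
    linarith [hw2 y hy x hx]
  have near : ∀ y ∈ X \ C, dist (w y) (f (p y)) ≤ 2 * r y := by
    intro y hy
    have t := dist_triangle (w y) (w₀ y) (f (p y))
    have k := hw3 ⟨y, hy⟩
    rw [← hwY] at k
    have := mul_le_of_le_one_left (hr0 y hy).le hd1
    linarith [hw1 y hy, hr0 y hy]
  have hN0 : (0 : ℝ) ≤ N := Nat.cast_nonneg N
  have hd2 : d ^ 2 ≤ d := by nlinarith
  have sep : ∀ a ∈ X \ C, ∀ b ∈ X, a ≠ b → d ^ 2 * r a ≤ 32 * (2 * N + 2) * dist (w a) (w b) := by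
    intro a ha b hb hab
    have ra := hr0 a ha
    have k0 : d ^ 2 * r a ≤ d * r a := mul_le_mul_of_nonneg_right hd2 ra.le
    have k1 : 0 ≤ N * dist (w a) (w b) := by positivity
    have k2 : 0 ≤ dist (w a) (w b) := dist_nonneg
    by_cases hbC : b ∈ C
    · have := far a ha b hbC
      rw [← hwC b hbC] at this
      linarith
    have hb' : b ∈ X \ C := ⟨hb, hbC⟩
    rcases le_total (d * r a) (8 * r b) with k | k
    · have t := hw4 ⟨a, ha⟩ ⟨b, hb'⟩ fun e => hab (congrArg Subtype.val e)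
      rw [← hwY, ← hwY, div_le_iff₀ (by positivity)] at t
      have t2 : d ^ 2 * r a / 32 ≤ min (d * r a / 4) (d * r b / 4) := by
        have := mul_le_mul_of_nonneg_left k hd0.le
        have : 0 < d * r a := by positivity
        exact le_min (by linarith) (by linarith)
      linarith [t2.trans t]
    · have t := dist_triangle (w a) (w b) (f (p b))
      linarith [far a ha _ (hpC b hb'), near b hb']
  obtain ⟨κ, k1, k2, k3⟩ : ∃ κ : ℝ, κ₀ ≤ κ ∧ 2 ≤ κ ∧ 32 * (2 * N + 2) / d ^ 2 ≤ κ :=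
    ⟨max κ₀ (max 2 (32 * (2 * N + 2) / d ^ 2)), le_max_left _ _,
      (le_max_left _ _).trans (le_max_right _ _), (le_max_right _ _).trans (le_max_right _ _)⟩
  have hκ : 0 ≤ κ := by linarith
  refine ⟨κ, fun a => if a ∈ C then a else p a, fun a => if a ∈ C then a else q a, w,
    by linarith, fun a ha => ?_, fun a ha => ?_, fun a ha b hb hab => ?_, fun a ha => ?_,
    fun a ha b hb hab => ?_⟩ <;> by_cases h : a ∈ C <;> simp only [h, if_true, if_false, dist_self]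
  · exact ⟨trivial, trivial⟩
  · exact ⟨hpC a ⟨ha, h⟩, hqC a ⟨ha, h⟩⟩
  · exact (mul_zero κ).ge
  · exact (hup a ⟨ha, h⟩).trans (mul_le_mul_of_nonneg_right k1 dist_nonneg)
  · positivity
  · exact (hlow a ⟨ha, h⟩ b hb hab).trans (mul_le_mul_of_nonneg_right k1 dist_nonneg)
  · rw [hwC a h, dist_self, mul_zero]
  · rw [hr]
    exact (near a ⟨ha, h⟩).trans (mul_le_mul_of_nonneg_right k2 (hr0 a ⟨ha, h⟩).le)
  · positivity
  · rw [hr]
    refine le_trans ?_ (mul_le_mul_of_nonneg_right k3 dist_nonneg)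
    rw [div_mul_eq_mul_div, le_div_iff₀ (by positivity), mul_comm]
    exact sep a ⟨ha, h⟩ b hb hab

end KAC
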