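import Pool.Agent.Lib.MP_e1e491_gt.Ac.Defs

/-! The extension is quasisymmetric. -/

namespace KAC

open Set KKC
open scoped Pointwise Classical

variable {Z : Type} [MetricSpace Z] {C X Y : Set Z} {f : Z → ℂ}

theorem ex3_up {W : Type} [MetricSpace W] {a b p p' q q' : W} {κ ρ : ℝ} (hκ : 1 ≤ κ)
    (h1 : dist a p ≤ κ * dist p q) (h2 : dist b p' ≤ κ * dist p' q') (h3 : dist p p' ≤ ρ)
    (h4 : dist p q ≤ ρ) (h5 : dist p q' ≤ ρ) : dist a b ≤ 4 * κ * ρ := by
  have h0 : 0 ≤ ρ := dist_nonneg.trans h3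
  have a1 := dist_triangle4 a p p' b
  have a2 := dist_triangle_left p' q' p
  have a3 := mul_le_mul_of_nonneg_left h4 (by linarith : 0 ≤ κ)
  have a4 := mul_le_mul_of_nonneg_left (a2.trans (add_le_add h3 h5)) (by linarith : 0 ≤ κ)
  have a5 := mul_le_mul_of_nonneg_right hκ h0
  rw [dist_comm p' b] at a1
  linarith

theorem ex3_low {W : Type} [MetricSpace W] {a b p p' q q' : W} {κ : ℝ} (hκ : 1 ≤ κ)
    (h1 : dist a p ≤ κ * dist p q) (h2 : dist b p' ≤ κ * dist p' q')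
    (h3 : dist p q ≤ κ * dist a b) (h4 : dist p' q' ≤ κ * dist b a) :
    dist p p' ≤ 4 * κ ^ 2 * dist a b ∧ dist p q ≤ 4 * κ ^ 2 * dist a b ∧
      dist p q' ≤ 4 * κ ^ 2 * dist a b := by
  rw [dist_comm b a] at h4
  have h0 : 0 ≤ dist a b := dist_nonneg
  have a1 := dist_triangle4 p a b p'
  have a2 := dist_triangle p p' q'
  have a3 := mul_le_mul_of_nonneg_left h3 (by linarith : 0 ≤ κ)
  have a4 := mul_le_mul_of_nonneg_left h4 (by linarith : 0 ≤ κ)
  have a5 := mul_le_mul_of_nonneg_right hκ h0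
  have a6 := mul_le_mul_of_nonneg_left a5 (by linarith : 0 ≤ κ)
  rw [dist_comm p a] at a1
  refine ⟨?_, ?_, ?_⟩ <;> linarith

theorem ex3_key {κ : ℝ} {p q : Z → Z} {w : Z → ℂ} (h : ExD C X f κ p q w)
    (hf : KP2.WQS (C.restrict f)) : ∃ K : ℝ, 0 < K ∧ ∀ a ∈ X, ∀ b ∈ X, a ≠ b → ∃ s ∈ C,
      dist (p a) s ≤ K * dist a b ∧ dist a b ≤ K * dist (p a) s ∧
      dist (f (p a)) (f s) ≤ K * dist (w a) (w b) ∧
      dist (w a) (w b) ≤ K * dist (f (p a)) (f s) := by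
  obtain ⟨H, hH⟩ := hf.1 1
  have hκ := h.one_le
  have hH0 := abs_nonneg H
  have k1 : κ ≤ κ ^ 2 := by nlinarith
  have k2 : 0 ≤ κ * |H| := by positivity
  refine ⟨4 * κ ^ 2 + 4 * κ * |H|, by positivity, fun a ha b hb hab => ?_⟩
  obtain ⟨pa, qa⟩ := h.mem a ha
  obtain ⟨pb, qb⟩ := h.mem b hb
  have l1 := ex3_low hκ (h.up a ha) (h.up b hb) (h.low a ha b hb hab) (h.low b hb a ha hab.symm)
  have l2 := ex3_low hκ (h.up' a ha) (h.up' b hb) (h.low' a ha b hb hab)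
    (h.low' b hb a ha hab.symm)
  obtain ⟨s, hs, s1, s2, s3, s4, s5⟩ : ∃ s ∈ C, dist (p a) (p b) ≤ dist (p a) s ∧
      dist (p a) (q a) ≤ dist (p a) s ∧ dist (p a) (q b) ≤ dist (p a) s ∧
      dist (p a) s ≤ 4 * κ ^ 2 * dist a b ∧
      dist (f (p a)) (f s) ≤ 4 * κ ^ 2 * dist (w a) (w b) := by
    rcases le_total (dist (p a) (p b)) (dist (p a) (q a)) with c1 | c1
    · rcases le_total (dist (p a) (q a)) (dist (p a) (q b)) with c2 | c2
      · exact ⟨q b, qb, c1.trans c2, c2, le_rfl, l1.2.2, l2.2.2⟩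
      · exact ⟨q a, qa, c1, le_rfl, c2, l1.2.1, l2.2.1⟩
    · rcases le_total (dist (p a) (p b)) (dist (p a) (q b)) with c2 | c2
      · exact ⟨q b, qb, c2, c1.trans c2, le_rfl, l1.2.2, l2.2.2⟩
      · exact ⟨p b, pb, le_rfl, c1, c2, l1.1, l2.1⟩
  have t : ∀ y ∈ C, dist (p a) y ≤ dist (p a) s →
      dist (f (p a)) (f y) ≤ |H| * dist (f (p a)) (f s) := fun y hy e =>
    (hH ⟨p a, pa⟩ ⟨y, hy⟩ ⟨s, hs⟩ (by rw [one_mul]; exact e)).trans
      (mul_le_mul_of_nonneg_right (le_abs_self H) dist_nonneg)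
  have u1 := ex3_up hκ (h.up a ha) (h.up b hb) s1 s2 s3
  have u2 := ex3_up hκ (h.up' a ha) (h.up' b hb) (t _ pb s1) (t _ qa s2) (t _ qb s3)
  refine ⟨s, hs, s4.trans ?_, u1.trans ?_, s5.trans ?_, u2.trans ?_⟩
  · exact mul_le_mul_of_nonneg_right (by linarith) dist_nonneg
  · exact mul_le_mul_of_nonneg_right (by linarith) dist_nonneg
  · exact mul_le_mul_of_nonneg_right (by linarith) dist_nonneg
  · rw [← mul_assoc]
    exact mul_le_mul_of_nonneg_right (by linarith) dist_nonneg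

theorem ExD.wqs {κ : ℝ} {p q : Z → Z} {w : Z → ℂ} (h : ExD C X f κ p q w)
    (hf : KP2.WQS (C.restrict f)) (hi : InjOn f C) : KP2.WQS (X.restrict w) ∧ InjOn w X := by
  obtain ⟨K, hK, key⟩ := ex3_key h hf
  have tr : ∀ T H : ℝ, 0 ≤ T → 0 ≤ H → (∀ x y z : C, dist x y ≤ K * T * K * dist x z →
      dist (f x) (f y) ≤ H * dist (f x) (f z)) → ∀ x y z : X, dist x y ≤ T * dist x z →
      dist (w x) (w y) ≤ K * H * K * dist (w x) (w z) := by
    intro T H hT hH hh x y z e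
    by_cases hxy : x = y
    · rw [← hxy, dist_self]
      positivity
    have hxz : x ≠ z := by
      rintro rfl
      rw [dist_self, mul_zero] at e
      exact hxy (dist_le_zero.mp e)
    obtain ⟨s, hs, s1, -, -, s4⟩ := key x x.2 y y.2 (Subtype.coe_ne_coe.mpr hxy)
    obtain ⟨s', hs', -, t2, t3, -⟩ := key x x.2 z z.2 (Subtype.coe_ne_coe.mpr hxz)
    have e' : dist (x : Z) y ≤ T * dist (x : Z) z := e
    have a1 : dist (p x) s ≤ K * T * K * dist (p x) s' := by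
      calc _ ≤ K * (T * (K * dist (p x) s')) := s1.trans (by gcongr; exact e'.trans (by gcongr))
        _ = _ := by ring
    have a2 : dist (f (p x)) (f s) ≤ H * dist (f (p x)) (f s') :=
      hh ⟨p x, (h.mem x x.2).1⟩ ⟨s, hs⟩ ⟨s', hs'⟩ a1
    calc _ ≤ K * (H * (K * dist (w x) (w z))) := s4.trans (by gcongr; exact a2.trans (by gcongr))
      _ = _ := by ring
  refine ⟨⟨fun T => ?_, fun δ hδ => ?_⟩, fun a ha b hb e => ?_⟩
  · obtain ⟨H, hH⟩ := hf.1 (K * |T| * K)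
    exact ⟨K * |H| * K, fun x y z e => tr |T| |H| (abs_nonneg _) (abs_nonneg _)
      (fun x y z e => (hH x y z e).trans (mul_le_mul_of_nonneg_right (le_abs_self H) dist_nonneg))
      x y z (e.trans (mul_le_mul_of_nonneg_right (le_abs_self T) dist_nonneg))⟩
  · obtain ⟨ε, hε, hH⟩ := hf.2 (δ / (K * K)) (by positivity)
    refine ⟨ε / (K * K), by positivity, fun x y z e => ?_⟩
    have e1 : K * (ε / (K * K)) * K = ε := by field_simp
    have e2 : K * (δ / (K * K)) * K = δ := by field_simp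
    have := tr (ε / (K * K)) (δ / (K * K)) (by positivity) (by positivity)
      (by rw [e1]; exact hH) x y z e
    rw [e2] at this
    exact this
  · by_contra hne
    obtain ⟨s, hs, -, s2, s3, -⟩ := key a ha b hb hne
    rw [e, dist_self, mul_zero, dist_le_zero] at s3
    rw [hi (h.mem a ha).1 hs s3, dist_self, mul_zero, dist_le_zero] at s2
    exact hne s2

theorem ex3_fin {S W : Type} [MetricSpace S] [MetricSpace W] [Finite S] {g : S → W}
    (hg : Function.Injective g) : KP2.WQS g := by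
  refine ⟨fun T => ?_, fun δ hδ => ?_⟩
  · obtain ⟨H, hH⟩ := Finite.exists_le fun u : S × S × S =>
      dist (g u.1) (g u.2.1) / dist (g u.1) (g u.2.2)
    refine ⟨H, fun x y z e => ?_⟩
    by_cases hxz : x = z
    · subst hxz
      rw [dist_self, mul_zero, dist_le_zero] at e
      rw [← e, dist_self, mul_zero]
    · exact (div_le_iff₀ (dist_pos.mpr (hg.ne hxz))).mp (hH (x, y, z))
  · obtain ⟨M, hM⟩ := Finite.exists_le fun u : S × S × S => dist u.1 u.2.2 / dist u.1 u.2.1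
    have h0 : 0 < |M| + 1 := by positivity
    refine ⟨(|M| + 1)⁻¹, inv_pos.mpr h0, fun x y z e => ?_⟩
    by_cases hxy : x = y
    · rw [← hxy, dist_self]
      positivity
    · have d := dist_pos.mpr hxy
      have a1 : dist x z ≤ M * dist x y := (div_le_iff₀ d).mp (hM (x, y, z))
      have a2 := mul_le_mul_of_nonneg_right (le_abs_self M) d.le
      rw [le_inv_mul_iff₀ h0] at e
      linarith

theorem wqs_finite (hX : X.Finite) : ∃ w : Z → ℂ, KP2.WQS (X.restrict w) ∧ InjOn w X := by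
  obtain ⟨g, hg⟩ := Set.countable_iff_exists_injOn.mp hX.countable
  have hi : InjOn (fun x => (g x : ℂ)) X := fun a ha b hb e => hg ha hb (Nat.cast_injective e)
  have := hX.to_subtype
  exact ⟨_, ex3_fin hi.injective, hi⟩

theorem gauge_of_wqs (hf : KP2.WQS (X.restrict f)) : ∃ η, Gauge η ∧ ∀ t, ∀ x ∈ X, ∀ y ∈ X, ∀ z ∈ X,
    dist x y ≤ t * dist x z → dist (f x) (f y) ≤ η t * dist (f x) (f z) := by
  set A : ℝ → Set ℝ := fun t => {M | 0 ≤ M ∧ ∀ x y z : X, dist x y ≤ t * dist x z →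
    dist (f x) (f y) ≤ M * dist (f x) (f z)} with hA
  have hne : ∀ t, (A t).Nonempty := fun t => by
    obtain ⟨H, hH⟩ := hf.1 t
    exact ⟨|H|, abs_nonneg H, fun x y z e =>
      (hH x y z e).trans (mul_le_mul_of_nonneg_right (le_abs_self H) dist_nonneg)⟩
  have hb : ∀ t, BddBelow (A t) := fun t => ⟨0, fun M hM => hM.1⟩
  refine ⟨fun t => sInf (A t), ⟨fun t t' e => csInf_le_csInf (hb t) (hne t') fun M hM => ⟨hM.1,
    fun x y z e' => hM.2 x y z (e'.trans (mul_le_mul_of_nonneg_right e dist_nonneg))⟩,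
    fun t => le_csInf (hne t) fun M hM => hM.1, fun δ hδ => ?_⟩, fun t x hx y hy z hz e => ?_⟩
  · obtain ⟨ε, hε, hH⟩ := hf.2 δ hδ
    exact ⟨ε, hε, csInf_le (hb ε) ⟨hδ.le, hH⟩⟩
  · rcases (dist_nonneg : 0 ≤ dist (f x) (f z)).eq_or_lt with d | d
    · obtain ⟨M, hM⟩ := hne t
      have := hM.2 ⟨x, hx⟩ ⟨y, hy⟩ ⟨z, hz⟩ e
      simp only [← d, mul_zero] at this ⊢
      exact this
    · exact (div_le_iff₀ d).mp (le_csInf (hne t) fun M hM =>
        (div_le_iff₀ d).mpr (hM.2 ⟨x, hx⟩ ⟨y, hy⟩ ⟨z, hz⟩ e))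

end KAC
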