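import Pool.Agent.Lib.MP_e1e491_gt.Ac.Lm

/-! The chain of nodes of a point. -/

namespace KAC

open Set KKC
open scoped Pointwise Classical

variable {Z : Type} [MetricSpace Z] [CompactSpace Z] {𝒰 : Set (Set Z)} {L : ℝ} (h : Lam 𝒰 L)
  {x y : Z} {j k : ℕ}
include h

theorem gl1_succ (hk : (ch 𝒰 x (k + 1)).Nonempty) :
    Child 𝒰 (ch 𝒰 x k) (ch 𝒰 x (k + 1)) ∧ x ∈ ch 𝒰 x (k + 1) := by
  obtain ⟨z, U, ⟨hU, hUV, hx⟩, -⟩ := hk
  obtain ⟨W, hW, hUW⟩ := h.exists_child hU hUV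
  have e : ch 𝒰 x (k + 1) = W := by
    refine Subset.antisymm (sUnion_subset fun U' hU' => ?_)
      (subset_sUnion_of_mem (t := W) ⟨hW.1, hW.2.1, hUW hx⟩)
    obtain ⟨W', hW', hUW'⟩ := h.exists_child hU'.1 hU'.2.1
    exact h.child_eq hW' hW (hUW' hU'.2.2) (hUW hx) ▸ hUW'
  rw [e]
  exact ⟨hW, hUW hx⟩

omit [MetricSpace Z] [CompactSpace Z] h in
theorem gl1_sub : ch 𝒰 x (k + 1) ⊆ ch 𝒰 x k := sUnion_subset fun _ hU => hU.2.1.subset

theorem Lam.ch_mem (hk : (ch 𝒰 x k).Nonempty) : ch 𝒰 x k ∈ insert univ 𝒰 ∧ x ∈ ch 𝒰 x k := by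
  cases k with
  | zero => exact ⟨mem_insert _ _, mem_univ _⟩
  | succ k => exact ⟨mem_insert_of_mem _ (gl1_succ h hk).1.1, (gl1_succ h hk).2⟩

theorem Lam.ch_child (hk : (ch 𝒰 x (k + 1)).Nonempty) : Child 𝒰 (ch 𝒰 x k) (ch 𝒰 x (k + 1)) := by
  exact (gl1_succ h hk).1

theorem Lam.ch_anti (hj : j ≤ k) : ch 𝒰 x k ⊆ ch 𝒰 x j := by
  have _ := h
  exact antitone_nat_of_succ_le (f := ch 𝒰 x) (fun _ => gl1_sub) hj

theorem Lam.ch_eq (hy : y ∈ ch 𝒰 x k) (hj : j ≤ k) : ch 𝒰 y j = ch 𝒰 x j := by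
  induction j with
  | zero => rfl
  | succ j ih =>
    have e := ih (by omega)
    have hy' := h.ch_anti hj hy
    have h1 := h.ch_child ⟨y, hy'⟩
    have h2 : y ∈ ch 𝒰 y (j + 1) := ⟨_, ⟨h1.1, e ▸ h1.2.1, hy'⟩, hy'⟩
    exact h.child_eq (e ▸ h.ch_child ⟨y, h2⟩) h1 h2 hy'

theorem gl1_ne (hk : (ch 𝒰 x k).Nonempty) (hj : j < k) : ch 𝒰 x k ⊂ ch 𝒰 x j :=
  (h.ch_anti (Nat.succ_le_of_lt hj)).trans_ssubset
    (h.ch_child (hk.mono (h.ch_anti (Nat.succ_le_of_lt hj)))).2.1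

theorem Lam.exists_split (hxy : x ≠ y) : ∃ k, Apart 𝒰 (ch 𝒰 x k) x y := by
  have h1 : ∃ k, y ∉ ch 𝒰 x (k + 1) := by
    by_contra hno
    have hno' : ∀ k, y ∈ ch 𝒰 x (k + 1) := fun k => not_not.1 fun e => hno ⟨k, e⟩
    refine infinite_of_injective_forall_mem (f := fun k => ch 𝒰 x (k + 1))
      (StrictAnti.injective fun a b hab => gl1_ne h ⟨y, hno' b⟩ (Nat.succ_lt_succ hab))
      (fun k => ?_) (h.fin _ (dist_pos.2 hxy))
    exact ⟨(h.ch_child ⟨y, hno' k⟩).1, x, (h.ch_mem ⟨y, hno' k⟩).2, y, hno' k, le_rfl⟩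
  have h2 : y ∈ ch 𝒰 x (Nat.find h1) := by
    rcases e : Nat.find h1 with _ | k
    · exact mem_univ _
    · exact not_not.1 (Nat.find_min h1 (by omega))
  exact ⟨_, (h.ch_mem ⟨y, h2⟩).2, h2, hxy, fun U hU hUV hh =>
    Nat.find_spec h1 ⟨U, ⟨hU, hUV, hh.1⟩, hh.2⟩⟩

theorem Lam.not_mem_ch (hxy : Apart 𝒰 (ch 𝒰 x k) x y) : y ∉ ch 𝒰 x (k + 1) := by
  have _ := h
  rintro ⟨U, ⟨hU, hUV, hx⟩, hy⟩
  exact hxy.2.2.2 U hU hUV ⟨hx, hy⟩

theorem Lam.lev_count [Nontrivial Z] (hD : Dob Z) (T : ℝ) : ∃ N : ℕ, ∀ x j k, j ≤ k →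
    (ch 𝒰 x k).Nonempty → Metric.diam (ch 𝒰 x j) ≤ T * Metric.diam (ch 𝒰 x k) → k ≤ j + N := by
  obtain ⟨N, hN⟩ := hD (2 * L * T)
  refine ⟨N, fun x j k hjk hk hT => ?_⟩
  have hL : 0 < 2 * L := by linarith [h.one_le]
  have h1 : ∀ i, ∃ p, i < k → p ∈ ch 𝒰 x i ∧ p ∉ ch 𝒰 x (i + 1) := fun i => by
    by_cases hi : i < k
    · obtain ⟨p, hp⟩ := exists_of_ssubset (h.ch_child (hk.mono (h.ch_anti hi))).2.1
      exact ⟨p, fun _ => hp⟩
    · exact ⟨x, fun e => absurd e hi⟩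
  choose p hp using h1
  have hpos := h.diam_pos (h.ch_mem hk).1
  have h2 : ∀ a b, a < b → b < k → Metric.diam (ch 𝒰 x k) / (2 * L) ≤ dist (p b) (p a) :=
    fun a b hab hb => by
      rw [div_le_iff₀' hL]
      exact (Metric.diam_mono (h.ch_anti (by omega)) Metric.isBounded_of_compactSpace).trans
        (h.diam_le (h.ch_child (hk.mono (h.ch_anti (by omega : a + 1 ≤ k)))).1
          (h.ch_anti hab (hp b hb).1) (hp a (hab.trans hb)).2)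
  have h3 : InjOn p (Finset.Ico j k) := fun a ha b hb e => by
    have ha' := (Finset.mem_Ico.1 ha).2
    have hb' := (Finset.mem_Ico.1 hb).2
    rcases lt_trichotomy a b with hab | hab | hab
    · exact absurd (e ▸ h.ch_anti hab (hp b hb').1) (hp a ha').2
    · exact hab
    · exact absurd (e ▸ h.ch_anti hab (hp a ha').1) (hp b hb').2
  have h4 := hN _ (div_pos hpos hL) x ((Finset.Ico j k).image p) (fun u hu v hv huv => by
    obtain ⟨a, ha, rfl⟩ := Finset.mem_image.1 hu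
    obtain ⟨b, hb, rfl⟩ := Finset.mem_image.1 hv
    rcases lt_trichotomy a b with hab | hab | hab
    · rw [dist_comm]
      exact h2 a b hab (Finset.mem_Ico.1 hb).2
    · exact absurd (congrArg p hab) huv
    · exact h2 b a hab (Finset.mem_Ico.1 ha).2) fun u hu => by
    obtain ⟨a, ha, rfl⟩ := Finset.mem_image.1 hu
    obtain ⟨ha1, ha2⟩ := Finset.mem_Ico.1 ha
    rw [mul_comm (2 * L), mul_assoc, mul_div_cancel₀ _ hL.ne']
    exact (Metric.dist_le_diam_of_mem Metric.isBounded_of_compactSpace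
      (h.ch_anti ha1 (hp a ha2).1) (h.ch_anti hjk (h.ch_mem hk).2)).trans hT
  rw [Finset.card_image_of_injOn h3, Nat.card_Ico] at h4
  omega

end KAC
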