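import Pool.Agent.Lib.MP_e1e491_gt.Ac.Lm

/-! Estimates for one node. -/

namespace KAC

open Set KKC
open scoped Pointwise Classical

set_option linter.unusedSectionVars false

namespace GD

variable {Z : Type} [MetricSpace Z] [CompactSpace Z] [Nontrivial Z] (D : GD Z) {V U : Set Z}
  {x y : Z}

theorem iso_nonneg (V : Set Z) (x : Z) : 0 ≤ D.iso V x := by
  refine Real.sInf_nonneg ?_
  rintro d ⟨y, -, rfl⟩
  exact dist_nonneg

theorem iso_le (h : Apart D.𝒰 V x y) : D.iso V x ≤ dist (D.F V x) (D.F V y) := by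
  refine csInf_le ⟨0, ?_⟩ ⟨y, h, rfl⟩
  rintro d ⟨y, -, rfl⟩
  exact dist_nonneg

theorem gl2_two (hV : V ∈ insert univ D.𝒰) (hx : x ∈ V) (hy : y ∈ V) :
    dist (D.F V x) (D.F V y) ≤ 2 := by
  have h1 := D.le_one V hV x hx
  have h2 := D.le_one V hV y hy
  have h3 := dist_le_norm_add_norm (D.F V x) (D.F V y)
  linarith

theorem gl2_le_iso {c : ℝ} (hV : V ∈ insert univ D.𝒰) (hx : x ∈ V)
    (h : ∀ y, Apart D.𝒰 V x y → c ≤ dist (D.F V x) (D.F V y)) : c ≤ D.iso V x := by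
  obtain ⟨y, hy, -⟩ := D.lam.exists_apart hV hx
  refine le_csInf ⟨_, y, hy, rfl⟩ ?_
  rintro d ⟨z, hz, rfl⟩
  exact h z hz

theorem gl2_qs {t : ℝ} {a : Z} (hV : V ∈ insert univ D.𝒰) (h : Apart D.𝒰 V x y) (ha : a ∈ V)
    (ht : dist x a ≤ t * dist x y) :
    dist (D.F V x) (D.F V a) ≤ D.η t * dist (D.F V x) (D.F V y) := by
  by_cases hxa : Apart D.𝒰 V x a
  · exact (D.nq V hV).qs t x a y hxa h ht
  · have e : D.F V x = D.F V a := by
      by_contra hne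
      exact hxa ⟨h.1, ha, fun e => hne (by rw [e]), fun W hW hWV hm =>
        hne ((D.nq V hV).const W hW hWV x hm.1 a hm.2)⟩
    rw [← e, dist_self]
    exact mul_nonneg (D.gauge.2.1 t) dist_nonneg

theorem gl2_diam {T r : ℝ} (hU : Child D.𝒰 V U) (hx : x ∈ U) (h : Apart D.𝒰 V x y)
    (hr : r ≤ T * Metric.diam U) : r ≤ max T 0 * (2 * D.L) * dist x y := by
  have h1 := D.lam.diam_le hU.1 hx ((D.lam.apart_child hU hx).1 h).2
  calc r ≤ T * Metric.diam U := hr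
    _ ≤ max T 0 * Metric.diam U := mul_le_mul_of_nonneg_right (le_max_left _ _) Metric.diam_nonneg
    _ ≤ max T 0 * (2 * D.L * dist x y) := mul_le_mul_of_nonneg_left h1 (le_max_right _ _)
    _ = _ := (mul_assoc _ _ _).symm

theorem gl2_near {ε r : ℝ} (hV : V ∈ insert univ D.𝒰) (hU : Child D.𝒰 V U) (hx : x ∈ U)
    (h : Metric.diam U ≤ ε / (2 * D.L ^ 2) * r) : ∃ y, Apart D.𝒰 V x y ∧ dist x y ≤ ε * r := by
  have hL : 0 < 2 * D.L ^ 2 := by have := D.lam.one_le; positivity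
  obtain ⟨y, hy, h1⟩ := D.lam.near_apart hV hU hx
  refine ⟨y, hy, h1.trans ((mul_le_mul_of_nonneg_left h hL.le).trans_eq ?_)⟩
  rw [← mul_assoc, mul_div_cancel₀ _ hL.ne']

theorem iso_le_two (hV : V ∈ insert univ D.𝒰) (hx : x ∈ V) : D.iso V x ≤ 2 := by
  obtain ⟨y, hy, -⟩ := D.lam.exists_apart hV hx
  exact (D.iso_le hy).trans (D.gl2_two hV hx hy.2.1)

theorem iso_eq (hV : V ∈ insert univ D.𝒰) (hU : Child D.𝒰 V U) (hx : x ∈ U) (hy : y ∈ U) :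
    D.iso V x = D.iso V y := by
  unfold iso
  rw [(D.nq V hV).const U hU.1 hU.2.1 x hx y hy]
  simp only [D.lam.apart_child hU hx, D.lam.apart_child hU hy]

theorem lower (T : ℝ) : ∃ c > 0, ∀ V ∈ insert univ D.𝒰, ∀ x y, Apart D.𝒰 V x y →
    Metric.diam V ≤ T * dist x y → c ≤ dist (D.F V x) (D.F V y) := by
  have h0 := D.gauge.2.1 T
  refine ⟨1 / (4 * (D.η T + 1)), by positivity, fun V hV x y h hT => ?_⟩
  obtain ⟨a, ha, b, hb, hab⟩ := D.big V hV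
  have h1 := D.gl2_qs hV h ha
    ((Metric.dist_le_diam_of_mem Metric.isBounded_of_compactSpace h.1 ha).trans hT)
  have h2 := D.gl2_qs hV h hb
    ((Metric.dist_le_diam_of_mem Metric.isBounded_of_compactSpace h.1 hb).trans hT)
  have h3 := dist_triangle_left (D.F V a) (D.F V b) (D.F V x)
  have h4 : 0 ≤ dist (D.F V x) (D.F V y) := dist_nonneg
  rw [div_le_iff₀ (by positivity)]
  linarith

theorem upper {δ : ℝ} (hδ : 0 < δ) : ∃ ε > 0, ∀ V ∈ insert univ D.𝒰, ∀ x y, Apart D.𝒰 V x y →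
    dist x y ≤ ε * Metric.diam V → dist (D.F V x) (D.F V y) ≤ δ := by
  have hL : 0 < 4 * D.L := by have := D.lam.one_le; positivity
  obtain ⟨ε, hε, h1⟩ := D.gauge.2.2 (δ / 2) (half_pos hδ)
  refine ⟨ε / (4 * D.L), div_pos hε hL, fun V hV x y h hd => ?_⟩
  obtain ⟨z, hz, h2⟩ := D.lam.exists_apart hV h.1
  have h3 : dist x y ≤ ε * dist x z := by
    refine hd.trans ((mul_le_mul_of_nonneg_left h2 (div_pos hε hL).le).trans_eq ?_)
    rw [← mul_assoc, div_mul_cancel₀ _ hL.ne']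
  have h4 := (D.nq V hV).qs ε x y z h hz h3
  have h5 := mul_le_mul h1 (D.gl2_two hV h.1 hz.2.1) dist_nonneg (half_pos hδ).le
  linarith

theorem iso_lower (T : ℝ) : ∃ c > 0, ∀ V ∈ insert univ D.𝒰, ∀ U, Child D.𝒰 V U → ∀ x ∈ U,
    Metric.diam V ≤ T * Metric.diam U → c ≤ D.iso V x := by
  obtain ⟨c, hc, h⟩ := D.lower (max T 0 * (2 * D.L))
  exact ⟨c, hc, fun V hV U hU x hx hT => D.gl2_le_iso hV (hU.2.1.1 hx) fun y hy =>
    h V hV x y hy (D.gl2_diam hU hx hy hT)⟩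

theorem iso_upper {δ : ℝ} (hδ : 0 < δ) : ∃ ε > 0, ∀ V ∈ insert univ D.𝒰, ∀ U, Child D.𝒰 V U →
    ∀ x ∈ U, Metric.diam U ≤ ε * Metric.diam V → D.iso V x ≤ δ := by
  have hL : 0 < 2 * D.L ^ 2 := by have := D.lam.one_le; positivity
  obtain ⟨ε, hε, h⟩ := D.upper hδ
  refine ⟨ε / (2 * D.L ^ 2), div_pos hε hL, fun V hV U hU x hx hd => ?_⟩
  obtain ⟨y, hy, h1⟩ := D.gl2_near hV hU hx hd
  exact (D.iso_le hy).trans (h V hV x y hy h1)

theorem iso_pos (hV : V ∈ insert univ D.𝒰) (hU : Child D.𝒰 V U) (hx : x ∈ U) : 0 < D.iso V x := by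
  obtain ⟨c, hc, h⟩ := D.iso_lower (Metric.diam V / Metric.diam U)
  exact hc.trans_le (h V hV U hU x hx
    (div_mul_cancel₀ _ (D.lam.diam_pos (mem_insert_of_mem _ hU.1)).ne').ge)

theorem iso_small {δ : ℝ} (hδ : 0 < δ) : ∃ ε > 0, ∀ V ∈ insert univ D.𝒰, ∀ U, Child D.𝒰 V U →
    ∀ x ∈ U, ∀ z, Apart D.𝒰 V x z → Metric.diam U ≤ ε * dist x z →
    D.iso V x ≤ δ * dist (D.F V x) (D.F V z) := by
  have hL : 0 < 2 * D.L ^ 2 := by have := D.lam.one_le; positivity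
  obtain ⟨ε, hε, h⟩ := D.gauge.2.2 δ hδ
  refine ⟨ε / (2 * D.L ^ 2), div_pos hε hL, fun V hV U hU x hx z hz hd => ?_⟩
  obtain ⟨y, hy, h1⟩ := D.gl2_near hV hU hx hd
  exact (D.iso_le hy).trans (((D.nq V hV).qs ε x y z hy hz h1).trans
    (mul_le_mul_of_nonneg_right h dist_nonneg))

theorem le_iso (T : ℝ) : ∃ M : ℝ, 0 ≤ M ∧ ∀ V ∈ insert univ D.𝒰, ∀ U, Child D.𝒰 V U →
    ∀ x ∈ U, ∀ y, Apart D.𝒰 V x y → dist x y ≤ T * Metric.diam U →
    dist (D.F V x) (D.F V y) ≤ M * D.iso V x := by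
  have h0 := D.gauge.2.1 (max T 0 * (2 * D.L))
  refine ⟨D.η (max T 0 * (2 * D.L)) + 1, by linarith, fun V hV U hU x hx y hy hd => ?_⟩
  rw [← div_le_iff₀' (by linarith)]
  refine D.gl2_le_iso hV hy.1 fun z hz => ?_
  have h1 := (D.nq V hV).qs _ x y z hy hz (D.gl2_diam hU hx hz hd)
  have h2 : 0 ≤ dist (D.F V x) (D.F V z) := dist_nonneg
  rw [div_le_iff₀' (by linarith)]
  linarith

end GD

end KAC
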