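import Pool.Agent.Lib.MP_e1e491_gt.Ac.Gl1
import Pool.Agent.Lib.MP_e1e491_gt.Ac.Gl2

/-! The scales and the glued map. -/

namespace KAC

open Set KKC
open scoped Pointwise Classical

namespace GD

variable {Z : Type} [MetricSpace Z] [CompactSpace Z] [Nontrivial Z] (D : GD Z) {x y : Z}
  {j k : ℕ}

theorem Λ_nonneg (x : Z) (k : ℕ) : 0 ≤ D.Λ x k := by
  refine Finset.prod_nonneg fun j _ => ?_
  split_ifs
  · exact div_nonneg (D.iso_nonneg _ _) (by norm_num)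
  · exact le_rfl

theorem Λ_succ (hk : (ch D.𝒰 x (k + 1)).Nonempty) :
    D.Λ x (k + 1) = D.Λ x k * (D.iso (ch D.𝒰 x k) x / 100) := by
  rw [Λ, Finset.prod_range_succ, if_pos hk]
  rfl

theorem Λ_pos (hk : (ch D.𝒰 x k).Nonempty) : 0 < D.Λ x k := by
  induction k with
  | zero => simp [Λ]
  | succ k ih =>
    have hk' := hk.mono (D.lam.ch_anti (Nat.le_succ k))
    rw [D.Λ_succ hk]
    exact mul_pos (ih hk') (div_pos
      (D.iso_pos (D.lam.ch_mem hk').1 (D.lam.ch_child hk) (D.lam.ch_mem hk).2) (by norm_num))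

theorem gl3_zero (hk : ¬ (ch D.𝒰 x (k + 1)).Nonempty) : D.Λ x (k + 1) = 0 := by
  rw [Λ, Finset.prod_range_succ, if_neg hk, mul_zero]

theorem gl3_step {d : ℝ} (hd : 0 ≤ d)
    (h : (ch D.𝒰 x k).Nonempty → D.iso (ch D.𝒰 x k) x ≤ d) :
    D.Λ x (k + 1) ≤ D.Λ x k * (d / 100) := by
  by_cases hk : (ch D.𝒰 x (k + 1)).Nonempty
  · rw [D.Λ_succ hk]
    have := h (hk.mono (D.lam.ch_anti (Nat.le_succ k)))
    exact mul_le_mul_of_nonneg_left (by linarith) (D.Λ_nonneg x k)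
  · rw [D.gl3_zero hk]
    exact mul_nonneg (D.Λ_nonneg x k) (by linarith)

theorem Λ_le (hj : j ≤ k) : D.Λ x k ≤ (1 / 2) ^ (k - j) * D.Λ x j := by
  induction k, hj using Nat.le_induction with
  | base => simp
  | succ k hj ih =>
    have h1 := D.gl3_step (x := x) (k := k) zero_le_two fun h =>
      D.iso_le_two (D.lam.ch_mem h).1 (D.lam.ch_mem h).2
    have h2 := D.Λ_nonneg x k
    rw [Nat.succ_sub hj, pow_succ]
    linarith

theorem gl3_term (x : Z) (k i : ℕ) :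
    ‖(D.Λ x (i + k) : ℂ) * D.F (ch D.𝒰 x (i + k)) x‖ ≤ D.Λ x k * (1 / 2) ^ i := by
  have h1 := D.Λ_le (x := x) (Nat.le_add_left k i)
  rw [Nat.add_sub_cancel, mul_comm] at h1
  refine le_trans ?_ h1
  generalize i + k = n
  rw [norm_mul, Complex.norm_real, Real.norm_of_nonneg (D.Λ_nonneg x n)]
  by_cases hn : (ch D.𝒰 x n).Nonempty
  · exact mul_le_of_le_one_right (D.Λ_nonneg x n)
      (D.le_one _ (D.lam.ch_mem hn).1 _ (D.lam.ch_mem hn).2)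
  · rcases n with _ | n
    · exact absurd ⟨x, mem_univ x⟩ hn
    · rw [D.gl3_zero hn, zero_mul]

theorem gl3_tail (x : Z) (k : ℕ) :
    ‖∑' i, (D.Λ x (i + k) : ℂ) * D.F (ch D.𝒰 x (i + k)) x‖ ≤ D.Λ x k * 2 :=
  tsum_of_norm_bounded (hasSum_geometric_two.mul_left _) (D.gl3_term x k)

theorem gl3_split (x : Z) (k : ℕ) :
    D.Φ x = ∑ j ∈ Finset.range k, (D.Λ x j : ℂ) * D.F (ch D.𝒰 x j) x +
      ∑' i, (D.Λ x (i + k) : ℂ) * D.F (ch D.𝒰 x (i + k)) x :=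
  ((Summable.of_norm_bounded (summable_geometric_two.mul_left (D.Λ x 0))
    (D.gl3_term x 0)).sum_add_tsum_nat_add k).symm

theorem Φ_le (x : Z) : ‖D.Φ x‖ ≤ 2 := by
  simpa [Λ, Φ] using D.gl3_tail x 0

theorem Φ_dist (h : Apart D.𝒰 (ch D.𝒰 x k) x y) :
    D.Λ x k * dist (D.F (ch D.𝒰 x k) x) (D.F (ch D.𝒰 x k) y) ≤ 2 * dist (D.Φ x) (D.Φ y) ∧
    dist (D.Φ x) (D.Φ y) ≤ 2 * (D.Λ x k * dist (D.F (ch D.𝒰 x k) x) (D.F (ch D.𝒰 x k) y)) := by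
  have hy : y ∈ ch D.𝒰 x k := h.2.1
  have hc : ∀ j < k, (ch D.𝒰 x (j + 1)).Nonempty ∧ y ∈ ch D.𝒰 x (j + 1) := fun j hj =>
    ⟨⟨y, D.lam.ch_anti hj hy⟩, D.lam.ch_anti hj hy⟩
  have hm : ∀ j < k, ch D.𝒰 x j ∈ insert univ D.𝒰 := fun j hj =>
    (D.lam.ch_mem ⟨y, D.lam.ch_anti hj.le hy⟩).1
  have hΛ : ∀ j ≤ k, D.Λ y j = D.Λ x j := fun j hj => Finset.prod_congr rfl fun i hi => by
    have hi' : i < k := lt_of_lt_of_le (Finset.mem_range.1 hi) hj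
    rw [D.lam.ch_eq hy hi', D.lam.ch_eq hy hi'.le, D.iso_eq (hm i hi')
      (D.lam.ch_child (hc i hi').1) (hc i hi').2 (D.lam.ch_mem (hc i hi').1).2]
  have hs : ∑ j ∈ Finset.range k, (D.Λ y j : ℂ) * D.F (ch D.𝒰 y j) y =
      ∑ j ∈ Finset.range k, (D.Λ x j : ℂ) * D.F (ch D.𝒰 x j) x :=
    Finset.sum_congr rfl fun i hi => by
      have hi' := Finset.mem_range.1 hi
      have h1 := D.lam.ch_child (hc i hi').1
      rw [hΛ i hi'.le, D.lam.ch_eq hy hi'.le, (D.nq _ (hm i hi')).const _ h1.1 h1.2.1 _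
        (hc i hi').2 _ (D.lam.ch_mem (hc i hi').1).2]
  have e : ch D.𝒰 y k = ch D.𝒰 x k := D.lam.ch_eq hy le_rfl
  have t1 := D.gl3_tail x (k + 1)
  have t2 := D.gl3_tail y (k + 1)
  have s1 := D.gl3_step (x := x) (k := k) dist_nonneg fun _ => D.iso_le h
  have s2 := D.gl3_step (x := y) (k := k) dist_nonneg fun _ => D.iso_le (e ▸ h.symm)
  rw [hΛ k le_rfl, e, dist_comm] at s2
  have hd : D.Φ x - D.Φ y = (D.Λ x k : ℂ) * (D.F (ch D.𝒰 x k) x - D.F (ch D.𝒰 x k) y) +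
      ((∑' i, (D.Λ x (i + (k + 1)) : ℂ) * D.F (ch D.𝒰 x (i + (k + 1))) x) -
        ∑' i, (D.Λ y (i + (k + 1)) : ℂ) * D.F (ch D.𝒰 y (i + (k + 1))) y) := by
    rw [D.gl3_split x (k + 1), D.gl3_split y (k + 1), Finset.sum_range_succ, Finset.sum_range_succ,
      hs, hΛ k le_rfl, e]
    ring
  have hn : ‖(D.Λ x k : ℂ) * (D.F (ch D.𝒰 x k) x - D.F (ch D.𝒰 x k) y)‖ =
      D.Λ x k * dist (D.F (ch D.𝒰 x k) x) (D.F (ch D.𝒰 x k) y) := by
    rw [norm_mul, Complex.norm_real, Real.norm_of_nonneg (D.Λ_nonneg x k), dist_eq_norm]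
  rw [dist_eq_norm (D.Φ x), hd]
  generalize (∑' i, (D.Λ x (i + (k + 1)) : ℂ) * D.F (ch D.𝒰 x (i + (k + 1))) x) = a at t1 ⊢
  generalize (∑' i, (D.Λ y (i + (k + 1)) : ℂ) * D.F (ch D.𝒰 y (i + (k + 1))) y) = b at t2 ⊢
  generalize (D.Λ x k : ℂ) * (D.F (ch D.𝒰 x k) x - D.F (ch D.𝒰 x k) y) = c at hn ⊢
  have n1 := norm_sub_le a b
  have n2 := norm_add_le c (a - b)
  have n3 := norm_sub_le (c + (a - b)) (a - b)
  have n4 := norm_nonneg c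
  rw [add_sub_cancel_right] at n3
  constructor <;> linarith

end GD

end KAC
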