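import Pool.Agent.Lib.MP_e1e491_gt.Ac.Gl3

/-! The glued map is quasisymmetric. -/

namespace KAC

open Set KKC
open scoped Pointwise Classical

namespace GD

variable {Z : Type} [MetricSpace Z] [CompactSpace Z] [Nontrivial Z] (D : GD Z)

omit [Nontrivial Z] in
theorem gl4_ne {x : Z} {j k : ℕ} (hj : j ≤ k) (hk : (ch D.𝒰 x k).Nonempty) :
    (ch D.𝒰 x j).Nonempty := hk.mono (D.lam.ch_anti hj)

omit [Nontrivial Z] in
theorem gl4_diam {x : Z} {j k : ℕ} (hj : j ≤ k) :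
    Metric.diam (ch D.𝒰 x k) ≤ Metric.diam (ch D.𝒰 x j) :=
  Metric.diam_mono (D.lam.ch_anti hj) Metric.isBounded_of_compactSpace

theorem gl4_pos {x : Z} {k : ℕ} (hk : (ch D.𝒰 x k).Nonempty) : 0 < Metric.diam (ch D.𝒰 x k) :=
  D.lam.diam_pos (D.lam.ch_mem hk).1

theorem gl4_anti {x : Z} {j k : ℕ} (hj : j ≤ k) : D.Λ x k ≤ D.Λ x j :=
  (D.Λ_le hj).trans (mul_le_of_le_one_left (D.Λ_nonneg x j) (pow_le_one₀ (by norm_num)
    (by norm_num)))

theorem lev_small {δ : ℝ} (hδ : 0 < δ) : ∃ ε > 0, ∀ x j k, j ≤ k → (ch D.𝒰 x k).Nonempty →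
    Metric.diam (ch D.𝒰 x k) ≤ ε * Metric.diam (ch D.𝒰 x j) → D.Λ x k ≤ δ * D.Λ x j := by
  obtain ⟨n, hn⟩ := exists_pow_lt_of_lt_one hδ (by norm_num : (1 / 2 : ℝ) < 1)
  obtain ⟨ε1, hε1, h1⟩ := D.iso_upper hδ
  obtain ⟨e, he0, he1, he2⟩ : ∃ e : ℝ, 0 < e ∧ e < 1 ∧ e ≤ ε1 :=
    ⟨min (1 / 2) ε1, lt_min (by norm_num) hε1, (min_le_left _ _).trans_lt (by norm_num),
      min_le_right _ _⟩
  refine ⟨e ^ n, pow_pos he0 n, fun x j k hjk hk hd => ?_⟩
  have hj0 := D.Λ_nonneg x j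
  by_cases hn' : n ≤ k - j
  · refine (D.Λ_le hjk).trans (mul_le_mul_of_nonneg_right ?_ hj0)
    exact (pow_le_pow_of_le_one (by norm_num) (by norm_num) hn').trans hn.le
  by_cases hs : ∃ i, j ≤ i ∧ i < k ∧
      Metric.diam (ch D.𝒰 x (i + 1)) ≤ ε1 * Metric.diam (ch D.𝒰 x i)
  · obtain ⟨i, hi1, hi2, hi3⟩ := hs
    have hi := D.gl4_ne (j := i + 1) hi2 hk
    have h2 := h1 _ (D.lam.ch_mem (D.gl4_ne hi2.le hk)).1 _ (D.lam.ch_child hi) x
      (D.lam.ch_mem hi).2 hi3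
    have h3 := D.gl4_anti (x := x) (j := i + 1) hi2
    have h4 := D.gl4_anti (x := x) hi1
    have h5 := D.Λ_nonneg x i
    rw [D.Λ_succ hi] at h3
    nlinarith [mul_le_mul_of_nonneg_left h2 h5, mul_le_mul_of_nonneg_left h4 hδ.le,
      mul_nonneg hδ.le hj0]
  · exfalso
    push Not at hs
    have key : ∀ m, j + m ≤ k →
        e ^ m * Metric.diam (ch D.𝒰 x j) ≤ Metric.diam (ch D.𝒰 x (j + m)) := by
      intro m
      induction m with
      | zero => simp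
      | succ m ih =>
        intro hm
        have h2 := ih (by omega)
        have h3 := hs (j + m) (by omega) (by omega)
        have h4 := mul_le_mul_of_nonneg_right he2
          (Metric.diam_nonneg (s := ch D.𝒰 x (j + m)))
        rw [pow_succ', mul_assoc, ← add_assoc]
        exact (mul_le_mul_of_nonneg_left h2 he0.le).trans (h4.trans h3.le)
    have h2 := key (k - j) (by omega)
    rw [Nat.add_sub_cancel' hjk] at h2
    have h3 : e ^ n < e ^ (k - j) := pow_lt_pow_right_of_lt_one₀ he0 he1 (by omega)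
    have h4 := mul_lt_mul_of_pos_right h3 (D.gl4_pos (D.gl4_ne hjk hk))
    linarith

theorem lev_bdd (hD : Dob Z) (T : ℝ) : ∃ M : ℝ, 0 ≤ M ∧ ∀ x j k, j ≤ k → (ch D.𝒰 x k).Nonempty →
    Metric.diam (ch D.𝒰 x j) ≤ T * Metric.diam (ch D.𝒰 x k) → D.Λ x j ≤ M * D.Λ x k := by
  obtain ⟨N, hN⟩ := D.lam.lev_count hD T
  obtain ⟨c, hc, h1⟩ := D.iso_lower T
  obtain ⟨a, ha1, ha2⟩ : ∃ a : ℝ, 1 ≤ a ∧ 100 ≤ a * c :=
    ⟨max 1 (100 / c), le_max_left _ _, (div_le_iff₀ hc).1 (le_max_right _ _)⟩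
  refine ⟨a ^ N, by positivity, fun x j k hjk hk hd => ?_⟩
  have hT : 0 ≤ T := by
    have h2 := D.gl4_pos (D.gl4_ne hjk hk)
    by_contra hn
    nlinarith [mul_pos (neg_pos.2 (not_le.1 hn)) (D.gl4_pos hk)]
  have key : ∀ m, j + m ≤ k → D.Λ x j ≤ a ^ m * D.Λ x (j + m) := by
    intro m
    induction m with
    | zero => simp
    | succ m ih =>
      intro hm
      have hi := D.gl4_ne (j := j + m + 1) hm hk
      have h2 := h1 _ (D.lam.ch_mem (D.gl4_ne (j := j + m) (by omega) hk)).1 _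
        (D.lam.ch_child hi) x (D.lam.ch_mem hi).2
        ((D.gl4_diam (by omega)).trans (hd.trans (mul_le_mul_of_nonneg_left (D.gl4_diam hm) hT)))
      have h3 : D.Λ x (j + m) ≤ a * D.Λ x (j + m + 1) := by
        rw [D.Λ_succ hi]
        have h4 := D.Λ_nonneg x (j + m)
        have h5 : 100 ≤ a * D.iso (ch D.𝒰 x (j + m)) x :=
          ha2.trans (mul_le_mul_of_nonneg_left h2 (by linarith))
        nlinarith [mul_le_mul_of_nonneg_left h5 h4]
      rw [pow_succ, mul_assoc, ← add_assoc]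
      exact (ih (by omega)).trans (mul_le_mul_of_nonneg_left h3 (by positivity))
  have h2 := key (k - j) (by omega)
  rw [Nat.add_sub_cancel' hjk] at h2
  have h3 := hN x j k hjk hk hd
  exact h2.trans (mul_le_mul_of_nonneg_right (pow_le_pow_right₀ ha1 (by omega)) (D.Λ_nonneg x k))

/-- The size of the image of a pair that splits at level `k`. -/
noncomputable def gl4_A (x y : Z) (k : ℕ) : ℝ :=
  D.Λ x k * dist (D.F (ch D.𝒰 x k) x) (D.F (ch D.𝒰 x k) y)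

omit [Nontrivial Z] in
theorem gl4_two {x y : Z} {k : ℕ} (h : Apart D.𝒰 (ch D.𝒰 x k) x y) :
    dist (D.F (ch D.𝒰 x k) x) (D.F (ch D.𝒰 x k) y) ≤ 2 := by
  have hV := (D.lam.ch_mem ⟨x, h.1⟩).1
  have h1 := D.le_one _ hV x h.1
  have h2 := D.le_one _ hV y h.2.1
  have h3 := norm_sub_le (D.F (ch D.𝒰 x k) x) (D.F (ch D.𝒰 x k) y)
  rw [dist_eq_norm]
  linarith

omit [Nontrivial Z] in
theorem gl4_chain {x y z : Z} {k l : ℕ} (hy : Apart D.𝒰 (ch D.𝒰 x k) x y)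
    (hz : Apart D.𝒰 (ch D.𝒰 x l) x z) (h : k < l) :
    dist x z ≤ Metric.diam (ch D.𝒰 x l) ∧
      Metric.diam (ch D.𝒰 x (k + 1)) ≤ 2 * D.L * dist x y := by
  have hi := D.gl4_ne (j := k + 1) h ⟨x, hz.1⟩
  exact ⟨Metric.dist_le_diam_of_mem Metric.isBounded_of_compactSpace hz.1 hz.2.1,
    D.lam.diam_le (D.lam.ch_child hi).1 (D.lam.ch_mem hi).2 (D.lam.not_mem_ch hy)⟩

theorem gl4_bdd (hD : Dob Z) {T : ℝ} (hT : 0 ≤ T) : ∃ H : ℝ, 0 ≤ H ∧ ∀ x y z k l,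
    Apart D.𝒰 (ch D.𝒰 x k) x y → Apart D.𝒰 (ch D.𝒰 x l) x z → dist x y ≤ T * dist x z →
    D.gl4_A x y k ≤ H * D.gl4_A x z l := by
  obtain ⟨M1, hM1, h1⟩ := D.le_iso T
  obtain ⟨M2, hM2, h2⟩ := D.lev_bdd hD (2 * D.L * T)
  obtain ⟨c, hc, h3⟩ := D.lower (2 * D.L * T)
  have hη := D.gauge.2.1 T
  have hL : 0 ≤ 2 * D.L := by linarith [D.lam.one_le]
  have hq : 0 ≤ 100 * M1 * M2 / c := by positivity
  refine ⟨D.η T + 1 + 100 * M1 * M2 / c, by positivity, fun x y z k l hy hz hd => ?_⟩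
  have hA : 0 ≤ D.gl4_A x z l := mul_nonneg (D.Λ_nonneg x l) dist_nonneg
  rcases lt_trichotomy k l with h | rfl | h
  · obtain ⟨e1, e2⟩ := D.gl4_chain hy hz h
    have hi := D.gl4_ne (j := k + 1) h ⟨x, hz.1⟩
    have e3 := D.gl4_diam (x := x) (j := k + 1) h
    have e4 : Metric.diam (ch D.𝒰 x (k + 1)) ≤ 2 * D.L * T * dist x z := by
      rw [mul_assoc (2 * D.L)]
      exact e2.trans (mul_le_mul_of_nonneg_left hd hL)
    have f1 := h1 _ (D.lam.ch_mem ⟨x, hy.1⟩).1 _ (D.lam.ch_child hi) x (D.lam.ch_mem hi).2 y hy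
      (hd.trans (mul_le_mul_of_nonneg_left (e1.trans e3) hT))
    have f2 := h2 x (k + 1) l h ⟨x, hz.1⟩
      (e4.trans (mul_le_mul_of_nonneg_left e1 (mul_nonneg hL hT)))
    have f3 := h3 _ (D.lam.ch_mem ⟨x, hz.1⟩).1 x z hz (e3.trans e4)
    have f4 : D.gl4_A x y k ≤ 100 * M1 * D.Λ x (k + 1) := by
      rw [D.Λ_succ hi, gl4_A]
      nlinarith [mul_le_mul_of_nonneg_left f1 (D.Λ_nonneg x k)]
    have f5 : D.Λ x l ≤ D.gl4_A x z l / c := by
      rw [le_div_iff₀ hc]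
      exact mul_le_mul_of_nonneg_left f3 (D.Λ_nonneg x l)
    have f6 : D.gl4_A x y k ≤ 100 * M1 * M2 / c * D.gl4_A x z l := by
      calc D.gl4_A x y k ≤ 100 * M1 * (M2 * (D.gl4_A x z l / c)) :=
            f4.trans (mul_le_mul_of_nonneg_left (f2.trans (mul_le_mul_of_nonneg_left f5 hM2))
              (by positivity))
        _ = _ := by ring
    exact f6.trans (mul_le_mul_of_nonneg_right (by linarith) hA)
  · have f1 := (D.nq _ (D.lam.ch_mem ⟨x, hy.1⟩).1).qs T x y z hy hz hd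
    have f2 : D.gl4_A x y k ≤ D.η T * D.gl4_A x z k := by
      rw [gl4_A, gl4_A, mul_left_comm]
      exact mul_le_mul_of_nonneg_left f1 (D.Λ_nonneg x k)
    exact f2.trans (mul_le_mul_of_nonneg_right (by linarith) hA)
  · have hi := D.gl4_ne (j := l + 1) h ⟨x, hy.1⟩
    have f1 := D.gl4_anti (x := x) (j := l + 1) h
    rw [D.Λ_succ hi] at f1
    have f2 := mul_le_mul_of_nonneg_left (D.iso_le hz) (D.Λ_nonneg x l)
    have f3 := mul_le_mul_of_nonneg_left (D.gl4_two hy) (D.Λ_nonneg x k)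
    have f4 : D.gl4_A x y k ≤ 1 * D.gl4_A x z l := by
      rw [gl4_A] at hA ⊢
      rw [gl4_A]
      linarith
    exact f4.trans (mul_le_mul_of_nonneg_right (by linarith) hA)

theorem gl4_small {δ : ℝ} (hδ : 0 < δ) : ∃ ε > 0, ∀ x y z k l,
    Apart D.𝒰 (ch D.𝒰 x k) x y → Apart D.𝒰 (ch D.𝒰 x l) x z → dist x y ≤ ε * dist x z →
    D.gl4_A x y k ≤ δ * D.gl4_A x z l := by
  obtain ⟨e0, he0, h0⟩ := D.gauge.2.2 δ hδ
  obtain ⟨ea, hea, ha⟩ := D.upper hδ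
  obtain ⟨eb, heb, hb⟩ := D.lev_small hδ
  obtain ⟨ec, hec, hc⟩ := D.iso_small hδ
  have hL : 0 < D.L := by linarith [D.lam.one_le]
  obtain ⟨ε, hε, e1, e2, e3⟩ : ∃ ε > 0, ε ≤ e0 ∧ ε ≤ ea * (eb * ec) ∧ ε ≤ 1 / (4 * D.L) :=
    ⟨min e0 (min (ea * (eb * ec)) (1 / (4 * D.L))), by positivity, min_le_left _ _,
      (min_le_right _ _).trans (min_le_left _ _), (min_le_right _ _).trans (min_le_right _ _)⟩
  refine ⟨ε, hε, fun x y z k l hy hz hd => ?_⟩
  have hxz : 0 < dist x z := dist_pos.2 hz.2.2.1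
  rcases lt_trichotomy k l with h | rfl | h
  · exfalso
    obtain ⟨f1, f2⟩ := D.gl4_chain hy hz h
    have f3 := D.gl4_diam (x := x) (j := k + 1) h
    rw [le_div_iff₀ (by positivity)] at e3
    have f4 := mul_le_mul_of_nonneg_left hd (by positivity : 0 ≤ 2 * D.L)
    nlinarith [mul_le_mul_of_nonneg_right e3 hxz.le]
  · have f1 := (D.nq _ (D.lam.ch_mem ⟨x, hy.1⟩).1).qs e0 x y z hy hz
      (hd.trans (mul_le_mul_of_nonneg_right e1 hxz.le))
    rw [gl4_A, gl4_A, mul_left_comm]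
    exact mul_le_mul_of_nonneg_left (f1.trans (mul_le_mul_of_nonneg_right h0 dist_nonneg))
      (D.Λ_nonneg x k)
  · have hi := D.gl4_ne (j := l + 1) h ⟨x, hy.1⟩
    have f0 := D.Λ_succ hi
    have f1 := D.gl4_anti (x := x) (j := l + 1) h
    have f2 := mul_le_mul_of_nonneg_left (D.iso_le hz) (D.Λ_nonneg x l)
    have f3 := mul_le_mul_of_nonneg_left (D.gl4_two hy) (D.Λ_nonneg x k)
    have hA : 0 ≤ δ * D.gl4_A x z l :=
      mul_nonneg hδ.le (mul_nonneg (D.Λ_nonneg x l) dist_nonneg)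
    have f4 : δ * D.Λ x (l + 1) ≤ δ * D.gl4_A x z l / 100 := by
      rw [f0, gl4_A, mul_div_assoc]
      exact mul_le_mul_of_nonneg_left (by linarith) hδ.le
    by_cases c1 : dist x y ≤ ea * Metric.diam (ch D.𝒰 x k)
    · have g1 := mul_le_mul_of_nonneg_left (ha _ (D.lam.ch_mem ⟨x, hy.1⟩).1 x y hy c1)
        (D.Λ_nonneg x k)
      have g2 := mul_le_mul_of_nonneg_left f1 hδ.le
      rw [gl4_A]
      linarith
    by_cases c2 : Metric.diam (ch D.𝒰 x k) ≤ eb * Metric.diam (ch D.𝒰 x (l + 1))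
    · have g1 := hb x (l + 1) k h ⟨x, hy.1⟩ c2
      rw [gl4_A]
      linarith
    by_cases c3 : Metric.diam (ch D.𝒰 x (l + 1)) ≤ ec * dist x z
    · have g1 := mul_le_mul_of_nonneg_left (hc _ (D.lam.ch_mem ⟨x, hz.1⟩).1 _
        (D.lam.ch_child hi) x (D.lam.ch_mem hi).2 z hz c3) (D.Λ_nonneg x l)
      rw [gl4_A] at hA ⊢
      rw [gl4_A]
      linarith
    · exfalso
      push Not at c1 c2 c3
      have g1 := mul_lt_mul_of_pos_left c3 heb
      have g2 := mul_lt_mul_of_pos_left (g1.trans c2) hea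
      have g3 := mul_le_mul_of_nonneg_right e2 hxz.le
      linarith

theorem gl4_lift {T H : ℝ} (hH : 0 ≤ H) (h : ∀ x y z k l,
    Apart D.𝒰 (ch D.𝒰 x k) x y → Apart D.𝒰 (ch D.𝒰 x l) x z → dist x y ≤ T * dist x z →
    D.gl4_A x y k ≤ H * D.gl4_A x z l) (x y z : Z) (hd : dist x y ≤ T * dist x z) :
    dist (D.Φ x) (D.Φ y) ≤ 4 * H * dist (D.Φ x) (D.Φ z) := by
  by_cases hxy : x = y
  · rw [← hxy, dist_self]
    positivity
  have hxz : x ≠ z := by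
    rintro rfl
    rw [dist_self, mul_zero] at hd
    exact hxy (dist_le_zero.1 hd)
  obtain ⟨k, hk⟩ := D.lam.exists_split hxy
  obtain ⟨l, hl⟩ := D.lam.exists_split hxz
  have h1 := h x y z k l hk hl hd
  have h2 := (D.Φ_dist hk).2
  have h3 := mul_le_mul_of_nonneg_left (D.Φ_dist hl).1 hH
  rw [gl4_A, gl4_A] at h1
  linarith

theorem glue (hD : Dob Z) : KP2.WQS D.Φ ∧ Function.Injective D.Φ := by
  refine ⟨⟨fun T => ?_, fun δ hδ => ?_⟩, fun x y hxy => ?_⟩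
  · obtain ⟨H, hH, h⟩ := D.gl4_bdd hD (abs_nonneg T)
    exact ⟨4 * H, fun x y z hd => D.gl4_lift hH h x y z
      (hd.trans (mul_le_mul_of_nonneg_right (le_abs_self T) dist_nonneg))⟩
  · obtain ⟨ε, hε, h⟩ := D.gl4_small (δ := δ / 4) (by positivity)
    refine ⟨ε, hε, fun x y z hd => ?_⟩
    have h1 := D.gl4_lift (by positivity) h x y z hd
    linarith
  · by_contra hne
    obtain ⟨k, hk⟩ := D.lam.exists_split hne
    have h1 := (D.Φ_dist hk).1
    have h2 := mul_pos (D.Λ_pos ⟨x, hk.1⟩)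
      (dist_pos.2 ((D.nq _ (D.lam.ch_mem ⟨x, hk.1⟩).1).ne x y hk))
    rw [hxy, dist_self] at h1
    linarith

end GD

end KAC
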