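import Pool.Agent.Lib.MP_e1e491_gt.Ac.Defs

/-! Laminar families. -/

set_option linter.unusedSectionVars false

namespace KAC

open Set KKC
open scoped Pointwise Classical

variable {Z : Type} [MetricSpace Z] [CompactSpace Z] {𝒰 : Set (Set Z)} {L : ℝ} {V U W : Set Z}
  {x y : Z}

theorem Lam.exists_child (h : Lam 𝒰 L) (hU : U ∈ 𝒰) (hUV : U ⊂ V) : ∃ W, Child 𝒰 V W ∧ U ⊆ W := by
  obtain ⟨a, ha, b, hb, hab⟩ := h.nt U hU
  obtain ⟨W, hW⟩ := ((h.fin _ (dist_pos.2 hab)).subset (t := {W | W ∈ 𝒰 ∧ U ⊆ W ∧ W ⊂ V})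
    fun W hW => ⟨hW.1, a, hW.2.1 ha, b, hW.2.1 hb, le_rfl⟩).exists_maximal ⟨U, hU, subset_rfl, hUV⟩
  exact ⟨W, ⟨hW.1.1, hW.1.2.2, fun W' h1 h2 h3 =>
    (hW.2 ⟨h1, hW.1.2.1.trans h2, h3⟩ h2).antisymm h2⟩, hW.1.2.1⟩

theorem Lam.child_eq (h : Lam 𝒰 L) (hU : Child 𝒰 V U) (hW : Child 𝒰 V W) (hx : x ∈ U)
    (hx' : x ∈ W) : U = W := by
  rcases h.lam U hU.1 W hW.1 with h1 | h1 | h1
  · exact (hU.2.2 W hW.1 h1 hW.2.1).symm
  · exact hW.2.2 U hU.1 h1 hU.2.1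
  · exact (h1.notMem_of_mem_left hx hx').elim

theorem Lam.core_or (h : Lam 𝒰 L) (hx : x ∈ V) : x ∈ core 𝒰 V ∨ ∃ U, Child 𝒰 V U ∧ x ∈ U := by
  refine or_iff_not_imp_left.2 fun hc => ?_
  by_contra h1
  refine hc ⟨hx, fun U hU hUV hxU => ?_⟩
  obtain ⟨W, hW, h2⟩ := h.exists_child hU hUV
  exact h1 ⟨W, hW, h2 hxU⟩

theorem Apart.symm (h : Apart 𝒰 V x y) : Apart 𝒰 V y x := by
  exact ⟨h.2.1, h.1, h.2.2.1.symm, fun U hU hUV h1 => h.2.2.2 U hU hUV h1.symm⟩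

theorem Lam.apart_child (h : Lam 𝒰 L) (hU : Child 𝒰 V U) (hx : x ∈ U) :
    Apart 𝒰 V x y ↔ y ∈ V ∧ y ∉ U := by
  refine ⟨fun h1 => ⟨h1.2.1, fun hy => h1.2.2.2 U hU.1 hU.2.1 ⟨hx, hy⟩⟩, fun h1 =>
    ⟨hU.2.1.1 hx, h1.1, fun e => h1.2 (e ▸ hx), fun U' hU' h2 h3 => ?_⟩⟩
  obtain ⟨W, hW, h4⟩ := h.exists_child hU' h2
  exact h1.2 (h.child_eq hU hW hx (h4 h3.1) ▸ h4 h3.2)

theorem Lam.diam_pos [Nontrivial Z] (h : Lam 𝒰 L) (hV : V ∈ insert univ 𝒰) : 0 < Metric.diam V := by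
  refine Metric.diam_pos ?_ (Metric.isBounded_of_compactSpace)
  rcases hV with rfl | hV
  · exact nontrivial_univ
  · exact h.nt V hV

theorem Lam.diam_le (h : Lam 𝒰 L) (hU : U ∈ 𝒰) (hx : x ∈ U) (hy : y ∉ U) :
    Metric.diam U ≤ 2 * L * dist x y := by
  have h1 := h.one_le
  refine Metric.diam_le_of_forall_dist_le (by positivity) fun a ha b hb => ?_
  linarith [dist_triangle_left a b x, h.gap U hU x hx a ha y hy, h.gap U hU x hx b hb y hy]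

theorem Lam.exists_apart [Nontrivial Z] (h : Lam 𝒰 L) (hV : V ∈ insert univ 𝒰) (hx : x ∈ V) :
    ∃ y, Apart 𝒰 V x y ∧ Metric.diam V ≤ 4 * L * dist x y := by
  have h0 := h.diam_pos hV
  have h1 := h.one_le
  obtain ⟨w, hw, h2⟩ : ∃ w ∈ V, Metric.diam V ≤ 4 * dist x w := by
    by_contra hc
    push Not at hc
    have := Metric.diam_le_of_forall_dist_le (s := V) (C := Metric.diam V / 2) (by positivity)
      fun a ha b hb => by linarith [dist_triangle_left a b x, hc a ha, hc b hb]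
    linarith
  by_cases h3 : Apart 𝒰 V x w
  · exact ⟨w, h3, h2.trans (by nlinarith [dist_nonneg (x := x) (y := w)])⟩
  obtain ⟨U, hU, hUV, h4⟩ : ∃ U ∈ 𝒰, U ⊂ V ∧ x ∈ U ∧ w ∈ U := by
    by_contra hc
    refine h3 ⟨hx, hw, fun e => ?_, fun U hU hUV h4 => hc ⟨U, hU, hUV, h4⟩⟩
    rw [← e, dist_self] at h2
    linarith
  obtain ⟨W, hW, h5⟩ := h.exists_child hU hUV
  obtain ⟨y, hy, hy'⟩ := exists_of_ssubset hW.2.1
  exact ⟨y, (h.apart_child hW (h5 h4.1)).2 ⟨hy, hy'⟩,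
    by linarith [h.gap W hW.1 x (h5 h4.1) w (h5 h4.2) y hy']⟩

theorem Lam.near_apart (h : Lam 𝒰 L) (hV : V ∈ insert univ 𝒰) (hU : Child 𝒰 V U) (hx : x ∈ U) :
    ∃ y, Apart 𝒰 V x y ∧ dist x y ≤ 2 * L ^ 2 * Metric.diam U := by
  have h1 := h.one_le
  obtain ⟨a, ha, b, hb, c, hc, h2⟩ := h.gap' U hU.1
  have h3 := Metric.dist_le_diam_of_mem (Metric.isBounded_of_compactSpace (s := U)) hx ha
  have h4 := Metric.dist_le_diam_of_mem (Metric.isBounded_of_compactSpace (s := U)) ha hb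
  have h0 : 0 ≤ Metric.diam U := Metric.diam_nonneg
  have h5 : dist a c ≤ L * Metric.diam U := h2.trans (by gcongr)
  have h6 : Metric.diam U ≤ L * Metric.diam U := le_mul_of_one_le_left h0 h1
  have h7 : L * Metric.diam U ≤ L * (L * Metric.diam U) := by gcongr
  by_cases hcV : c ∈ V
  · exact ⟨c, (h.apart_child hU hx).2 ⟨hcV, hc⟩, by linarith [dist_triangle x a c]⟩
  obtain ⟨y, hy, hy'⟩ := exists_of_ssubset hU.2.1
  have h8 := h.gap V (hV.resolve_left fun e => hcV (e ▸ mem_univ c)) a (hU.2.1.1 ha) y hy c hcV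
  have h9 : L * dist a c ≤ L * (L * Metric.diam U) := by gcongr
  exact ⟨y, (h.apart_child hU hx).2 ⟨hy, hy'⟩, by linarith [dist_triangle x a y]⟩

theorem Lam.exists_rep (h : Lam 𝒰 L) (V : Set Z) : ∃ π : Z → Z, (∀ x ∈ core 𝒰 V, π x = x) ∧
    (∀ U, Child 𝒰 V U → ∀ x ∈ U, π x ∈ U ∧ ∀ y ∈ U, π x = π y) ∧
    ∀ x y, Apart 𝒰 V x y → dist (π x) (π y) ≤ (L + 1) ^ 2 * dist x y ∧
      dist x y ≤ (L + 1) ^ 2 * dist (π x) (π y) := by
  obtain ⟨T, hT⟩ : ∃ T : Z → Set Z, ∀ x, T x = ⋃₀ {U | Child 𝒰 V U ∧ x ∈ U} := ⟨_, fun _ => rfl⟩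
  have h1 : ∀ U, Child 𝒰 V U → ∀ x ∈ U, T x = U := fun U hU x hx => by
    rw [hT]
    exact (sUnion_subset fun W hW => (h.child_eq hW.1 hU hW.2 hx).subset).antisymm
      (subset_sUnion_of_mem ⟨hU, hx⟩)
  obtain ⟨π, hπ⟩ : ∃ π : Z → Z, ∀ x, π x = if e : (T x).Nonempty then e.some else x :=
    ⟨_, fun _ => rfl⟩
  have h2 : ∀ x ∈ core 𝒰 V, π x = x := fun x hx => by
    rw [hπ, dif_neg]
    rw [hT]
    rintro ⟨_, U, hU, -⟩
    exact hx.2 U hU.1.1 hU.1.2.1 hU.2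
  have h3 : ∀ U, Child 𝒰 V U → ∀ x (hx : x ∈ U), π x = Set.Nonempty.some ⟨x, hx⟩ :=
    fun U hU x hx => by rw [hπ, h1 U hU x hx, dif_pos ⟨x, hx⟩]
  have h4 : ∀ U, Child 𝒰 V U → ∀ x ∈ U, π x ∈ U := fun U hU x hx => by
    rw [h3 U hU x hx]
    exact Set.Nonempty.some_mem _
  have hL := h.one_le
  have h5 : ∀ x y, Apart 𝒰 V x y → Apart 𝒰 V y (π x) ∧ dist y (π x) ≤ (L + 1) * dist x y ∧
      dist x y ≤ (L + 1) * dist y (π x) := fun x y hxy => by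
    rcases h.core_or hxy.1 with hx | ⟨U, hU, hx⟩
    · rw [h2 x hx, dist_comm y]
      have := le_mul_of_one_le_left (dist_nonneg (x := x) (y := y)) (show 1 ≤ L + 1 by linarith)
      exact ⟨hxy.symm, this, this⟩
    · have h6 := (h.apart_child hU hx).1 hxy
      have h7 := h.gap U hU.1 x hx _ (h4 U hU x hx) y h6.2
      have h8 := h.gap U hU.1 _ (h4 U hU x hx) x hx y h6.2
      rw [dist_comm y]
      exact ⟨((h.apart_child hU (h4 U hU x hx)).2 h6).symm,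
        by linarith [dist_triangle_left (π x) y x], by linarith [dist_triangle_left x y (π x)]⟩
  refine ⟨π, h2, fun U hU x hx => ⟨h4 U hU x hx, fun y hy => by rw [h3 U hU x hx, h3 U hU y hy]⟩,
    fun x y hxy => ?_⟩
  obtain ⟨a1, a2, a3⟩ := h5 x y hxy
  obtain ⟨-, a4, a5⟩ := h5 _ _ a1
  rw [sq, mul_assoc, mul_assoc]
  exact ⟨a4.trans (by gcongr), a3.trans (by gcongr)⟩

theorem Lam.finite_child (h : Lam 𝒰 L) (ho : ∀ U ∈ 𝒰, IsOpen U) (hV : IsClosed V)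
    (hc : core 𝒰 V = ∅) : {U | Child 𝒰 V U}.Finite := by
  obtain ⟨B, h1, h2, h3⟩ := hV.isCompact.elim_finite_subcover_image (b := {U | Child 𝒰 V U})
    (c := id) (fun U hU => ho U hU.1) fun x hx => by
      rcases h.core_or hx with h1 | ⟨U, hU, h1⟩
      · exact absurd (hc ▸ h1) (notMem_empty x)
      · exact mem_biUnion hU h1
  refine h2.subset fun U hU => ?_
  obtain ⟨x, hx⟩ := (h.nt U hU.1).nonempty
  obtain ⟨W, hW, h4⟩ := mem_iUnion₂.1 (h3 (hU.2.1.1 hx))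
  exact h.child_eq hU (h1 hW) hx h4 ▸ hW

end KAC
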