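import Pool.Agent.Lib.MP_e1e491_gt.Ac.Lm
import Pool.Agent.Lib.MP_e1e491_gt.Ac.Ex2
import Pool.Agent.Lib.MP_e1e491_gt.Ac.Ex3

/-! The map of a node. -/

namespace KAC

open Set KKC
open scoped Pointwise Classical

variable {Z : Type} [MetricSpace Z] [CompactSpace Z] {𝒰 : Set (Set Z)} {L : ℝ} {V : Set Z}

theorem nd1_nq (hL : Lam 𝒰 L) {π : Z → Z}
    (h2 : ∀ U, Child 𝒰 V U → ∀ x ∈ U, π x ∈ U ∧ ∀ y ∈ U, π x = π y)
    (h3 : ∀ x y, Apart 𝒰 V x y → dist (π x) (π y) ≤ (L + 1) ^ 2 * dist x y ∧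
      dist x y ≤ (L + 1) ^ 2 * dist (π x) (π y)) {w : Z → ℂ}
    (hw : KP2.WQS ((π '' V).restrict w) ∧ InjOn w (π '' V)) : ∃ η F, Gauge η ∧ NQ 𝒰 η V F := by
  obtain ⟨η, ⟨hm, h0, hs⟩, hη⟩ := gauge_of_wqs hw.1
  have hK : 0 < (L + 1) ^ 2 := by have := hL.one_le; positivity
  generalize (L + 1) ^ 2 = K at h3 hK
  refine ⟨fun t => η (K * t * K), w ∘ π, ⟨fun a b hab => hm (by gcongr), fun t => h0 _,
    fun δ hδ => ?_⟩, fun U hU hUV x hx y hy => ?_, fun x y hxy h => ?_,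
    fun t x y z hxy hxz h => ?_⟩
  · obtain ⟨ε, hε, h⟩ := hs δ hδ
    refine ⟨ε / K / K, by positivity, ?_⟩
    have e : K * (ε / K / K) * K = ε := by field_simp
    simpa only [e] using h
  · obtain ⟨W, hW, hUW⟩ := hL.exists_child hU hUV
    exact congrArg w ((h2 W hW x (hUW hx)).2 y (hUW hy))
  · have e : π x = π y := hw.2 (mem_image_of_mem π hxy.1) (mem_image_of_mem π hxy.2.1) h
    have h4 := (h3 x y hxy).2
    rw [e, dist_self, mul_zero] at h4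
    exact hxy.2.2.1 (dist_le_zero.1 h4)
  · have ht : 0 < t := pos_of_mul_pos_left
      ((dist_pos.2 hxy.2.2.1).trans_le h) dist_nonneg
    refine hη _ _ (mem_image_of_mem π hxy.1) _ (mem_image_of_mem π hxy.2.1) _
      (mem_image_of_mem π hxz.2.1) ?_
    calc dist (π x) (π y) ≤ K * dist x y := (h3 x y hxy).1
      _ ≤ K * (t * dist x z) := by gcongr
      _ ≤ K * (t * (K * dist (π x) (π z))) := by gcongr; exact (h3 x z hxz).2
      _ = K * t * K * dist (π x) (π z) := by ring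

theorem nq_of_core (hL : Lam 𝒰 L) (hD : Dob Z) (hC : IsClosed (core 𝒰 V))
    (hc : IsPreconnected (core 𝒰 V)) (hn : (core 𝒰 V).Nontrivial) {f : Z → ℂ}
    (hf : KP2.WQS ((core 𝒰 V).restrict f)) (hi : InjOn f (core 𝒰 V)) {c L' : ℝ} (hc0 : 0 < c)
    (hp : Por (core 𝒰 V) f c) (hiso : ∀ U, Child 𝒰 V U → ∀ x ∈ U, ∃ p ∈ core 𝒰 V, ∀ y ∉ U,
      dist x p ≤ L' * dist x y) : ∃ η F, Gauge η ∧ NQ 𝒰 η V F := by
  obtain ⟨π, h1, h2, h3⟩ := hL.exists_rep V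
  obtain ⟨κ, p, q, w, h⟩ := exists_ExD (X := π '' V) (L := L') hD hC hc hn hf hi hc0 hp
    (fun x hx => ⟨x, hx.1, h1 x hx⟩) (by
      rintro _ ⟨⟨v, hv, rfl⟩, hy⟩
      rcases hL.core_or hv with hv' | ⟨U, hU, hvU⟩
      · exact absurd ((h1 v hv').symm ▸ hv') hy
      obtain ⟨p, hp, hp'⟩ := hiso U hU _ (h2 U hU v hvU).1
      refine ⟨p, hp, ?_⟩
      rintro _ ⟨v', hv', rfl⟩ hne
      refine hp' _ fun hx => ?_
      rcases hL.core_or hv' with hv'' | ⟨U', hU', hvU'⟩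
      · exact hv''.2 U hU.1 hU.2.1 (h1 v' hv'' ▸ hx)
      · obtain rfl := hL.child_eq hU hU' hx (h2 U' hU' v' hvU').1
        exact hne ((h2 U hU v' hvU').2 v hvU))
  exact nd1_nq hL h2 h3 (h.wqs hf hi)

theorem nq_of_finite (hL : Lam 𝒰 L) (hc : (core 𝒰 V).Subsingleton)
    (hf : {U | Child 𝒰 V U}.Finite) : ∃ η F, Gauge η ∧ NQ 𝒰 η V F := by
  obtain ⟨π, h1, h2, h3⟩ := hL.exists_rep V
  have hX : (π '' V).Finite := by
    refine (hc.finite.union (hf.biUnion (t := fun U => π '' U) fun U hU =>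
      Set.Subsingleton.finite ?_)).subset ?_
    · rintro _ ⟨x, hx, rfl⟩ _ ⟨y, hy, rfl⟩
      exact (h2 U hU x hx).2 y hy
    · rintro _ ⟨v, hv, rfl⟩
      rcases hL.core_or hv with hv' | ⟨U, hU, hvU⟩
      · exact Or.inl ((h1 v hv').symm ▸ hv')
      · exact Or.inr (mem_biUnion (s := {U | Child 𝒰 V U}) hU (mem_image_of_mem π hvU))
  obtain ⟨w, hw⟩ := wqs_finite hX
  exact nd1_nq hL h2 h3 hw

theorem nd1_norm [Nontrivial Z] (hL : Lam 𝒰 L) {η : ℝ → ℝ} (hV : V ∈ insert univ 𝒰)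
    {F : Z → ℂ} (hF : NQ 𝒰 η V F) : ∃ F' : Z → ℂ, NQ 𝒰 η V F' ∧ (∀ x ∈ V, ‖F' x‖ ≤ 1) ∧
      ∃ x ∈ V, ∃ y ∈ V, 1 / 2 ≤ dist (F' x) (F' y) := by
  obtain ⟨x, hx⟩ : V.Nonempty := by
    rcases hV with rfl | hV
    · exact univ_nonempty
    · exact (hL.nt V hV).nonempty
  obtain ⟨y₀, hy₀, hd⟩ := hL.exists_apart hV hx
  have hp : 0 < dist (F x) (F y₀) := dist_pos.2 (hF.ne x y₀ hy₀)
  have hb : BddAbove ((fun y => dist (F x) (F y)) '' V) := by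
    refine ⟨max 0 (η (4 * L) * dist (F x) (F y₀)), ?_⟩
    rintro _ ⟨y, hy, rfl⟩
    by_cases ha : Apart 𝒰 V x y
    · exact le_max_of_le_right (hF.qs _ x y y₀ ha hy₀
        ((Metric.dist_le_diam_of_mem Metric.isBounded_of_compactSpace hx hy).trans hd))
    · refine le_max_of_le_left (dist_le_zero.2 ?_)
      by_contra hne
      exact ha ⟨hx, hy, fun e => hne (congrArg F e),
        fun U hU hUV h => hne (hF.const U hU hUV x h.1 y h.2)⟩
  have hle : ∀ y ∈ V, dist (F x) (F y) ≤ sSup ((fun y => dist (F x) (F y)) '' V) := fun y hy =>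
    le_csSup hb (mem_image_of_mem _ hy)
  have hs := hp.trans_le (hle y₀ hy₀.2.1)
  obtain ⟨_, ⟨y, hy, rfl⟩, hy'⟩ := exists_lt_of_lt_csSup
    (Nonempty.image (fun y => dist (F x) (F y)) ⟨x, hx⟩) (half_lt_self hs)
  generalize sSup ((fun y => dist (F x) (F y)) '' V) = s at hle hs hy'
  have e : ∀ a b, dist ((F a - F x) / s) ((F b - F x) / s) = dist (F a) (F b) / s := fun a b => by
    rw [dist_eq_norm, dist_eq_norm, ← sub_div, sub_sub_sub_cancel_right, norm_div,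
      Complex.norm_real, Real.norm_of_nonneg hs.le]
  refine ⟨fun a => (F a - F x) / s, ⟨fun U hU hUV a ha b hb => ?_, fun a b hab h => ?_,
    fun t a b c hab hac h => ?_⟩, fun a ha => ?_, x, hx, y, hy, ?_⟩
  · rw [hF.const U hU hUV a ha b hb]
  · have h1 := e a b
    rw [h, dist_self, eq_comm, div_eq_zero_iff] at h1
    exact h1.elim (fun h2 => hF.ne a b hab (dist_eq_zero.1 h2)) hs.ne'
  · rw [e, e, ← mul_div_assoc]
    exact div_le_div_of_nonneg_right (hF.qs t a b c hab hac h) hs.le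
  · rw [norm_div, Complex.norm_real, Real.norm_of_nonneg hs.le, div_le_one hs, ← dist_eq_norm,
      dist_comm]
    exact hle a ha
  · rw [e, le_div_iff₀ hs]
    linarith

theorem exists_GD [Nontrivial Z] (hL : Lam 𝒰 L) {η : ℝ → ℝ} (hη : Gauge η)
    (h : ∀ V ∈ insert univ 𝒰, ∃ F, NQ 𝒰 η V F) : Nonempty (GD Z) := by
  have h' : ∀ V : Set Z, ∃ F : Z → ℂ, V ∈ insert univ 𝒰 → NQ 𝒰 η V F ∧ (∀ x ∈ V, ‖F x‖ ≤ 1) ∧
      ∃ x ∈ V, ∃ y ∈ V, 1 / 2 ≤ dist (F x) (F y) := fun V => by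
    by_cases hV : V ∈ insert univ 𝒰
    · obtain ⟨F, hF⟩ := h V hV
      obtain ⟨F', hF'⟩ := nd1_norm hL hV hF
      exact ⟨F', fun _ => hF'⟩
    · exact ⟨0, fun h => absurd h hV⟩
  choose F hF using h'
  exact ⟨⟨𝒰, L, η, F, hL, hη, fun V hV => (hF V hV).1, fun V hV => (hF V hV).2.1,
    fun V hV => (hF V hV).2.2⟩⟩

end KAC
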