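import Pool.Agent.Lib.MP_e1e491_gt.Ac.Tr1

/-! One distortion function for all nodes. -/

namespace KAC

open Set KKC
open scoped Pointwise Classical

theorem nd2_add {a b : ℝ → ℝ} (ha : Gauge a) (hb : Gauge b) : Gauge fun t => a t + b t := by
  refine ⟨ha.1.add hb.1, fun t => add_nonneg (ha.2.1 t) (hb.2.1 t), fun δ hδ => ?_⟩
  obtain ⟨e, he, h1⟩ := ha.2.2 (δ / 2) (half_pos hδ)
  obtain ⟨e', he', h2⟩ := hb.2.2 (δ / 2) (half_pos hδ)
  refine ⟨min e e', lt_min he he', ?_⟩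
  linarith [ha.1 (min_le_left e e'), hb.1 (min_le_right e e')]

theorem nd2_scale {a : ℝ → ℝ} (ha : Gauge a) {c : ℝ} (hc : 0 < c) : Gauge fun t => a (c * t) := by
  refine ⟨fun s t h => ha.1 (mul_le_mul_of_nonneg_left h hc.le), fun t => ha.2.1 _, fun δ hδ => ?_⟩
  obtain ⟨e, he, h1⟩ := ha.2.2 δ hδ
  refine ⟨e / c, div_pos he hc, ?_⟩
  change a (c * (e / c)) ≤ δ
  rw [mul_div_cancel₀ _ hc.ne']
  exact h1

theorem nd2_fin {α : Type} {F : Set α} (hF : F.Finite) (e : ∀ W ∈ F, ℝ → ℝ)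
    (he : ∀ W hW, Gauge (e W hW)) : ∃ η, Gauge η ∧ ∀ W hW t, e W hW t ≤ η t := by
  induction F, hF using Set.Finite.induction_on with
  | empty =>
    exact ⟨fun _ => 0, ⟨monotone_const, fun _ => le_rfl, fun δ hδ => ⟨1, one_pos, hδ.le⟩⟩,
      fun W hW => hW.elim⟩
  | @insert a s _ _ ih =>
    obtain ⟨η, hη, h⟩ := ih (fun W hW => e W (Or.inr hW)) fun W hW => he _ _
    refine ⟨_, nd2_add (he a (Or.inl rfl)) hη, ?_⟩
    rintro W (rfl | hW) t
    · exact le_add_of_nonneg_right (hη.2.1 t)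
    · exact le_add_of_nonneg_of_le ((he a _).2.1 t) (h W hW t)

theorem nd2_sub {Z : Type} {𝒞 : Set (Set Z)} {o : Fin 3 → Z} {U W : Set Z} (hU : U ∈ 𝒞)
    (h : U ⊆ W) (hW : W ∈ small 𝒞 o) : U ∈ small 𝒞 o :=
  ⟨hU, fun i j hi hj => hW.2 i j (h hi) (h hj)⟩

theorem nd2_ssub {G Z : Type} [Group G] [MulAction G Z] (g : G) {U W : Set Z} (h : U ⊂ W) :
    g • U ⊂ g • W :=
  ⟨smul_set_mono h.1, fun h' => h.2 (smul_set_subset_smul_set_iff.1 h')⟩

variable {G Z : Type} [Group G] [MetricSpace Z] [CompactSpace Z] [MulAction G Z] (H : HB G Z)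
  {𝒞 : Set (Set Z)} (hF : Fam G 𝒞) {o : Fin 3 → Z}
include H hF

theorem nq_all (ho : Function.Injective o)
    (h : ∀ V ∈ insert univ (small 𝒞 o), ∃ η F, Gauge η ∧ NQ (small 𝒞 o) η V F) :
    ∃ η, Gauge η ∧ ∀ V ∈ insert univ (small 𝒞 o), ∃ F, NQ (small 𝒞 o) η V F := by
  obtain ⟨F, M, hFf, hFs, hM, hmod⟩ := exists_models H hF ho
  choose e f he hf using h
  have hM0 : 0 < M := by linarith
  obtain ⟨η, hη, hle⟩ := nd2_fin hFf (fun W hW t => e W (Or.inr (hFs hW)) (M * M * t))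
    fun W hW => nd2_scale (he _ _) (mul_pos hM0 hM0)
  refine ⟨_, nd2_add (he univ (Or.inl rfl)) hη, ?_⟩
  rintro V (rfl | hV)
  · have N := hf univ (Or.inl rfl)
    refine ⟨_, N.const, N.ne, fun t x y z h1 h2 h3 => (N.qs t x y z h1 h2 h3).trans ?_⟩
    exact mul_le_mul_of_nonneg_right (le_add_of_nonneg_right (hη.2.1 t)) dist_nonneg
  obtain ⟨g, W, hW, rfl, hd⟩ := hmod V hV
  have N := hf W (Or.inr (hFs hW))
  have hap : ∀ x y, Apart (small 𝒞 o) (g • W) x y →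
      Apart (small 𝒞 o) W (g⁻¹ • x) (g⁻¹ • y) := by
    rintro x y ⟨hx, hy, hne, hU⟩
    refine ⟨mem_smul_set_iff_inv_smul_mem.1 hx, mem_smul_set_iff_inv_smul_mem.1 hy,
      fun e => hne (MulAction.injective _ e), fun U hU1 hU2 hU3 => ?_⟩
    exact hU (g • U) (nd2_sub (hF.smul g U hU1.1) (smul_set_mono hU2.1) hV) (nd2_ssub g hU2)
      ⟨mem_smul_set_iff_inv_smul_mem.2 hU3.1, mem_smul_set_iff_inv_smul_mem.2 hU3.2⟩
  refine ⟨fun x => f W (Or.inr (hFs hW)) (g⁻¹ • x), fun U hU1 hU2 x hx y hy => ?_,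
    fun x y hxy => N.ne _ _ (hap x y hxy), fun t x y z h1 h2 h3 => ?_⟩
  · have h2 := nd2_ssub g⁻¹ hU2
    rw [inv_smul_smul] at h2
    exact N.const _ (nd2_sub (hF.smul g⁻¹ U hU1.1) h2.1 (hFs hW)) h2 _ (smul_mem_smul_set hx) _
      (smul_mem_smul_set hy)
  · have a1 := hap x y h1
    have a2 := hap x z h2
    have b1 := (hd _ a1.1 _ a1.2.1).2
    have b2 := (hd _ a2.1 _ a2.2.1).1
    rw [smul_inv_smul, smul_inv_smul] at b1 b2
    have ht : 0 < t := by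
      by_contra ht
      have := mul_nonpos_of_nonpos_of_nonneg (not_lt.1 ht) (dist_nonneg (x := x) (y := z))
      linarith [dist_pos.2 h1.2.2.1]
    have hs : 0 < H.sc g := Real.rpow_pos_of_pos (by linarith [H.ha]) _
    have key : dist (g⁻¹ • x) (g⁻¹ • y) ≤ M * M * t * dist (g⁻¹ • x) (g⁻¹ • z) := by
      refine le_of_mul_le_mul_left ?_ hs
      have c1 := mul_le_mul_of_nonneg_left h3 hM0.le
      have c2 := mul_le_mul_of_nonneg_left b2 (mul_pos hM0 ht).le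
      linarith
    refine (N.qs _ _ _ _ a1 a2 key).trans (mul_le_mul_of_nonneg_right ?_ dist_nonneg)
    exact le_add_of_nonneg_of_le ((he univ _).2.1 t) (hle W hW t)

end KAC
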