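import Pool.Agent.Lib.MP_e1e491_gt.Ac.Po1

/-! Porosity of the image of a limit set. -/

namespace KAC

open Set KKC
open scoped Pointwise Classical

variable {G Z : Type} [Group G] [MetricSpace Z] [CompactSpace Z] [MulAction G Z] (H : HB G Z)
  {A : Subgroup G} {C : Set Z}

theorem po2_pos {X : Type} [MetricSpace X] {f : X → ℂ} (hf : KP2.WQS f) (T : ℝ) :
    ∃ K : ℝ, 0 < K ∧ ∀ x y z, dist x y ≤ T * dist x z →
      dist (f x) (f y) ≤ K * dist (f x) (f z) := by
  obtain ⟨K, hK⟩ := hf.1 T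
  exact ⟨|K| + 1, by positivity, fun x y z h => (hK x y z h).trans
    (mul_le_mul_of_nonneg_right (by linarith [le_abs_self K]) dist_nonneg)⟩

theorem po2_dist {s : ℝ} (hs : 0 < s) (a b c : ℂ) :
    dist ((a - c) / (s : ℂ)) ((b - c) / (s : ℂ)) = dist a b / s := by
  rw [dist_eq_norm, dist_eq_norm, ← sub_div, sub_sub_sub_cancel_right, norm_div,
    Complex.norm_real, Real.norm_eq_abs, abs_of_pos hs]

theorem po2_norm {s : ℝ} (hs : 0 < s) (a c : ℂ) : ‖(a - c) / (s : ℂ)‖ = dist c a / s := by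
  rw [norm_div, Complex.norm_real, Real.norm_eq_abs, abs_of_pos hs, dist_comm, dist_eq_norm]

open Filter in
theorem po2_blow {X : Type} [MetricSpace X] {f : X → ℂ} (hf : KP2.WQS f) {p q y : ℕ → X}
    {g : ℕ → X → X} (hs : ∀ n, 0 < dist (f (p n)) (f (q n)))
    (far : ∀ η > 0, ∃ M : ℝ, 0 < M ∧ ∀ᶠ n in atTop, ∀ x, η ≤ dist x (y n) →
      dist (p n) (g n x) ≤ M * dist (p n) (q n))
    (up : ∀ η > 0, ∃ K : ℝ, 0 < K ∧ ∀ᶠ n in atTop, ∀ x x', η ≤ dist x (y n) →
      η ≤ dist x' (y n) → dist (g n x) (g n x') ≤ K * (dist x x' * dist (p n) (q n)))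
    (low : ∃ K : ℝ, 0 < K ∧ ∀ n x x', dist x x' * dist (p n) (q n) ≤ K * dist (g n x) (g n x'))
    (out : ∀ M : ℝ, ∃ η > 0, ∀ᶠ n in atTop, ∀ x, dist x (y n) < η →
      M * dist (p n) (q n) ≤ dist (p n) (g n x))
    (onto : ∀ (n : ℕ) w, dist w (f (p n)) ≤ (n + 1) * dist (f (p n)) (f (q n)) →
      ∃ x, (n + 1) * dist w (f (g n x)) < dist (f (p n)) (f (q n))) :
    Blow (fun n x => (f (g n x) - f (p n)) / (dist (f (p n)) (f (q n)) : ℝ)) y := by
  have bd : ∀ η > 0, ∃ R : ℝ, 0 < R ∧ ∀ᶠ n in atTop, ∀ x, η ≤ dist x (y n) →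
      dist (f (p n)) (f (g n x)) ≤ R * dist (f (p n)) (f (q n)) := by
    intro η hη
    obtain ⟨M, -, hM⟩ := far η hη
    obtain ⟨R, hR, h1⟩ := po2_pos hf M
    exact ⟨R, hR, hM.mono fun n hn x hx => h1 _ _ _ (hn x hx)⟩
  refine ⟨fun η hη => ?_, fun η hη δ hδ => ?_, fun η hη ε hε => ?_, fun R => ?_,
    fun w ε hε => ?_⟩
  · obtain ⟨R, -, hR⟩ := bd η hη
    refine ⟨R, hR.mono fun n hn x hx => ?_⟩
    rw [po2_norm (hs n), div_le_iff₀ (hs n)]
    exact hn x hx
  · obtain ⟨R, hR, h1⟩ := bd η hη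
    obtain ⟨K, hK, h2⟩ := up η hη
    obtain ⟨ε, hε, h3⟩ := hf.2 (δ / (R + 1)) (by positivity)
    refine ⟨ε / (2 * K), by positivity, ?_⟩
    filter_upwards [h1, h2] with n h1 h2 x x' hx hx' hd
    rw [po2_dist (hs n), div_le_iff₀ (hs n)]
    have a1 := h1 x hx
    have a3 : dist (g n x) (g n x') ≤ ε * (dist (p n) (q n) / 2) := by
      refine (h2 x x' hx hx').trans ?_
      calc K * (dist x x' * dist (p n) (q n)) ≤ K * (ε / (2 * K) * dist (p n) (q n)) := by gcongr
        _ = _ := by field_simp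
    have key : ∀ z, dist (p n) (q n) / 2 ≤ dist (g n x) z →
        dist (f (g n x)) (f z) ≤ (R + 1) * dist (f (p n)) (f (q n)) →
        dist (f (g n x)) (f (g n x')) ≤ δ * dist (f (p n)) (f (q n)) := by
      intro z b1 b2
      refine (h3 _ _ z (a3.trans (by gcongr))).trans ?_
      calc δ / (R + 1) * dist (f (g n x)) (f z)
          ≤ δ / (R + 1) * ((R + 1) * dist (f (p n)) (f (q n))) := by gcongr
        _ = _ := by field_simp
    have t := dist_triangle_left (p n) (q n) (g n x)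
    rcases le_total (dist (g n x) (p n)) (dist (g n x) (q n)) with h | h
    · refine key (q n) (by linarith) ?_
      have := dist_triangle_left (f (g n x)) (f (q n)) (f (p n))
      linarith
    · refine key (p n) (by linarith) ?_
      rw [dist_comm]
      have := hs n
      linarith
  · obtain ⟨M, hM, h1⟩ := far η hη
    obtain ⟨K, hK, h2⟩ := low
    obtain ⟨R, hR, h3⟩ := po2_pos hf ((M + 1) * (K / ε))
    refine ⟨1 / (2 * R), by positivity, h1.mono fun n h1 x x' hx hx' hd => ?_⟩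
    rw [po2_dist (hs n), le_div_iff₀ (hs n), one_div, inv_mul_le_iff₀ (by positivity)]
    have a1 := h1 x hx
    have a2 : dist (p n) (q n) ≤ K / ε * dist (g n x) (g n x') := by
      rw [div_mul_eq_mul_div, le_div_iff₀ hε, mul_comm]
      exact (mul_le_mul_of_nonneg_right hd dist_nonneg).trans (h2 n x x')
    have key : ∀ z, dist (g n x) z ≤ (M + 1) * dist (p n) (q n) →
        dist (f (g n x)) (f z) ≤ R * dist (f (g n x)) (f (g n x')) := fun z hz =>
      h3 _ _ _ (hz.trans (by rw [mul_assoc]; gcongr))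
    have b0 : 0 ≤ dist (p n) (q n) := dist_nonneg
    have b1 := key (p n) (by rw [dist_comm]; linarith)
    have b2 := key (q n) (by
      have := dist_triangle_left (g n x) (q n) (p n)
      linarith)
    have t := dist_triangle_left (f (p n)) (f (q n)) (f (g n x))
    linarith
  · obtain ⟨ε, hε, h1⟩ := hf.2 (|R| + 1)⁻¹ (by positivity)
    obtain ⟨η, hη, h2⟩ := out ε⁻¹
    refine ⟨η, hη, h2.mono fun n h2 x hx => ?_⟩
    have a1 := h1 _ _ _ ((inv_mul_le_iff₀ hε).1 (h2 x hx))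
    rw [le_inv_mul_iff₀ (by positivity)] at a1
    rw [po2_norm (hs n), le_div_iff₀ (hs n)]
    refine le_trans ?_ a1
    exact mul_le_mul_of_nonneg_right (by linarith [le_abs_self R]) dist_nonneg
  · filter_upwards [tendsto_natCast_atTop_atTop.eventually_ge_atTop ‖w‖,
      tendsto_natCast_atTop_atTop.eventually_ge_atTop ε⁻¹] with n h1 h2
    have h0 := hs n
    have hs' : ((dist (f (p n)) (f (q n)) : ℝ) : ℂ) ≠ 0 := Complex.ofReal_ne_zero.2 h0.ne'
    obtain ⟨x, hx⟩ := onto n (f (p n) + (dist (f (p n)) (f (q n)) : ℝ) * w) (by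
      rw [dist_self_add_left, norm_mul, Complex.norm_real, Real.norm_eq_abs, abs_of_pos h0,
        mul_comm]
      exact mul_le_mul_of_nonneg_right (by linarith) h0.le)
    refine ⟨x, ?_⟩
    have e : w = (f (p n) + (dist (f (p n)) (f (q n)) : ℝ) * w - f (p n)) /
        (dist (f (p n)) (f (q n)) : ℝ) := by
      rw [add_sub_cancel_left, mul_div_cancel_left₀ _ hs']
    rw [e, po2_dist h0, div_lt_iff₀ h0, dist_comm, ← inv_mul_lt_iff₀ hε]
    exact lt_of_le_of_lt (mul_le_mul_of_nonneg_right (by linarith) dist_nonneg) hx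

theorem po2_seq {X : Type} [MetricSpace X] {f : X → ℂ} (hf : KP2.WQS f) {D : ℝ}
    (hD : ∀ x y : X, dist x y ≤ D)
    (hn : ∀ c > 0, ∃ p q : X, ∀ w, dist w (f p) ≤ dist (f p) (f q) →
      ∃ x, dist w (f x) < c * dist (f p) (f q)) {N : ℝ} (hN : 1 ≤ N) :
    ∃ p q : X, N * dist p q ≤ D ∧ 0 < dist (f p) (f q) ∧
      ∀ w, dist w (f p) ≤ N * dist (f p) (f q) → ∃ x, N * dist w (f x) < dist (f p) (f q) := by
  obtain ⟨K, hK, h1⟩ := po2_pos hf N
  obtain ⟨m, hm, hmN, hmK⟩ : ∃ m : ℝ, 2 ≤ m ∧ 2 * N ≤ m ∧ 2 * K ≤ m :=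
    ⟨2 * N + 2 * K, by linarith, by linarith, by linarith⟩
  have hm0 : 0 < m := by linarith
  obtain ⟨p, q', h2⟩ := hn (m⁻¹ * m⁻¹) (by positivity)
  obtain ⟨t, ht⟩ : ∃ t : ℝ, dist (f p) (f q') = m * (m * t) :=
    ⟨m⁻¹ * m⁻¹ * dist (f p) (f q'), by field_simp⟩
  have e : m⁻¹ * m⁻¹ * (m * (m * t)) = t := by field_simp
  rw [ht, e] at h2
  have ht0 : 0 < t := by
    obtain ⟨x, hx⟩ := h2 (f p) (by rw [dist_self, ← ht]; exact dist_nonneg)
    exact dist_nonneg.trans_lt hx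
  have hmt : 2 * t ≤ m * t := by gcongr
  have e1 : dist (f p + (m * t : ℝ)) (f p) = m * t := by
    rw [dist_self_add_left, Complex.norm_real, Real.norm_eq_abs, abs_of_pos (by positivity)]
  obtain ⟨q, hq⟩ := h2 (f p + (m * t : ℝ)) (by rw [e1]; nlinarith)
  have t1 := dist_triangle_left (f p) (f q) (f p + (m * t : ℝ))
  have t2 := dist_triangle (f p + (m * t : ℝ)) (f q) (f p)
  rw [dist_comm (f q) (f p)] at t2
  rw [e1] at t1 t2
  have s1 : dist (f p) (f q) < 2 * (m * t) := by linarith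
  have s2 : m * t < 2 * dist (f p) (f q) := by linarith
  have s0 : 0 < dist (f p) (f q) := by linarith
  refine ⟨p, q, le_trans (le_of_not_ge fun h => ?_) (hD p q'), s0, fun w hw => ?_⟩
  · have h3 := h1 _ _ _ h
    rw [ht] at h3
    nlinarith
  · obtain ⟨x, hx⟩ := h2 w (by nlinarith)
    refine ⟨x, ?_⟩
    have : N * dist w (f x) < N * t := by gcongr
    nlinarith

theorem exists_por (hq : H.QC A C) (hA : ∀ a ∈ A, a • C = C) (hC : IsClosed C) {f : Z → ℂ}
    (hf : KP2.WQS (C.restrict f)) (hi : InjOn f C) : ∃ c > 0, Por C f c := by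
  by_contra hn
  have hn' : ∀ c > 0, ∃ p q : C, ∀ w, dist w (C.restrict f p) ≤
      dist (C.restrict f p) (C.restrict f q) →
      ∃ x : C, dist w (C.restrict f x) < c * dist (C.restrict f p) (C.restrict f q) := by
    intro c hc
    by_contra h
    refine hn ⟨c, hc, fun p hp q hq => ?_⟩
    by_contra h1
    refine h ⟨⟨p, hp⟩, ⟨q, hq⟩, fun w hw => ?_⟩
    by_contra h2
    exact h1 ⟨w, hw, fun x hx => le_of_not_gt fun h3 => h2 ⟨⟨x, hx⟩, h3⟩⟩
  have h1n : ∀ n : ℕ, (1 : ℝ) ≤ n + 1 := fun n => by linarith [Nat.cast_nonneg (α := ℝ) n]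
  choose p q hpq hs honto using fun n : ℕ =>
    po2_seq hf (D := H.C) (fun x y => H.dist_le_C x y) hn' (h1n n)
  obtain ⟨L, hL, hy, hv⟩ := hq
  have hC1 := H.hC
  have hC0 : 0 < H.C := by linarith
  have hd : ∀ n, 0 < dist (p n) (q n) := fun n => dist_pos.2 fun e => by
    have := hs n
    rw [e, dist_self] at this
    exact lt_irrefl _ this
  obtain ⟨ρ, hρ⟩ : ∃ ρ : ℕ → ℝ, ∀ n, dist (p n) (q n) = H.C * ρ n :=
    ⟨fun n => H.C⁻¹ * dist (p n) (q n), fun n => by field_simp⟩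
  have hρ0 : ∀ n, 0 < ρ n := fun n => (mul_pos_iff_of_pos_left hC0).1 (hρ n ▸ hd n)
  have hρd : ∀ n, ρ n ≤ dist (p n) (q n) := fun n => by
    rw [hρ]
    exact le_mul_of_one_le_left (hρ0 n).le hC1
  have hρn : ∀ n : ℕ, (n + 1) * ρ n ≤ 1 := fun n => by
    have := hpq n
    rw [hρ] at this
    exact le_of_mul_le_mul_left (by linarith) hC0
  choose h hhA hw using fun n => hv (p n) (p n).2 (ρ n) (hρ0 n)
    ((le_mul_of_one_le_left (hρ0 n).le (h1n n)).trans (hρn n))
  choose y hyC hyd using fun n => hy (h n)⁻¹ (A.inv_mem (hhA n))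
  have hm : ∀ a ∈ A, ∀ x ∈ C, a • x ∈ C := fun a ha x hx => hA a ha ▸ smul_mem_smul_set hx
  have near : ∀ n, dist (y n) (H.loc (h n)⁻¹) ≤ L * (L * ρ n) := fun n => by
    refine (hyd n).trans ?_
    rw [H.sc_inv]
    exact mul_le_mul_of_nonneg_left (hw n).2.1 (by linarith)
  have small : ∀ η > 0, ∀ᶠ n in Filter.atTop, L * (L * ρ n) ≤ η := by
    intro η hη
    filter_upwards [tendsto_natCast_atTop_atTop.eventually_ge_atTop (L * L / η)] with n hn
    rw [div_le_iff₀ hη] at hn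
    have a1 := hρn n
    have a2 := hρ0 n
    have a3 : L * L * ρ n ≤ n * η * ρ n := by gcongr
    nlinarith
  have far : ∀ η > 0, ∃ M : ℝ, 1 ≤ M ∧ ∀ᶠ n in Filter.atTop, ∀ x, η ≤ dist x (y n) →
      dist (h n • x) (p n) ≤ M * ρ n := by
    intro η hη
    obtain ⟨C₂, hC₂, h1⟩ := H.view_far L hL
    refine ⟨max 1 (C₂ / (η / 2)), le_max_left _ _, ?_⟩
    filter_upwards [small (η / 2) (half_pos hη)] with n hn x hx
    have a1 := h1 _ _ _ (hw n) (h n • x)
    rw [inv_smul_smul] at a1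
    have a2 := near n
    have a3 := dist_triangle_right x (y n) (H.loc (h n)⁻¹)
    refine le_trans ?_ (mul_le_mul_of_nonneg_right (le_max_right _ _) (hρ0 n).le)
    rw [div_mul_eq_mul_div, le_div_iff₀ (half_pos hη)]
    exact (mul_le_mul_of_nonneg_left (by linarith) dist_nonneg).trans a1
  obtain ⟨C₃, hC₃, hfo⟩ := H.view_formula L hL
  have : CompactSpace C := isCompact_iff_compactSpace.1 hC.isCompact
  refine (po2_blow hf (p := p) (q := q) (y := fun n => ⟨y n, hyC n⟩)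
    (g := fun n x => ⟨h n • (x : Z), hm _ (hhA n) _ x.2⟩) hs (fun η hη => ?_) (fun η hη => ?_)
    ⟨C₃ * H.C, by positivity, fun n x x' => ?_⟩ (fun M => ?_) fun n w hw' => ?_).false
    hf.continuous (injOn_iff_injective.1 hi)
  · obtain ⟨M, hM, h1⟩ := far η hη
    refine ⟨M, by linarith, h1.mono fun n hn x hx => ?_⟩
    rw [dist_comm]
    exact (hn x hx).trans (mul_le_mul_of_nonneg_left (hρd n) (by linarith))
  · obtain ⟨M, hM, h1⟩ := far η hη
    refine ⟨C₃ * (M * M), by positivity, h1.mono fun n hn x x' hx hx' => ?_⟩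
    have a1 := (hfo _ _ _ (hw n) (h n • (x : Z)) (h n • (x' : Z))).2
    rw [inv_smul_smul, inv_smul_smul] at a1
    have a0 := hρ0 n
    have a4 := hρd n
    have b : ρ n ≤ M * ρ n := le_mul_of_one_le_left a0.le hM
    have a2 := max_le (hn x hx) b
    have a3 := max_le (hn x' hx') b
    change dist (h n • (x : Z)) (h n • (x' : Z)) ≤ _ * (dist (x : Z) (x' : Z) * _)
    refine le_of_mul_le_mul_left (a1.trans ?_) a0
    calc _ ≤ C₃ * (dist (x : Z) (x' : Z) * (M * ρ n) * (M * dist (p n) (q n))) := by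
          gcongr
          exact a3.trans (by gcongr)
      _ = _ := by ring
  · have a1 := (hfo _ _ _ (hw n) (h n • (x : Z)) (h n • (x' : Z))).1
    rw [inv_smul_smul, inv_smul_smul] at a1
    have a0 := hρ0 n
    rw [hρ]
    change dist (x : Z) (x' : Z) * _ ≤ _ * dist (h n • (x : Z)) (h n • (x' : Z))
    have a2 : dist (x : Z) (x' : Z) * ρ n * ρ n ≤
        C₃ * (ρ n * dist (h n • (x : Z)) (h n • (x' : Z))) := by
      refine le_trans ?_ a1
      gcongr <;> exact le_max_right _ _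
    have a3 : dist (x : Z) (x' : Z) * ρ n ≤ C₃ * dist (h n • (x : Z)) (h n • (x' : Z)) :=
      le_of_mul_le_mul_right (by linarith) a0
    nlinarith
  · obtain ⟨η, hη, h1⟩ := H.view_out L (max 1 (M * H.C)) hL (le_max_left _ _)
    refine ⟨η / 2, half_pos hη, ?_⟩
    filter_upwards [small (η / 4) (by positivity)] with n hn x hx
    have a0 := hρ0 n
    rw [hρ, dist_comm (p n), ← mul_assoc]
    refine (mul_le_mul_of_nonneg_right (le_max_right 1 _) a0.le).trans (le_of_not_ge fun a => ?_)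
    have a1 := h1 _ _ _ (hw n) (h n • (x : Z)) a
    rw [inv_smul_smul] at a1
    have a2 := near n
    have a3 := dist_triangle (x : Z) (y n) (H.loc (h n)⁻¹)
    have a4 := (hw n).2.1
    have a5 : L * ρ n ≤ L * (L * ρ n) := le_mul_of_one_le_left (by positivity) hL
    have a6 : dist (x : Z) (y n) < η / 2 := hx
    exact absurd a1 (not_le.2 (max_lt (by linarith) (by linarith)))
  · obtain ⟨x, hx⟩ := honto n w hw'
    refine ⟨⟨(h n)⁻¹ • (x : Z), hm _ (A.inv_mem (hhA n)) _ x.2⟩, ?_⟩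
    simpa only [smul_inv_smul] using hx

end KAC
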