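import Pool.Agent.Lib.MP_e1e491_gt.Ac.Defs
import Pool.Agent.Lib.MP_e1e491_gt.Ac.Bu

/-! Charts of the sphere. -/

namespace KAC

open Set KKC
open scoped Classical NNReal

theorem exists_chart (p : KP2.S2) {ρ : ℝ} (hρ : 0 < ρ) : ∃ (φ : KP2.S2 → ℂ) (c L : ℝ), 0 < c ∧
    ∀ x y, ρ ≤ dist x p → ρ ≤ dist y p →
      c * dist x y ≤ dist (φ x) (φ y) ∧ dist (φ x) (φ y) ≤ L * dist x y := by
  have hp : ‖p.1‖ = 1 := mem_sphere_zero_iff_norm.1 p.2
  have h0 : p.1 ≠ 0 := fun e => by simp [e] at hp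
  have : Fact (Module.finrank ℝ (EuclideanSpace ℝ (Fin 3)) = 2 + 1) := ⟨by simp⟩
  let U := (OrthonormalBasis.fromOrthogonalSpanSingleton (𝕜 := ℝ) 2 h0).repr.trans
    Complex.orthonormalBasisOneI.repr.symm
  have h1 : ∀ x : KP2.S2, ρ ≤ dist x p →
      inner ℝ p.1 (EuclideanGeometry.inversion p.1 1 x.1) = 1 / 2 := fun x hx => by
    have hx1 : ‖x.1‖ = 1 := mem_sphere_zero_iff_norm.1 x.2
    have a1 : dist x.1 p.1 ^ 2 = 2 - 2 * inner ℝ p.1 x.1 := by
      rw [dist_comm, dist_eq_norm, norm_sub_sq_real, hx1, hp]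
      ring
    have a2 : dist x.1 p.1 ≠ 0 := (hρ.trans_le hx).ne'
    rw [EuclideanGeometry.inversion, vadd_eq_add, vsub_eq_sub, inner_add_right, inner_smul_right,
      inner_sub_right, real_inner_self_eq_norm_sq, hp]
    field_simp
    linarith
  refine ⟨fun x => U ((ℝ ∙ p.1)ᗮ.orthogonalProjectionOnto (EuclideanGeometry.inversion p.1 1 x.1)),
    1 / 4, 1 / ρ ^ 2, by norm_num, fun x y hx hy => ?_⟩
  have h2 : EuclideanGeometry.inversion p.1 1 x.1 - EuclideanGeometry.inversion p.1 1 y.1 ∈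
      (ℝ ∙ p.1)ᗮ := by
    rw [Submodule.mem_orthogonal_singleton_iff_inner_right, inner_sub_right, h1 x hx, h1 y hy,
      sub_self]
  have hx0 : 0 < dist x.1 p.1 := hρ.trans_le hx
  have hy0 : 0 < dist y.1 p.1 := hρ.trans_le hy
  have h3 : ∀ x : KP2.S2, dist x.1 p.1 ≤ 2 := fun x => by
    have a1 := dist_triangle_right x.1 p.1 0
    rw [Metric.mem_sphere.1 x.2, Metric.mem_sphere.1 p.2] at a1
    linarith
  have h4 : dist (U ((ℝ ∙ p.1)ᗮ.orthogonalProjectionOnto (EuclideanGeometry.inversion p.1 1 x.1)))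
      (U ((ℝ ∙ p.1)ᗮ.orthogonalProjectionOnto (EuclideanGeometry.inversion p.1 1 y.1))) =
      1 / (dist x.1 p.1 * dist y.1 p.1) * dist x y := by
    rw [U.dist_map, dist_eq_norm, ← map_sub, Submodule.norm_orthogonalProjectionOnto_apply _ h2,
      ← dist_eq_norm, EuclideanGeometry.dist_inversion_inversion (dist_pos.1 hx0) (dist_pos.1 hy0),
      one_pow]
    rfl
  simp only [h4]
  refine ⟨mul_le_mul_of_nonneg_right (one_div_le_one_div_of_le (mul_pos hx0 hy0) ?_) dist_nonneg,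
    mul_le_mul_of_nonneg_right (one_div_le_one_div_of_le (by positivity) ?_) dist_nonneg⟩
  · nlinarith [h3 x, h3 y]
  · rw [sq]
    exact mul_le_mul hx hy hρ.le hx0.le

theorem st_chart {X : Type} [TopologicalSpace X] [CompactSpace X] {g : X → KP2.S2}
    (hg : Continuous g) {p : KP2.S2} (hp : p ∉ range g) : ∃ (ψ : X → ℂ) (c L : ℝ), 0 < c ∧
      ∀ x y, c * dist (g x) (g y) ≤ dist (ψ x) (ψ y) ∧ dist (ψ x) (ψ y) ≤ L * dist (g x) (g y) := by
  obtain ⟨ρ, hρ, h⟩ := Metric.isOpen_iff.1 (isCompact_range hg).isClosed.isOpen_compl p hp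
  obtain ⟨φ, c, L, hc, h1⟩ := exists_chart p hρ
  have h2 : ∀ x, ρ ≤ dist (g x) p := fun x => not_lt.1 fun e => h e ⟨x, rfl⟩
  exact ⟨fun x => φ (g x), c, L, hc, fun x y => h1 _ _ (h2 x) (h2 y)⟩

theorem st_inj {X Y W : Type} [MetricSpace Y] [MetricSpace W] {g : X → Y} {ψ : X → W} {c : ℝ}
    (hc : 0 < c) (h : ∀ x y, c * dist (g x) (g y) ≤ dist (ψ x) (ψ y))
    (hi : Function.Injective g) : Function.Injective ψ := fun x y e => by
  have h1 := h x y
  rw [e, dist_self] at h1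
  exact hi (dist_le_zero.1 (nonpos_of_mul_nonpos_right h1 hc))

theorem st_pl : ∃ j : ℂ → KP2.Pl, (∀ a, ‖j a‖ ≤ ‖a‖) ∧
    ∀ a b, 1 / 2 * dist a b ≤ dist (j a) (j b) ∧ dist (j a) (j b) ≤ 1 * dist a b := by
  have h1 : ∀ a : ℂ, ‖(fun t => cond t a.im a.re : KP2.Pl)‖ ≤ ‖a‖ := fun a =>
    (pi_norm_le_iff_of_nonneg (norm_nonneg _)).2 fun t => by
      cases t
      · exact Complex.abs_re_le_norm a
      · exact Complex.abs_im_le_norm a
  refine ⟨fun a t => cond t a.im a.re, h1, fun a b => ?_⟩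
  have h2 : ((fun t => cond t a.im a.re) - fun t => cond t b.im b.re : KP2.Pl) =
      fun t => cond t (a - b).im (a - b).re := by
    funext t
    cases t <;> rfl
  rw [dist_eq_norm, dist_eq_norm, h2, one_mul]
  refine ⟨?_, h1 _⟩
  have a1 := norm_le_pi_norm (fun t => cond t (a - b).im (a - b).re : KP2.Pl) false
  have a2 := norm_le_pi_norm (fun t => cond t (a - b).im (a - b).re : KP2.Pl) true
  have a3 := Complex.norm_le_abs_re_add_abs_im (a - b)
  change |(a - b).re| ≤ _ at a1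
  change |(a - b).im| ≤ _ at a2
  linarith

theorem to_sphere {Z : Type} [MetricSpace Z] {f : Z → ℂ} (hf : KP2.WQS f)
    (hi : Function.Injective f) {M : ℝ} (hM : ∀ x, ‖f x‖ ≤ M) :
    ∃ g : Z → KP2.S2, KP2.WQS g ∧ Function.Injective g := by
  obtain ⟨j, h1, h2⟩ := st_pl
  obtain ⟨φ, c, L, hc, hφ⟩ := KP2.exists_lift M
  have h3 : KP2.WQS fun x => j (f x) := hf.bilip one_half_pos fun x y => h2 _ _
  have h4 := fun x y => hφ _ _ ((h1 _).trans (hM x)) ((h1 _).trans (hM y))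
  exact ⟨fun x => φ (j (f x)), h3.bilip hc h4, st_inj hc (fun x y => (h4 x y).1)
    (st_inj one_half_pos (fun x y => (h2 _ _).1) hi)⟩

theorem to_plane {Z : Type} [MetricSpace Z] [CompactSpace Z] {ι : Z → KP2.S2} (hι : Continuous ι)
    (hι' : Function.Injective ι) {C : Set Z} (hC : IsClosed C) (hne : C ≠ univ) {f : C → KP2.S2}
    (hf : KP2.WQS f) (hi : Function.Injective f) :
    ∃ F : Z → ℂ, KP2.WQS (C.restrict F) ∧ InjOn F C := by
  have : CompactSpace C := isCompact_iff_compactSpace.1 hC.isCompact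
  have h1 : ∃ p, p ∉ range f := by
    by_contra h
    push Not at h
    obtain ⟨z, hz⟩ := (ne_univ_iff_exists_notMem C).1 hne
    let e : C ≃ₜ KP2.S2 :=
      Continuous.homeoOfEquivCompactToT2 (f := Equiv.ofBijective f ⟨hi, h⟩) hf.continuous
    have a1 : Continuous fun x => ι (e.symm x).1 :=
      hι.comp (continuous_subtype_val.comp e.symm.continuous)
    obtain ⟨ψ, c, L, hc, a2⟩ := st_chart a1 (p := ι z) (by
      rintro ⟨x, hx⟩
      exact hz (hι' hx ▸ (e.symm x).2))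
    refine no_sphere (φ := ψ) (continuous_iff_continuousAt.2 fun x => ?_)
      (st_inj hc (fun x y => (a2 x y).1)
        (hι'.comp (Subtype.val_injective.comp e.symm.injective)))
    refine tendsto_iff_dist_tendsto_zero.2
      (squeeze_zero (fun _ => dist_nonneg) (fun y => (a2 y x).2) ?_)
    have a3 := (tendsto_iff_dist_tendsto_zero.1 (a1.tendsto x)).const_mul L
    rwa [mul_zero] at a3
  obtain ⟨p, hp⟩ := h1
  obtain ⟨ψ, c, L, hc, h2⟩ := st_chart hf.continuous hp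
  have h3 : C.restrict (fun z => if h : z ∈ C then ψ ⟨z, h⟩ else 0) = ψ :=
    funext fun z => dif_pos z.2
  refine ⟨fun z => if h : z ∈ C then ψ ⟨z, h⟩ else 0, ?_, injOn_iff_injective.2 ?_⟩
  · rw [h3]
    exact hf.bilip hc h2
  · have h4 := st_inj hc (fun x y => (h2 x y).1) hi
    rw [← h3] at h4
    exact h4

theorem finish {Z : Type} [MetricSpace Z] [CompactSpace Z] {f : Z → KP2.S2} (hw : KP2.WQS f)
    (hi : Function.Injective f) : ∃ η : ℝ≥0 ≃ₜ ℝ≥0,
      Topology.IsEmbedding f ∧ IsQS η f ∧ ∀ x y z : Z, z ≠ x →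
        InnerProductGeometry.angle (f x).1 (f y).1 / InnerProductGeometry.angle (f x).1 (f z).1 ≤
          η (nndist x y / nndist x z) := by
  obtain ⟨η, hη⟩ := hw.exists_eta (K := 2) two_pos
  refine ⟨η, (hw.continuous.isClosedEmbedding hi).isEmbedding, fun x y z hz => ?_,
    fun x y z hz => ?_⟩
  · have h0 : 0 < dist (f x) (f z) := dist_pos.2 fun h => hz (hi h).symm
    rw [← NNReal.coe_le_coe, NNReal.coe_div, coe_nndist, coe_nndist, div_le_iff₀ h0]
    linarith [hη x y z hz, dist_nonneg (x := f x) (y := f y)]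
  · have h0 : 0 < dist (f x) (f z) := dist_pos.2 fun h => hz (hi h).symm
    have h1 := (KP2.angle_le (f x) (f z)).1
    have h2 := (KP2.angle_le (f x) (f y)).2
    rw [div_le_iff₀ (h0.trans_le h1)]
    exact h2.trans ((hη x y z hz).trans (mul_le_mul_of_nonneg_left h1 (NNReal.coe_nonneg _)))

end KAC
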