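import Pool.Agent.Lib.MP_e1e491_gt.GbB

/-! Visual metrics exist and are compact. -/

namespace KAC

open Set KKC KKC.Gb Filter Topology
open scoped Classical

variable {G : Type} [Group G] {S : Finset G}

theorem vis_cmp {a δ : ℝ} (ha : 1 < a) (hS : Subgroup.closure (S : Set G) = ⊤)
    (hδ : ∀ x y z : G, min (gp S x y) (gp S y z) - δ ≤ gp S x z) {ξ ζ : Bdry S} (h : ξ ≠ ζ) :
    a ^ (-bgp S ξ ζ) ≤ (a ^ δ) ^ 2 * (2 * QQ S a (out ξ).1 (out ζ).1) ∧
      QQ S a (out ξ).1 (out ζ).1 / (a ^ δ) ^ 2 ≤ a ^ (-bgp S ξ ζ) := by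
  have h1 : a ^ (-bgp S (mk (out ξ)) (mk (out ζ))) ≤ _ ∧
      _ ≤ a ^ (-bgp S (mk (out ξ)) (mk (out ζ))) :=
    bgp_cmp ha hS hδ (x := out ξ) (y := out ζ) fun e =>
      h ((mk_out ξ).symm.trans (Eq.trans e (mk_out ζ)))
  rwa [mk_out, mk_out] at h1

theorem exists_visual (hS : Subgroup.closure (S : Set G) = ⊤) (hH : Hyperbolic S) :
    ∃ _ : MetricSpace (Bdry S), IsVisual S := by
  obtain ⟨δ, hδ⟩ := id hH
  have hp : 0 < |δ| + 1 := by positivity
  set a : ℝ := 2 ^ (1 / (2 * (|δ| + 1))) with had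
  have ha : 1 < a := Real.one_lt_rpow one_lt_two (by positivity)
  have hA := one_le_A ha hS hδ
  have h2 : (a ^ δ) ^ 2 ≤ 2 := by
    rw [had, ← Real.rpow_mul zero_le_two, ← Real.rpow_natCast, ← Real.rpow_mul zero_le_two]
    refine (Real.rpow_le_rpow_of_exponent_le one_le_two ?_).trans_eq (Real.rpow_one 2)
    rw [show 1 / (2 * (|δ| + 1)) * δ * (2 : ℕ) = δ / (|δ| + 1) by push_cast; field_simp,
      div_le_one hp]
    linarith [le_abs_self δ]
  let d : Bdry S → Bdry S → NNReal := fun ξ ζ =>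
    ⟨QQ S a (out ξ).1 (out ζ).1, QQ_nonneg ha hS _ _⟩
  have d0 : ∀ x, d x x = 0 := fun x => Subtype.ext (QQ_asymp ha hS (out x).2)
  have dc : ∀ x y, d x y = d y x := fun x y => Subtype.ext (QQ_comm hS _ _)
  have d3 : ∀ x y z w, d x w ≤ 2 * max (d x y) (max (d y z) (d z w)) := fun x y z w => by
    rw [← NNReal.coe_le_coe]
    push_cast
    have e1 := QQ_ultra ha hS hδ (out x).1 (out y).1 (out w).1
    have e2 := QQ_ultra ha hS hδ (out y).1 (out z).1 (out w).1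
    set m := max (QQ S a (out x).1 (out y).1)
      (max (QQ S a (out y).1 (out z).1) (QQ S a (out z).1 (out w).1)) with hm
    have m0 : 0 ≤ m := le_max_of_le_left (QQ_nonneg ha hS _ _)
    have e3 : max (QQ S a (out x).1 (out y).1) (QQ S a (out y).1 (out w).1) ≤ a ^ δ * m :=
      max_le ((le_max_left _ _).trans (le_mul_of_one_le_left m0 hA))
        (e2.trans (mul_le_mul_of_nonneg_left (le_max_right _ _) (by linarith)))
    calc QQ S a (out x).1 (out w).1 ≤ a ^ δ * (a ^ δ * m) :=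
          e1.trans (mul_le_mul_of_nonneg_left e3 (by linarith))
      _ = (a ^ δ) ^ 2 * m := by ring
      _ ≤ 2 * m := mul_le_mul_of_nonneg_right h2 m0
  let P := PseudoMetricSpace.ofPreNNDist d d0 dc
  have u1 : ∀ x y, dist x y ≤ QQ S a (out x).1 (out y).1 :=
    PseudoMetricSpace.dist_ofPreNNDist_le d d0 dc
  have u2 : ∀ x y, QQ S a (out x).1 (out y).1 ≤ 2 * dist x y :=
    PseudoMetricSpace.le_two_mul_dist_ofPreNNDist d d0 dc d3
  refine ⟨{ P with eq_of_dist_eq_zero := fun {x y} h => ?_ }, a, 8, ha, by norm_num,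
    fun ξ ζ h => ?_⟩
  · have h1 := u2 x y
    have h' : dist x y = 0 := h
    rw [h', mul_zero] at h1
    exact (mk_out x).symm.trans (Eq.trans (Quot.sound (asymp_of_QQ ha hS hδ (out x).2 (out y).2
      (le_antisymm h1 (QQ_nonneg ha hS _ _)))) (mk_out y))
  · obtain ⟨h3, h4⟩ := vis_cmp ha hS hδ h
    rw [div_le_iff₀' (by positivity)] at h4
    have q0 := QQ_nonneg ha hS (out ξ).1 (out ζ).1
    have b0 : 0 ≤ a ^ (-bgp S ξ ζ) := (Real.rpow_pos_of_pos (by linarith) _).le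
    have h5 := u1 ξ ζ
    have h6 := u2 ξ ζ
    constructor
    · show _ ≤ dist ξ ζ
      nlinarith
    · show dist ξ ζ ≤ _
      nlinarith

theorem bdry_compact (hS : Subgroup.closure (S : Set G) = ⊤) (hH : Hyperbolic S)
    [MetricSpace (Bdry S)] (hV : IsVisual S) : CompactSpace (Bdry S) := by
  obtain ⟨δ, hδ⟩ := id hH
  obtain ⟨a, C, ha, hC, hV⟩ := hV
  have hA := one_le_A ha hS hδ
  set A := a ^ δ with hAd
  have a0 : 0 < a := by linarith
  have hp : ∀ t : ℝ, 0 < a ^ t := fun t => Real.rpow_pos_of_pos a0 _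
  have v : ∀ ξ ζ : Bdry S, dist ξ ζ ≤ C * (A ^ 2 * (2 * QQ S a (out ξ).1 (out ζ).1)) :=
    fun ξ ζ => by
      by_cases h : ξ = ζ
      · have := QQ_nonneg ha hS (out ξ).1 (out ζ).1
        rw [h, dist_self, ← h]
        rw [← h] at this
        positivity
      · exact (hV ξ ζ h).2.trans (mul_le_mul_of_nonneg_left (vis_cmp ha hS hδ h).1 hC.le)
  choose r hr hr' using fun (ξ : Bdry S) (n : ℕ) => exists_ray ha hS hδ (out ξ).2 n
  refine ⟨isCompact_iff_ultrafilter_le_nhds.2 fun U _ => ?_⟩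
  have ex : ∀ n, ∃ g, ∀ᶠ ξ in (U : Filter (Bdry S)), r ξ n = g := fun n => by
    obtain ⟨g, -, hg⟩ := (U.map fun ξ => r ξ n).eq_pure_of_finite_mem (finite_wlen hS n)
      (mem_map.2 (Eventually.of_forall fun ξ => (hr ξ n).le))
    have : {g} ∈ U.map fun ξ => r ξ n := by rw [hg]; exact rfl
    exact ⟨g, this⟩
  choose g hg using ex
  have hb : ∀ N : ℕ, ∀ i ≥ N, ∀ j ≥ N, bb S a (g i) (g j) ≤ A * (A * a ^ (-(N : ℝ))) := by
    intro N i hi j hj
    obtain ⟨ξ, h1, h2⟩ := ((hg i).and (hg j)).exists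
    have mono : ∀ k ≥ N, A * a ^ (-(k : ℝ)) ≤ A * a ^ (-(N : ℝ)) := fun k hk =>
      mul_le_mul_of_nonneg_left (Real.rpow_le_rpow_of_exponent_le ha.le
        (neg_le_neg (by exact_mod_cast hk))) (by linarith)
    rw [← QQ_const ha hS]
    refine (QQ_ultra ha hS hδ _ (out ξ).1 _).trans (mul_le_mul_of_nonneg_left (max_le ?_ ?_)
      (by linarith))
    · rw [QQ_comm hS, ← h1]; exact (hr' ξ i).trans (mono i hi)
    · rw [← h2]; exact (hr' ξ j).trans (mono j hj)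
  have small : ∀ K ε : ℝ, 0 < ε → ∃ N : ℕ, K * a ^ (-(N : ℝ)) < ε := fun K ε hε => by
    have t : Tendsto (fun n : ℕ => K * a ^ (-(n : ℝ))) atTop (𝓝 (K * 0)) :=
      ((tendsto_rpow_atBot_of_base_gt_one a ha).comp
        (tendsto_neg_atTop_atBot.comp tendsto_natCast_atTop_atTop)).const_mul K
    rw [mul_zero] at t
    exact (t.eventually (gt_mem_nhds hε)).exists
  have hgg : Asymp S g g := asymp_iff.2 fun M => by
    obtain ⟨N, hN⟩ := small (A * A) _ (hp (-M))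
    exact ⟨N, fun i hi j hj => (bb_le ha).1 ((hb N i hi j hj).trans (by linarith))⟩
  refine ⟨mk ⟨g, hgg⟩, trivial, Metric.tendsto_nhds (u := id).2 fun ε hε => ?_⟩
  obtain ⟨N, hN⟩ := small (C * (A ^ 2 * (2 * (A ^ 2 * (A * (A * A)))))) ε hε
  refine (hg N).mono fun ξ h => lt_of_le_of_lt ((v _ _).trans ?_) hN
  have e1 := QQ_change ha hS hδ (u := (out ξ).1) (v := (out (mk ⟨g, hgg⟩)).1) (v' := g)
    (Or.inl rfl) (Or.inr (asymp_of_eq hS hH (x := out _) (y := ⟨g, hgg⟩) (mk_out _)))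
  have e2 := QQ_ultra ha hS hδ (out ξ).1 (fun _ => g N) g
  have e3 : QQ S a (fun _ => g N) g ≤ A * (A * a ^ (-(N : ℝ))) :=
    QQ_le ha hS (N := N) fun i hi => hb N N le_rfl i hi
  have e4 : QQ S a (out ξ).1 (fun _ => g N) ≤ A * (A * a ^ (-(N : ℝ))) := by
    rw [← h]
    exact (hr' ξ N).trans (le_mul_of_one_le_left (mul_nonneg (by linarith) (hp _).le) hA)
  have e5 := e1.trans (mul_le_mul_of_nonneg_left (e2.trans (mul_le_mul_of_nonneg_left
    (max_le e4 e3) (by linarith))) (by positivity))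
  calc _ ≤ C * (A ^ 2 * (2 * (A ^ 2 * (A * (A * (A * a ^ (-(N : ℝ)))))))) := by
        have : 0 ≤ A ^ 2 := by positivity
        gcongr
        exact e5
    _ = _ := by ring

end KAC
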