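import Pool.Agent.Lib.MP_e1e491_gt.Ac.Sub3
import Pool.Agent.Lib.MP_e1e491_gt.Ac.Vis

/-! The structure `HB` on the limit set of a quasiconvex subgroup. -/

namespace KAC

open Set KKC
open scoped Pointwise Classical

variable {G Z : Type} [Group G] [MetricSpace Z] [CompactSpace Z] [MulAction G Z] (H : HB G Z)
  {A : Subgroup G} {C : Set Z} {S : Finset A} {K B : ℝ}

omit [CompactSpace Z] in
theorem sub4_ev {u v : ℕ → A} {ξ ζ : Z} (hu : Tends H u ξ) (hv : Tends H v ζ)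
    (hne : ξ ≠ ζ) : ∀ᶠ i in Filter.atTop,
      H.q (.inl (u i)) (.inl (v i)) ≤ H.C ^ 3 * dist ξ ζ ∧
      dist ξ ζ ≤ H.C ^ 3 * H.q (.inl (u i)) (.inl (v i)) := by
  have hC := H.hC
  have h0 : 0 < H.C := by linarith
  have hd : 0 < dist ξ ζ := dist_pos.2 hne
  have h3 : 1 ≤ H.C ^ 3 := one_le_pow₀ hC
  have hs : 0 < dist ξ ζ / H.C ^ 3 := by positivity
  have hs' : dist ξ ζ / H.C ^ 3 ≤ dist ξ ζ := div_le_self hd.le h3
  filter_upwards [hu.eventually (gt_mem_nhds hs), hv.eventually (gt_mem_nhds hs)] with i h1 h2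
  have hd1 : dist ξ ζ ≤ H.C * dist ξ ζ := le_mul_of_one_le_left hd.le hC
  constructor
  · have a1 : H.q (.inr ξ) (.inl (v i)) ≤ H.C * (H.C * dist ξ ζ) :=
      (H.ultra _ (.inr ζ) _).trans (mul_le_mul_of_nonneg_left
        (max_le (H.q_le _ _) (by linarith)) h0.le)
    have a2 : H.q (.inl (u i)) (.inr ξ) ≤ H.C * (H.C * dist ξ ζ) := by
      rw [H.q_comm]
      have : H.C * dist ξ ζ ≤ H.C * (H.C * dist ξ ζ) := le_mul_of_one_le_left (by positivity) hC
      linarith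
    calc _ ≤ _ := H.ultra _ (.inr ξ) _
      _ ≤ H.C * (H.C * (H.C * dist ξ ζ)) := mul_le_mul_of_nonneg_left (max_le a2 a1) h0.le
      _ = _ := by ring
  · set m := max (max (H.q (.inr ξ) (.inl (u i))) (H.q (.inr ζ) (.inl (v i))))
      (H.q (.inl (u i)) (.inl (v i))) with hm
    have m0 : 0 ≤ m := le_max_of_le_right (H.q_nonneg _ _)
    have a1 : H.q (.inl (u i)) (.inr ζ) ≤ H.C * m :=
      (H.ultra _ (.inl (v i)) _).trans (mul_le_mul_of_nonneg_left (max_le (le_max_right _ _)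
        (by rw [H.q_comm]; exact le_max_of_le_left (le_max_right _ _))) h0.le)
    have a2 : H.q (.inr ξ) (.inl (u i)) ≤ H.C * m :=
      (le_max_of_le_left (le_max_left _ _)).trans (le_mul_of_one_le_left m0 hC)
    have a3 : dist ξ ζ ≤ H.C ^ 3 * m :=
      calc _ ≤ _ := H.le_q ξ ζ
        _ ≤ H.C * (H.C * (H.C * m)) := mul_le_mul_of_nonneg_left ((H.ultra _ (.inl (u i)) _).trans
          (mul_le_mul_of_nonneg_left (max_le a2 a1) h0.le)) h0.le
        _ = _ := by ring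
    rw [← div_le_iff₀' (by positivity), hm, le_max_iff] at a3
    rw [← div_le_iff₀' (by positivity)]
    exact a3.resolve_left (not_le.2 (max_lt h1 h2))

theorem wqs_equiv (hK : 1 ≤ K) (hS : Subgroup.closure (S : Set A) = ⊤) (h : Cmp H S K B)
    [MetricSpace (Bdry S)] (hV : IsVisual S) (e : C ≃ Bdry S)
    (he : ∀ ξ : C, ∃ u : {x : ℕ → A // Asymp S x x}, Gb.mk u = e ξ ∧ Tends H u.1 ξ) :
    KP2.WQS e := by
  obtain ⟨δ, hδ⟩ := Cmp.hyp H hK hS h
  obtain ⟨b, Cv, hb, hCv, hV⟩ := hV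
  have hA := Gb.one_le_A hb hS hδ
  have hb0 : 0 < b := by linarith
  have ha0 : 0 < H.a := by linarith [H.ha]
  have hC := H.hC
  have h0 : 0 < H.C := by linarith
  have hK0 : 0 < K := by linarith
  set M : ℝ := 2 * Cv ^ 2 * (b ^ δ) ^ 4 with hM
  have hM0 : 0 < M := by positivity
  have key : ∀ D : ℝ, ∀ ξ ζ ω : C, dist ξ ζ ≤ H.a ^ (-D) / H.C ^ 6 * dist ξ ω →
      dist (e ξ) (e ζ) ≤ M * b ^ (B - min (D / K) D) * dist (e ξ) (e ω) := by
    intro D ξ ζ ω hd
    by_cases h1 : ξ = ζ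
    · subst h1
      rw [dist_self]
      positivity
    have h2 : ξ ≠ ω := by
      rintro rfl
      rw [dist_self, mul_zero] at hd
      exact h1 (dist_le_zero.1 hd)
    obtain ⟨u, hu, tu⟩ := he ξ
    obtain ⟨v, hv, tv⟩ := he ζ
    obtain ⟨w, hw, tw⟩ := he ω
    have e1 := sub4_ev H tu tv (fun h => h1 (Subtype.ext h))
    have e2 := sub4_ev H tu tw (fun h => h2 (Subtype.ext h))
    set P := b ^ (B - min (D / K) D) with hP
    have hP0 : 0 < P := Real.rpow_pos_of_pos hb0 _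
    have e3 : ∀ᶠ i in Filter.atTop,
        Gb.bb S b (u.1 i) (v.1 i) ≤ P * Gb.bb S b (u.1 i) (w.1 i) := by
      filter_upwards [e1, e2] with i a1 a2
      have hp : 0 < H.a ^ (-D) := Real.rpow_pos_of_pos ha0 _
      have a3 : H.q (.inl (u.1 i)) (.inl (v.1 i)) ≤ H.a ^ (-D) * H.q (.inl (u.1 i)) (.inl (w.1 i)) :=
        calc _ ≤ _ := a1.1
          _ ≤ H.C ^ 3 * (H.a ^ (-D) / H.C ^ 6 * (H.C ^ 3 * H.q (.inl (u.1 i)) (.inl (w.1 i)))) :=
            mul_le_mul_of_nonneg_left (le_trans hd (mul_le_mul_of_nonneg_left a2.2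
              (by positivity))) (by positivity)
          _ = _ := by field_simp
      rw [H.q_GG, H.q_GG, ← Real.rpow_add ha0, Real.rpow_le_rpow_left_iff H.ha] at a3
      have a4 : D ≤ gG H (u.1 i : G) (v.1 i) - gG H (u.1 i : G) (w.1 i) := by
        simp only [gG]; linarith
      have a5 := h (u.1 i) (v.1 i) (w.1 i)
      have a6 := min_le_min (div_le_div_of_nonneg_right a4 hK0.le) a4
      rw [hP, Gb.bb, Gb.bb, ← Real.rpow_add hb0, Real.rpow_le_rpow_left_iff hb]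
      linarith
    have e4 : Gb.QQ S b u.1 v.1 ≤ P * Gb.QQ S b u.1 w.1 :=
      le_of_tendsto_of_tendsto (Gb.tendsto_QQ hb hS _ _)
        ((Gb.tendsto_QQ hb hS _ _).const_mul P) (Nat.hyperfilter_le_atTop e3)
    have n1 : e ξ ≠ e ζ := fun h => h1 (e.injective h)
    have n2 : e ξ ≠ e ω := fun h => h2 (e.injective h)
    have c1 : b ^ (-bgp S (Gb.mk u) (Gb.mk v)) ≤ (b ^ δ) ^ 2 * (2 * Gb.QQ S b u.1 v.1) :=
      (Gb.bgp_cmp hb hS hδ (x := u) (y := v) fun h => n1 (hu.symm.trans (Eq.trans h hv))).1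
    have c2 : Gb.QQ S b u.1 w.1 / (b ^ δ) ^ 2 ≤ b ^ (-bgp S (Gb.mk u) (Gb.mk w)) :=
      (Gb.bgp_cmp hb hS hδ (x := u) (y := w) fun h => n2 (hu.symm.trans (Eq.trans h hw))).2
    rw [hu, hv] at c1
    rw [hu, hw, div_le_iff₀' (by positivity)] at c2
    have c3 := (hV _ _ n1).2
    have c4 := (hV _ _ n2).1
    rw [inv_mul_le_iff₀ hCv] at c4
    calc _ ≤ _ := c3
      _ ≤ Cv * ((b ^ δ) ^ 2 * (2 * (P * ((b ^ δ) ^ 2 * (Cv * dist (e ξ) (e ω)))))) := by
        refine mul_le_mul_of_nonneg_left (c1.trans ?_) hCv.le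
        gcongr
        refine e4.trans ?_
        gcongr
        exact c2.trans (by gcongr)
      _ = _ := by rw [hM]; ring
  constructor
  · intro T
    obtain ⟨D, hD⟩ := Gb.exists_small H.ha (show 0 < H.C ^ 6 * (|T| + 1) by positivity)
    refine ⟨_, fun x y z hd => key D x y z (hd.trans ?_)⟩
    rw [hD, mul_div_cancel_left₀ _ (by positivity)]
    exact mul_le_mul_of_nonneg_right (by linarith [le_abs_self T]) dist_nonneg
  · intro ε hε
    obtain ⟨t, ht⟩ := Gb.exists_small hb (show 0 < ε / M by positivity)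
    refine ⟨H.a ^ (-(K * max (B + t) 0)) / H.C ^ 6, by positivity, fun x y z hd => ?_⟩
    refine (key _ x y z hd).trans (mul_le_mul_of_nonneg_right ?_ dist_nonneg)
    rw [← le_div_iff₀' hM0, ← ht, Real.rpow_le_rpow_left_iff hb,
      mul_div_cancel_left₀ _ hK0.ne']
    have h1 := le_max_left (B + t) 0
    have h2 : max (B + t) 0 ≤ K * max (B + t) 0 := le_mul_of_one_le_left (le_max_right _ _) hK
    rw [min_eq_left h2]
    linarith

theorem Conn.exists_wqs (hq : H.QC A C) (hC : IsClosed C) (hn : C.Nontrivial) (h : Conn C) :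
    ∃ f : C → KP2.S2, KP2.WQS f ∧ Function.Injective f := by
  obtain ⟨S, K, B, hK, hS, hc⟩ := exists_cmp H hq
  have hH := Cmp.hyp H hK hS hc
  obtain ⟨_, hV⟩ := exists_visual hS hH
  obtain ⟨e, he⟩ := exists_equiv H hq hC hK hS hc
  have hw := wqs_equiv H hK hS hc hV e he
  have : Nontrivial C := hn.coe_sort
  have : Nontrivial (Bdry S) := e.symm.nontrivial
  have : CompactSpace C := isCompact_iff_compactSpace.1 hC.isCompact
  obtain ⟨_, ⟨H'⟩⟩ := exists_HB S hS hH hV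
  obtain ⟨f, hf, hi⟩ := h A (Bdry S) H' (Continuous.homeoOfEquivCompactToT2 (f := e)
    hw.continuous).symm
  exact ⟨f ∘ e, hf.comp hw, hi.comp e.injective⟩

end KAC
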