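import Pool.Agent.Lib.MP_e1e491_gt.Ac.Lm

/-! The members next to a component. -/

namespace KAC

open Set KKC
open scoped Pointwise Classical

set_option linter.unusedSectionVars false

variable {G Z : Type} [Group G] [MetricSpace Z] [CompactSpace Z] [MulAction G Z] (H : HB G Z)
  {𝒞 : Set (Set Z)} (hF : Fam G 𝒞) {o : Fin 3 → Z} {L : ℝ} {V U W W' : Set Z} {ξ ζ : Z}
include hF

theorem adj_smul (h : W ∈ Adj 𝒞 ξ) (g : G) : g • W ∈ Adj 𝒞 (g • ξ) := by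
  refine ⟨hF.smul g W h.1, fun hm => h.2.1 (smul_mem_smul_set_iff.1 hm), fun W' hW' hξ hs => ?_⟩
  rw [← h.2.2 _ (hF.smul g⁻¹ W' hW') (fun hm => hξ (mem_inv_smul_set_iff.1 hm))
    (smul_set_subset_iff_subset_inv_smul_set.1 hs), smul_inv_smul]

theorem good_smul (h : Good 𝒞 ξ) (g : G) : Good 𝒞 (g • ξ) := fun W hW hξ => by
  obtain ⟨W', h1, h2⟩ := h _ (hF.smul g⁻¹ W hW) fun hm => hξ (mem_inv_smul_set_iff.1 hm)
  refine ⟨_, adj_smul hF h1 g, ?_⟩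
  rw [← smul_inv_smul g W]
  exact smul_set_mono h2

theorem adj_disj (h : W ∈ Adj 𝒞 ξ) (h' : W' ∈ Adj 𝒞 ξ) (hne : W ≠ W') : Disjoint W W' := by
  rcases hF.nested W h.1 W' h'.1 with e | e | e | e
  · exact absurd (h.2.2 W' h'.1 h'.2.1 e).symm hne
  · exact absurd (h'.2.2 W h.1 h.2.1 e) hne
  · exact e
  · exact ((e ▸ mem_univ ξ : ξ ∈ W ∪ W').elim h.2.1 h'.2.1).elim

theorem adj_cover (hξ : Good 𝒞 ξ) (h : ζ ∉ connectedComponent ξ) : ∃ W ∈ Adj 𝒞 ξ, ζ ∈ W := by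
  obtain ⟨U, hU, h1, h2⟩ := hF.sep ξ ζ h
  obtain ⟨W, hW, hs⟩ := hξ _ (hF.compl U hU) (not_not.2 h1)
  exact ⟨W, hW, hs h2⟩

theorem adj_comp (hξ : Good 𝒞 ξ) (h : W ∈ Adj 𝒞 ξ) (h' : W ∈ Adj 𝒞 ζ) :
    ζ ∈ connectedComponent ξ := by
  by_contra hn
  obtain ⟨W'', hW, hζ⟩ := adj_cover hF hξ hn
  have hd := adj_disj hF h hW fun e => h'.2.1 (e ▸ hζ)
  have e := h'.2.2 _ (hF.compl _ hW.1) (not_not.2 hζ) hd.subset_compl_right
  exact h.2.1 (e ▸ hW.2.1)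

theorem tr2_disj (hW : W ∈ 𝒞) (h : ξ ∉ W) : Disjoint W (connectedComponent ξ) :=
  disjoint_left.2 fun _ h1 h2 => (hF.clopen W hW).compl.connectedComponent_subset h h2 h1

theorem adj_disj_comp (h : W ∈ Adj 𝒞 ξ) : Disjoint W (connectedComponent ξ) :=
  tr2_disj hF h.1 h.2.1

theorem adj_finite (hξ : Good 𝒞 ξ) {Q : Set Z} (hQ : IsClosed Q)
    (hd : Disjoint Q (connectedComponent ξ)) : {W ∈ Adj 𝒞 ξ | (W ∩ Q).Nonempty}.Finite := by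
  obtain ⟨T, hT, hf, hc⟩ := hQ.isCompact.elim_finite_subcover_image (b := Adj 𝒞 ξ) (c := id)
    (fun W hW => (hF.clopen W hW.1).2) fun x hx => by
      obtain ⟨W, hW, hx⟩ := adj_cover hF hξ (disjoint_left.1 hd hx)
      exact mem_biUnion hW hx
  refine hf.subset fun W ⟨hW, x, hx, hxQ⟩ => ?_
  obtain ⟨W', hW', hx'⟩ := mem_iUnion₂.1 (hc hxQ)
  by_contra hn
  exact disjoint_left.1 (adj_disj hF hW (hT hW') fun e => hn (e ▸ hW')) hx hx'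

omit hF in
theorem tr2_sub (hV : V ∈ small 𝒞 o) (hW : W ∈ 𝒞) (h : W ⊆ V) : W ∈ small 𝒞 o :=
  ⟨hW, fun i j hi hj => hV.2 i j (h hi) (h hj)⟩

theorem tr2_or (hW : W ∈ 𝒞) : W ∈ small 𝒞 o ∨ Wᶜ ∈ small 𝒞 o := by
  by_contra hn
  simp only [small, mem_sep_iff, hW, hF.compl W hW, true_and, not_or, not_forall,
    mem_compl_iff] at hn
  obtain ⟨⟨i, j, hi, hj, h1⟩, k, l, hk, hl, h2⟩ := hn
  have h : ∀ a b, o a ∈ W → o b ∉ W → a ≠ b := fun a b ha hb e => hb (e ▸ ha)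
  have := h i k hi hk
  have := h i l hi hl
  have := h j k hj hk
  have := h j l hj hl
  omega

/-- A member that misses a point of the core lies properly inside the node or outside it. -/
theorem tr2_miss (hV : V ∈ insert univ (small 𝒞 o)) (hξ : ξ ∈ core (small 𝒞 o) V) (hW : W ∈ 𝒞)
    (h : ξ ∉ W) : (W ∈ small 𝒞 o ∧ W ⊂ V) ∨ (V ∈ small 𝒞 o ∧ W ⊆ Vᶜ) := by
  have hs : W ⊆ V → W ⊂ V := fun e => ⟨e, fun e' => h (e' hξ.1)⟩
  rcases hV with rfl | hV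
  · refine Or.inl ⟨(tr2_or hF hW).resolve_right fun e => hξ.2 _ e ⟨subset_univ _, fun e' => ?_⟩ h,
      hs (subset_univ _)⟩
    obtain ⟨x, hx⟩ := (hF.nt W hW).nonempty
    exact e' (mem_univ x) hx
  rcases hF.nested W hW V hV.1 with e | e | e | e
  · exact Or.inl ⟨tr2_sub hV hW e, hs e⟩
  · exact absurd (e hξ.1) h
  · exact Or.inr ⟨hV, e.subset_compl_right⟩
  · have e1 : Wᶜ ⊆ V := compl_subset_iff_union.2 e
    refine Or.inr ⟨hV, subset_compl_comm.1 ?_⟩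
    by_contra e2
    exact hξ.2 _ (tr2_sub hV (hF.compl W hW) e1) ⟨e1, e2⟩ h

theorem child_adj (ho : Function.Injective o) (hV : V ∈ insert univ (small 𝒞 o))
    (hξ : ξ ∈ core (small 𝒞 o) V) (hU : Child (small 𝒞 o) V U) : U ∈ Adj 𝒞 ξ := by
  have _ := ho
  refine ⟨hU.1.1, hξ.2 U hU.1 hU.2.1, fun W hW h hs => ?_⟩
  rcases tr2_miss hF hV hξ hW h with e | e
  · exact hU.2.2 W e.1 hs e.2
  · obtain ⟨x, hx⟩ := (hF.nt U hU.1.1).nonempty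
    exact absurd (hU.2.1.1 hx) (e.2 (hs hx))

theorem core_good (ho : Function.Injective o) (hL : Lam (small 𝒞 o) L)
    (hV : V ∈ insert univ (small 𝒞 o)) (hξ : ξ ∈ core (small 𝒞 o) V) : Good 𝒞 ξ := by
  intro W hW h
  rcases tr2_miss hF hV hξ hW h with e | e
  · obtain ⟨U, hU, hs⟩ := hL.exists_child e.1 e.2
    exact ⟨U, child_adj hF ho hV hξ hU, hs⟩
  · refine ⟨Vᶜ, ⟨hF.compl V e.1.1, not_not.2 hξ.1, fun W' hW' h' hs => ?_⟩, e.2⟩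
    rcases tr2_miss hF hV hξ hW' h' with e' | e'
    · obtain ⟨x, hx⟩ := (hF.nt _ (hF.compl V e.1.1)).nonempty
      exact absurd (e'.2.1 (hs hx)) hx
    · exact e'.2.antisymm hs

theorem core_eq (ho : Function.Injective o) (hV : V ∈ insert univ (small 𝒞 o))
    (hξ : ξ ∈ core (small 𝒞 o) V) : core (small 𝒞 o) V = connectedComponent ξ := by
  have _ := ho
  refine Subset.antisymm (fun ζ hζ => ?_) fun ζ hζ => ⟨?_, fun U hU hs =>
    disjoint_right.1 (tr2_disj hF hU.1 (hξ.2 U hU hs)) hζ⟩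
  · by_contra hn
    obtain ⟨U, hU, h1, h2⟩ := hF.sep ξ ζ hn
    rcases tr2_miss hF hV hζ hU h2 with e | e
    · exact hξ.2 U e.1 e.2 h1
    · exact e.2 h1 hξ.1
  · rcases hV with rfl | hV
    · trivial
    · exact (hF.clopen V hV.1).connectedComponent_subset hξ.1 hζ

include H

theorem comp_smul (g : G) (ξ : Z) : g • connectedComponent ξ = connectedComponent (g • ξ) := by
  have h : ∀ (g : G) (ξ : Z), g • connectedComponent ξ ⊆ connectedComponent (g • ξ) :=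
    fun g ξ => (H.continuous_smul g).image_connectedComponent_subset ξ
  refine (h g ξ).antisymm (subset_smul_set_iff.2 ?_)
  simpa using h g⁻¹ (g • ξ)

theorem adj_orb (hξ : Good 𝒞 ξ) : ∃ F : Set (Set Z), F.Finite ∧ F ⊆ Adj 𝒞 ξ ∧ ∀ W ∈ Adj 𝒞 ξ,
    ∃ h : G, h • connectedComponent ξ = connectedComponent ξ ∧ ∃ W' ∈ F, W = h • W' := by
  obtain ⟨F, hf, -, ho⟩ := hF.orb
  have : ∀ W₀ : Set Z, ∃ g : G, (∃ g' : G, g' • W₀ ∈ Adj 𝒞 ξ) → g • W₀ ∈ Adj 𝒞 ξ := fun W₀ => by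
    by_cases h : ∃ g' : G, g' • W₀ ∈ Adj 𝒞 ξ
    · exact h.imp fun g hg _ => hg
    · exact ⟨1, fun h' => absurd h' h⟩
  choose k hk using this
  refine ⟨(fun W₀ => k W₀ • W₀) '' F ∩ Adj 𝒞 ξ, (hf.image _).inter_of_left _, inter_subset_right,
    fun W hW => ?_⟩
  obtain ⟨g, W₀, h0, rfl⟩ := ho W hW.1
  have h1 := hk W₀ ⟨g, hW⟩
  have e : g • W₀ = (g * (k W₀)⁻¹) • k W₀ • W₀ := by rw [mul_smul, inv_smul_smul]
  refine ⟨g * (k W₀)⁻¹, ?_, _, ⟨⟨W₀, h0, rfl⟩, h1⟩, e⟩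
  rw [comp_smul H hF]
  exact (connectedComponent_eq (adj_comp hF hξ hW (e ▸ adj_smul hF h1 _))).symm

end KAC
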