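import Pool.Agent.Lib.MP_e1e491_gt.Ac.Tr1
import Pool.Agent.Lib.MP_e1e491_gt.Ac.Tr2
import Pool.Agent.Lib.MP_e1e491_gt.S1Q

/-! Components: quasiconvexity, isolation of the neighbours, one point components. -/

namespace KAC

open Set KKC
open scoped Pointwise Classical

theorem tr3_big {Z : Type} [MetricSpace Z] {δ : ℝ} {s t : Set Z} (h : Big δ s) (hst : s ⊆ t) :
    Big δ t := by
  obtain ⟨x, hx, y, hy, hxy⟩ := h
  exact ⟨x, hst hx, y, hst hy, hxy⟩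

theorem tr3_gap {Z : Type} [MetricSpace Z] [CompactSpace Z] {W : Set Z} (hW : IsClopen W) :
    ∃ η > 0, ∀ x ∈ W, ∀ y ∉ W, η ≤ dist x y := by
  obtain ⟨η, hη, hd⟩ := (disjoint_compl_right (a := W)).exists_thickenings hW.isClosed.isCompact
    hW.compl.isClosed
  refine ⟨η, hη, fun x hx y hy => not_lt.1 fun k => ?_⟩
  exact Set.disjoint_left.1 hd (Metric.mem_thickening_iff.2 ⟨x, hx, dist_comm x y ▸ k⟩)
    (Metric.self_subset_thickening hη _ hy)

variable {G Z : Type} [Group G] [MetricSpace Z] [CompactSpace Z] [MulAction G Z] (H : HB G Z)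
  {𝒞 : Set (Set Z)} (hF : Fam G 𝒞) {ξ : Z}
include H hF

theorem fs_comp (ξ : Z) : FS G (connectedComponent ξ) := by
  intro δ hδ
  have hN := finN H hF hδ
  have hB : {C' : Set Z | (∃ g : G, C' = g⁻¹ • connectedComponent ξ) ∧ Big δ C'}.Finite := by
    refine Set.Finite.of_finite_image
      (f := fun C' => {U ∈ {U ∈ 𝒞 | Big δ U ∧ Big δ Uᶜ} | C' ⊆ U})
      (hN.powerset.subset ?_) ?_
    · rintro _ ⟨C', -, rfl⟩
      exact fun U hU => hU.1
    · rintro _ ⟨⟨g, rfl⟩, h1⟩ _ ⟨⟨g', rfl⟩, h2⟩ e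
      rw [comp_smul H hF] at h1 h2 e ⊢
      rw [comp_smul H hF] at e ⊢
      by_contra hne
      obtain ⟨U, hU, hx, hy⟩ := hF.sep (g⁻¹ • ξ) (g'⁻¹ • ξ) fun k => hne (connectedComponent_eq k)
      have s1 := (hF.clopen U hU).connectedComponent_subset hx
      have s2 := (hF.clopen U hU).compl.connectedComponent_subset hy
      have : U ∈ {U ∈ {U ∈ 𝒞 | Big δ U ∧ Big δ Uᶜ} | connectedComponent (g'⁻¹ • ξ) ⊆ U} :=
        (Set.ext_iff.1 e U).1 ⟨⟨hU, tr3_big h1 s1, tr3_big h2 s2⟩, s1⟩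
      exact hy (this.2 mem_connectedComponent)
  have hc : ∀ C' : Set Z, ∃ φ : G, (∃ g : G, C' = g⁻¹ • connectedComponent ξ) →
      C' = φ⁻¹ • connectedComponent ξ := fun C' => by
    by_cases h : ∃ g : G, C' = g⁻¹ • connectedComponent ξ
    · obtain ⟨g, hg⟩ := h
      exact ⟨g, fun _ => hg⟩
    · exact ⟨1, fun k => absurd k h⟩
  choose φ hφ using hc
  refine ⟨hB.toFinset.image φ, fun g hg => ⟨φ (g⁻¹ • connectedComponent ξ),
    Finset.mem_image_of_mem _ (hB.mem_toFinset.2 ⟨⟨g, rfl⟩, hg⟩), ?_⟩⟩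
  rw [mul_smul, ← hφ _ ⟨g, rfl⟩, smul_inv_smul]

theorem adj_iso (hξ : Good 𝒞 ξ) (hn : (connectedComponent ξ).Nontrivial) : ∃ L : ℝ,
    ∀ W ∈ Adj 𝒞 ξ, ∀ x ∈ W, ∃ p ∈ connectedComponent ξ, ∀ y ∉ W, dist x p ≤ L * dist x y := by
  obtain ⟨c1, h1, c2, h2, hne⟩ := hn
  have hδ : 0 < dist c1 c2 := dist_pos.2 hne
  obtain ⟨F, hfin, hsub, horb⟩ := adj_orb H hF hξ
  obtain ⟨C₁, hC₁, hlip⟩ := H.lip
  have key : ∀ W' : Set Z, ∃ L : ℝ, W' ∈ F → ∀ h : G,
      h • connectedComponent ξ = connectedComponent ξ → h • W' ∈ Adj 𝒞 ξ → ∀ x ∈ W',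
      ∃ p ∈ connectedComponent ξ, ∀ y ∉ W', dist (h • x) p ≤ L * dist (h • x) (h • y) := by
    intro W'
    by_cases hW : W' ∈ F
    swap
    · exact ⟨0, fun k => absurd k hW⟩
    have hcl := hF.clopen W' (hsub hW).1
    obtain ⟨c, hc, hfar⟩ := far H hcl hδ
    obtain ⟨η, hη, hgap⟩ := tr3_gap hcl
    obtain ⟨M, hM, hd⟩ := dist_smul_le H (lt_min hc (half_pos hδ))
    refine ⟨M * H.C * C₁ / η, fun _ h hh hadj x hx => ?_⟩
    have hb : Big (dist c1 c2) (h • W')ᶜ := tr3_big ⟨c1, h1, c2, h2, le_rfl⟩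
      (adj_disj_comp hF hadj).symm.subset_compl_right
    obtain ⟨z, hz, hzf⟩ : ∃ z ∈ connectedComponent ξ, dist c1 c2 / 2 ≤ dist z (H.loc h⁻¹) := by
      have := dist_triangle_right c1 c2 (H.loc h⁻¹)
      rcases le_total (dist c1 (H.loc h⁻¹)) (dist c2 (H.loc h⁻¹)) with k | k
      · exact ⟨c2, h2, by linarith⟩
      · exact ⟨c1, h1, by linarith⟩
    refine ⟨h • z, hh ▸ Set.smul_mem_smul_set hz, fun y hy => ?_⟩
    have e1 := hd h x z ((min_le_left _ _).trans (hfar h hb x hx))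
      ((min_le_right _ _).trans (hzf.trans (le_max_left _ _)))
    have hs := H.sc_pos h
    have hC := H.hC
    have e2 : H.sc h * η ≤ C₁ * dist (h • x) (h • y) :=
      (mul_le_mul_of_nonneg_left (hgap x hx y hy) hs.le).trans (hlip h x y).2
    have e3 : dist (h • x) (h • z) ≤ M * (H.sc h * H.C) :=
      e1.trans (by gcongr; exact H.dist_le_C x z)
    rw [div_mul_eq_mul_div, le_div_iff₀ hη]
    calc dist (h • x) (h • z) * η ≤ M * (H.sc h * H.C) * η := by gcongr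
      _ = M * H.C * (H.sc h * η) := by ring
      _ ≤ M * H.C * (C₁ * dist (h • x) (h • y)) := by gcongr
      _ = _ := by ring
  choose L hL using key
  obtain ⟨L0, hL0⟩ := (hfin.image L).bddAbove
  refine ⟨L0, fun W hW x hx => ?_⟩
  obtain ⟨h, hh, W', hW', rfl⟩ := horb W hW
  obtain ⟨x, hx', rfl⟩ := hx
  obtain ⟨p, hp, hy⟩ := hL W' hW' h hh hW x hx'
  refine ⟨p, hp, fun y hyW => ?_⟩
  have := hy (h⁻¹ • y) fun k => hyW (Set.mem_smul_set_iff_inv_smul_mem.2 k)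
  rw [smul_inv_smul] at this
  exact this.trans (mul_le_mul_of_nonneg_right (hL0 ⟨W', hW', rfl⟩) dist_nonneg)

end KAC
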