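import Pool.Agent.Lib.MP_e1e491_gt.Ac.Tr1
import Pool.Agent.Lib.MP_e1e491_gt.Ac.Tr2

/-! A one point component has finitely many neighbours. -/

namespace KAC

open Set KKC
open scoped Pointwise Classical

variable {G Z : Type} [Group G] [MetricSpace Z] [CompactSpace Z] [MulAction G Z] (H : HB G Z)
  {𝒞 : Set (Set Z)} (hF : Fam G 𝒞) {ξ : Z}
include H hF

omit [CompactSpace Z] H hF in
theorem tr4_big {S : Set (Set Z)} (hS : S.Finite) (hn : ∀ T ∈ S, T.Nontrivial) :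
    ∃ ε > 0, ∀ T ∈ S, Big ε T := by
  induction S, hS using Set.Finite.induction_on with
  | empty => exact ⟨1, one_pos, by simp⟩
  | insert _ _ ih =>
    obtain ⟨ε, hε, h⟩ := ih fun T hT => hn T (mem_insert_of_mem _ hT)
    obtain ⟨x, hx, y, hy, hxy⟩ := hn _ (mem_insert _ _)
    refine ⟨min ε (dist x y), lt_min hε (dist_pos.2 hxy), ?_⟩
    rintro T (rfl | hT)
    · exact ⟨x, hx, y, hy, min_le_right _ _⟩
    · obtain ⟨a, ha, b, hb, hab⟩ := h T hT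
      exact ⟨a, ha, b, hb, (min_le_left _ _).trans hab⟩

theorem tr4_comp (hc : connectedComponent ξ = {ξ}) (g : G) :
    connectedComponent (g • ξ) = {g • ξ} := by
  rw [← comp_smul H hF, hc, smul_set_singleton]

theorem single (hξ : Good 𝒞 ξ) (hc : connectedComponent ξ = {ξ}) : (Adj 𝒞 ξ).Finite := by
  rcases (Adj 𝒞 ξ).eq_empty_or_nonempty with h0 | ⟨W0, hW0⟩
  · rw [h0]; exact finite_empty
  exfalso
  obtain ⟨ρ, hρ, hball⟩ := Metric.isOpen_iff.1 (hF.clopen W0 hW0.1).compl.isOpen ξ hW0.2.1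
  have hρ' : ∀ x ∈ W0, ρ ≤ dist x ξ := fun x hx => not_lt.1 fun k => hball k hx
  obtain ⟨δ1, hδ1, hb1⟩ := tr4_big (S := {W0, W0ᶜ}) (toFinite _) (by
    rintro T (rfl | rfl)
    exacts [hF.nt _ hW0.1, hF.nt _ (hF.compl _ hW0.1)])
  obtain ⟨L, hL, hv⟩ := H.view_exists
  obtain ⟨C, hC, hfar⟩ := H.view_far L hL
  obtain ⟨η, hη, hout⟩ := H.view_out L 1 hL le_rfl
  have hN := finN H hF (lt_min hδ1 (half_pos hη))
  set N := {U ∈ 𝒞 | Big (min δ1 (η / 2)) U ∧ Big (min δ1 (η / 2)) Uᶜ} with hNd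
  have hP : (⋃ M ∈ N, {z | (∃ g : G, z = g • ξ) ∧ M ∈ Adj 𝒞 z}).Finite := by
    refine hN.biUnion fun M _ => Set.Subsingleton.finite ?_
    rintro _ ⟨⟨g, rfl⟩, h1⟩ z ⟨-, h2⟩
    have := adj_comp hF (good_smul hF hξ g) h1 h2
    rw [tr4_comp H hF hc] at this
    exact this.symm
  set P := ⋃ M ∈ N, {z | (∃ g : G, z = g • ξ) ∧ M ∈ Adj 𝒞 z} with hPd
  have hT : (⋃ z ∈ P, {W ∈ Adj 𝒞 z | (W ∩ {w | η / 2 ≤ dist w z}).Nonempty}).Finite := by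
    refine hP.biUnion fun z hz => ?_
    obtain ⟨M, -, ⟨g, rfl⟩, -⟩ := mem_iUnion₂.1 hz
    refine adj_finite hF (good_smul hF hξ g) (isClosed_le continuous_const (by fun_prop)) ?_
    rw [tr4_comp H hF hc, disjoint_singleton_right]
    simpa using half_pos hη
  obtain ⟨ε, hε, hbT⟩ := tr4_big hT (fun T hT => by
    obtain ⟨z, -, h, -⟩ := mem_iUnion₂.1 hT
    exact hF.nt _ h.1)
  obtain ⟨θ, hθ, θ1, θ2, θ3⟩ : ∃ θ > 0, θ ≤ η / 2 ∧ θ ≤ ε / 4 ∧ θ ≤ δ1 / 4 :=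
    ⟨min (η / 2) (min (ε / 4) (δ1 / 4)), by positivity, min_le_left _ _,
      (min_le_right _ _).trans (min_le_left _ _), (min_le_right _ _).trans (min_le_right _ _)⟩
  obtain ⟨r, hr, r1, r2, r3⟩ : ∃ r > 0, r ≤ 1 ∧ r ≤ η / (2 * L) ∧ r ≤ ρ * θ / C :=
    ⟨min 1 (min (η / (2 * L)) (ρ * θ / C)), by positivity, min_le_left _ _,
      (min_le_right _ _).trans (min_le_left _ _), (min_le_right _ _).trans (min_le_right _ _)⟩
  rw [le_div_iff₀ (by positivity)] at r2 r3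
  obtain ⟨g, hg⟩ := hv ξ r hr r1
  have hy : η ≤ dist (g⁻¹ • ξ) (H.loc g⁻¹) := by
    rcases le_max_iff.1 (hout g ξ r hg ξ (by simpa using hr.le)) with k | k
    · exact k
    · have := hg.2.1
      nlinarith
  have hTa := adj_smul hF hW0 g⁻¹
  have hTy : ∀ t ∈ g⁻¹ • W0, dist t (H.loc g⁻¹) ≤ θ := by
    rintro _ ⟨x, hx, rfl⟩
    have h1 := hfar g ξ r hg x
    have h2 := mul_le_mul_of_nonneg_right (hρ' x hx)
      (dist_nonneg (x := g⁻¹ • x) (y := H.loc g⁻¹))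
    exact le_of_mul_le_mul_left (by linarith) hρ
  have hnb : ∀ e, 2 * θ < e → ¬ Big e (g⁻¹ • W0) := by
    rintro e he ⟨a, ha, b, hb, hab⟩
    have := dist_triangle_right a b (H.loc g⁻¹)
    linarith [hTy a ha, hTy b hb]
  obtain ⟨W1, hW1, hx1, hb⟩ : ∃ W1 ∈ 𝒞, g⁻¹ • ξ ∉ W1 ∧ Big δ1 W1 := by
    by_cases k : g⁻¹ • ξ ∈ W0
    · exact ⟨W0ᶜ, hF.compl _ hW0.1, fun k' => k' k, hb1 _ (by simp)⟩
    · exact ⟨W0, hW0.1, k, hb1 _ (by simp)⟩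
  obtain ⟨M, hM, hWM⟩ := good_smul hF hξ g⁻¹ W1 hW1 hx1
  obtain ⟨a, ha, b, hb, hab⟩ := hb
  have hne : M ≠ g⁻¹ • W0 := fun k =>
    hnb δ1 (by linarith) (k ▸ ⟨a, hWM ha, b, hWM hb, hab⟩)
  obtain ⟨t, ht⟩ := (hF.nt _ hTa.1).nonempty
  have htd : η / 2 ≤ dist t (g⁻¹ • ξ) := by
    have := dist_triangle_left (g⁻¹ • ξ) (H.loc g⁻¹) t
    linarith [hTy t ht]
  have hMN : M ∈ N := ⟨hM.1, ⟨a, hWM ha, b, hWM hb, (min_le_left _ _).trans hab⟩,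
    t, disjoint_right.1 (adj_disj hF hM hTa hne) ht, _, hM.2.1, (min_le_right _ _).trans htd⟩
  exact hnb ε (by linarith) (hbT _ (mem_iUnion₂.2
    ⟨g⁻¹ • ξ, mem_iUnion₂.2 ⟨M, hMN, ⟨g⁻¹, rfl⟩, hM⟩, hTa, t, ht, htd⟩))

end KAC
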