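import Pool.Agent.Lib.MP_e1e491_gt.Ac.Cut5
import Pool.Agent.Lib.MP_e1e491_gt.Ac.Tr3
import Pool.Agent.Lib.MP_e1e491_gt.Ac.Tr4
import Pool.Agent.Lib.MP_e1e491_gt.Ac.Sub4
import Pool.Agent.Lib.MP_e1e491_gt.Ac.St
import Pool.Agent.Lib.MP_e1e491_gt.Ac.Po2
import Pool.Agent.Lib.MP_e1e491_gt.Ac.Nd1
import Pool.Agent.Lib.MP_e1e491_gt.Ac.Nd2
import Pool.Agent.Lib.MP_e1e491_gt.Ac.Gl4

/-! Reduction of the embedding problem to connected boundaries. -/

namespace KAC

open Set KKC KP2
open scoped Pointwise Classical NNReal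

theorem embed_finite {Z : Type} [MetricSpace Z] [Finite Z] :
    ∃ f : Z → S2, WQS f ∧ Function.Injective f := by
  obtain ⟨w, hw, hi⟩ := wqs_finite (X := (univ : Set Z)) finite_univ
  obtain ⟨M, hM⟩ := (finite_range fun x => ‖w x‖).bddAbove
  refine to_sphere ⟨fun T => ?_, fun δ hδ => ?_⟩ (injOn_univ.1 hi) fun x => hM ⟨x, rfl⟩
  · obtain ⟨K, hK⟩ := hw.1 T
    exact ⟨K, fun x y z => hK ⟨x, trivial⟩ ⟨y, trivial⟩ ⟨z, trivial⟩⟩
  · obtain ⟨ε, hε, hK⟩ := hw.2 δ hδ
    exact ⟨ε, hε, fun x y z => hK ⟨x, trivial⟩ ⟨y, trivial⟩ ⟨z, trivial⟩⟩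

theorem embed {G Z : Type} [Group G] [MetricSpace Z] [CompactSpace Z] [MulAction G Z] (H : HB G Z)
    {ι : Z → S2} (hι : Continuous ι) (hι' : Function.Injective ι)
    (hc : ∀ x : Z, (connectedComponent x).Nontrivial → Conn (connectedComponent x)) :
    ∃ f : Z → S2, WQS f ∧ Function.Injective f := by
  rcases finite_or_infinite Z with hZ | hZ
  · exact embed_finite
  by_cases hu : ∃ x : Z, connectedComponent x = univ
  · obtain ⟨x, hx⟩ := hu
    have h := hc x (hx ▸ nontrivial_univ)
    rw [hx] at h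
    exact h G Z H (Homeomorph.Set.univ Z).symm
  obtain ⟨𝒞, hF⟩ := exists_fam H
  obtain ⟨o, ho⟩ : ∃ o : Fin 3 → Z, Function.Injective o :=
    ⟨_, (Infinite.natEmbedding Z).injective.comp Fin.val_injective⟩
  obtain ⟨L, hL⟩ := lam_small H hF ho
  have key : ∀ V ∈ insert univ (small 𝒞 o), ∃ η F, Gauge η ∧ NQ (small 𝒞 o) η V F := by
    intro V hV
    rcases (core (small 𝒞 o) V).eq_empty_or_nonempty with h0 | ⟨ξ, hξ⟩
    · refine nq_of_finite hL (h0 ▸ subsingleton_empty)
        (hL.finite_child (fun U hU => (hF.clopen U hU.1).2) ?_ h0)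
      rcases hV with rfl | hV
      · exact isClosed_univ
      · exact (hF.clopen V hV.1).1
    have hg := core_good hF ho hL hV hξ
    have he := core_eq hF ho hV hξ
    rcases (connectedComponent ξ).subsingleton_or_nontrivial with hs | hn
    · exact nq_of_finite hL (he ▸ hs) ((single H hF hg
        (hs.eq_singleton_of_mem mem_connectedComponent)).subset fun U hU => child_adj hF ho hV hξ hU)
    have hq := H.qc_of_fs isPreconnected_connectedComponent hn (fs_comp H hF ξ)
    obtain ⟨f, hf, hi⟩ := (hc ξ hn).exists_wqs H hq isClosed_connectedComponent hn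
    obtain ⟨f', hf', hi'⟩ := to_plane hι hι' isClosed_connectedComponent (fun h => hu ⟨ξ, h⟩) hf hi
    obtain ⟨c, hc0, hp⟩ := exists_por H hq (fun a ha => ha) isClosed_connectedComponent hf' hi'
    obtain ⟨L', hL'⟩ := adj_iso H hF hg hn
    rw [← he] at hn hf' hi' hp hL'
    exact nq_of_core hL (dob H) (he ▸ isClosed_connectedComponent)
      (he ▸ isPreconnected_connectedComponent) hn hf' hi' hc0 hp
      fun U hU => hL' U (child_adj hF ho hV hξ hU)
  obtain ⟨η, hη, h⟩ := nq_all H hF ho key
  obtain ⟨D⟩ := exists_GD hL hη h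
  exact to_sphere (D.glue (dob H)).1 (D.glue (dob H)).2 D.Φ_le

/-- A planar boundary embeds quasisymmetrically if its components of more than one point do. -/
theorem reduce {G : Type} [Group G] (S : Finset G) (hS : Subgroup.closure (S : Set G) = ⊤)
    (hH : Hyperbolic S) [MetricSpace (Bdry S)] (hV : IsVisual S) {ι : Bdry S → S2}
    (hι : Continuous ι) (hι' : Function.Injective ι)
    (hc : ∀ x : Bdry S, (connectedComponent x).Nontrivial → Conn (connectedComponent x)) :
    ∃ (f : Bdry S → S2) (η : ℝ≥0 ≃ₜ ℝ≥0), Topology.IsEmbedding f ∧ IsQS η f ∧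
      ∀ x y z : Bdry S, z ≠ x →
        InnerProductGeometry.angle (f x).1 (f y).1 / InnerProductGeometry.angle (f x).1 (f z).1 ≤
          η (nndist x y / nndist x z) := by
  have := bdry_compact hS hH hV
  obtain ⟨f, hf, hi⟩ : ∃ f : Bdry S → S2, WQS f ∧ Function.Injective f := by
    rcases subsingleton_or_nontrivial (Bdry S) with h | h
    · exact embed_finite
    · obtain ⟨_, ⟨H⟩⟩ := exists_HB S hS hH hV
      exact embed H hι hι' hc
  exact ⟨f, finish hf hi⟩

/-- The connected case of the embedding problem gives the hypothesis of `embed` and `reduce`. -/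
theorem conn_of_all {Z : Type} [MetricSpace Z] [CompactSpace Z] {ι : Z → S2} (hι : Continuous ι)
    (hι' : Function.Injective ι)
    (h : ∀ (A Y : Type) [Group A] [MetricSpace Y] [CompactSpace Y] [ConnectedSpace Y]
      [Nontrivial Y] [MulAction A Y] (_ : HB A Y) (j : Y → S2), Continuous j →
      Function.Injective j → ∃ f : Y → S2, WQS f ∧ Function.Injective f)
    (x : Z) (hn : (connectedComponent x).Nontrivial) : Conn (connectedComponent x) := by
  intro A Y _ _ _ H e
  have : CompactSpace (connectedComponent x) :=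
    isCompact_iff_compactSpace.1 isClosed_connectedComponent.isCompact
  have : ConnectedSpace (connectedComponent x) :=
    isConnected_iff_connectedSpace.1 isConnected_connectedComponent
  have : Nontrivial (connectedComponent x) := hn.coe_sort
  have : CompactSpace Y := e.symm.compactSpace
  have : ConnectedSpace Y := e.symm.surjective.connectedSpace e.symm.continuous
  have : Nontrivial Y := e.symm.injective.nontrivial
  exact h A Y H (fun y => ι (e y)) (hι.comp (continuous_subtype_val.comp e.continuous))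
    (hι'.comp (Subtype.val_injective.comp e.injective))

end KAC
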