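import Pool.Agent.Lib.MP_e1e491_gt.Ac.Defs
import Pool.Agent.Lib.MP_e1e491_gt.Ac.Bu

/-! A blow-up contradicts the Borsuk-Ulam theorem. -/

namespace KAC

open Set Filter Topology
open scoped Classical

variable {X : Type} [MetricSpace X] [CompactSpace X]

theorem no_onto {y : X} {F f : X → ℂ} (hf : Continuous f) (hi : Function.Injective f)
    (hF : ContinuousOn F {y}ᶜ) (hFi : InjOn F {y}ᶜ) (hs : ∀ w, ∃ x, x ≠ y ∧ F x = w)
    (hp : ∀ R : ℝ, ∃ η > 0, ∀ x, x ≠ y → dist x y < η → R ≤ ‖F x‖) : False := by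
  choose G hG hFG using hs
  have hcl : ∀ (l : Filter ℂ) (x : X), x ≠ y → MapClusterPt x l G → ClusterPt (F x) l := by
    intro l x hx hc
    have h1 := hc.continuousAt_comp (hF.continuousAt (isOpen_compl_singleton.mem_nhds hx))
    have h2 : F ∘ G = id := funext hFG
    rwa [h2, mapClusterPt_id_iff] at h1
  have hc : Continuous G := by
    refine continuous_iff_continuousAt.2 fun w => ?_
    obtain ⟨η, hη, h1⟩ := hp (‖w‖ + 1)
    have hK : IsCompact {x : X | η ≤ dist x y} :=
      (isClosed_le continuous_const (continuous_id.dist continuous_const)).isCompact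
    refine hK.tendsto_nhds_of_unique_mapClusterPt ?_ fun x hx hc => ?_
    · filter_upwards [continuous_norm.continuousAt.eventually_lt_const (lt_add_one ‖w‖)] with v hv
      by_contra h2
      have := h1 _ (hG v) (not_le.1 h2)
      rw [hFG] at this
      exact absurd hv (not_lt.2 this)
    · have hx' : x ≠ y := dist_pos.1 (hη.trans_le hx)
      exact hFi hx' (hG w) ((eq_of_nhds_neBot (hcl _ x hx' hc)).trans (hFG w).symm)
  have ht : Tendsto G (cocompact ℂ) (𝓝 y) := by
    refine isCompact_univ.tendsto_nhds_of_unique_mapClusterPt (by simp) fun x _ hc => ?_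
    by_contra hx
    exact (hcl _ x hx hc).ne (disjoint_iff.1 (disjoint_nhds_cocompact (F x)))
  refine no_plane (ψ := f ∘ G) (L := f y) (hf.comp hc) (hi.comp fun a b e => ?_)
    (fun w e => hG w (hi e)) ((hf.tendsto y).comp ht)
  rw [← hFG a, e, hFG]

theorem Blow.false {F : ℕ → X → ℂ} {y : ℕ → X} (h : Blow F y) {f : X → ℂ} (hf : Continuous f)
    (hi : Function.Injective f) : False := by
  obtain ⟨u, hu⟩ : ∃ u : Ultrafilter ℕ, (u : Filter ℕ) ≤ atTop := ⟨_, Nat.hyperfilter_le_atTop⟩
  have hlim : ∀ z : ℕ → X, ∃ a, Tendsto z u (𝓝 a) := fun z => by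
    obtain ⟨a, -, ha⟩ := isCompact_univ.ultrafilter_le_nhds (u.map z) (by simp)
    exact ⟨a, ha⟩
  obtain ⟨a, ha⟩ := hlim y
  have hd : ∀ x η, η < dist x a → ∀ᶠ n in (u : Filter ℕ), η ≤ dist x (y n) := fun x η hη =>
    ((tendsto_const_nhds.dist ha).eventually_const_lt hη).mono fun _ => le_of_lt
  have hex : ∀ x, ∃ w, x ≠ a → Tendsto (fun n => F n x) u (𝓝 w) := by
    intro x
    by_cases hx : x = a
    · exact ⟨0, fun h => absurd hx h⟩
    have h0 := dist_pos.2 hx
    obtain ⟨R, hR⟩ := h.bdd _ (half_pos h0)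
    obtain ⟨w, -, hw⟩ := (isCompact_closedBall (0 : ℂ) R).ultrafilter_le_nhds
      (u.map fun n => F n x) (by
        rw [le_principal_iff, Ultrafilter.coe_map, mem_map]
        filter_upwards [hu hR, hd x _ (half_lt_self h0)] with n h1 h2
        simpa using h1 x h2)
    exact ⟨w, fun _ => hw⟩
  choose G hG using hex
  have hc : ContinuousOn G {a}ᶜ := by
    intro x hx
    refine ContinuousAt.continuousWithinAt (Metric.continuousAt_iff.2 fun δ hδ => ?_)
    have h0 := dist_pos.2 hx
    obtain ⟨ε, hε, h1⟩ := h.cont _ (half_pos h0) _ (half_pos hδ)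
    refine ⟨min ε (dist x a / 2), lt_min hε (half_pos h0), fun x' hx' => ?_⟩
    have h2 : dist x a / 2 < dist x' a := by
      linarith [dist_triangle_left x a x', (lt_min_iff.1 hx').2]
    have h3 : x' ≠ a := dist_pos.1 ((half_pos h0).trans h2)
    refine (le_of_tendsto ((hG x' h3).dist (hG x hx)) ?_).trans_lt (half_lt_self hδ)
    filter_upwards [hu h1, hd x' _ h2, hd x _ (half_lt_self h0)] with n h4 h5 h6
    exact h4 x' x h5 h6 (lt_min_iff.1 hx').1.le
  refine no_onto (y := a) (F := G) hf hi hc ?_ ?_ ?_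
  · intro x hx x' hx' e
    by_contra hne
    have h0 := lt_min (dist_pos.2 hx) (dist_pos.2 hx')
    obtain ⟨δ, hδ, h1⟩ := h.inj _ (half_pos h0) _ (dist_pos.2 hne)
    have h2 : δ ≤ dist (G x) (G x') := by
      refine ge_of_tendsto ((hG x hx).dist (hG x' hx')) ?_
      filter_upwards [hu h1, hd x _ ((half_lt_self h0).trans_le (min_le_left _ _)),
        hd x' _ ((half_lt_self h0).trans_le (min_le_right _ _))] with n h4 h5 h6
      exact h4 x x' h5 h6 le_rfl
    rw [e, dist_self] at h2
    exact absurd hδ (not_lt.2 h2)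
  · intro w
    obtain ⟨η, hη, h1⟩ := h.prop (‖w‖ + 1)
    have hK : IsCompact {x : X | η ≤ dist x a} :=
      (isClosed_le continuous_const (continuous_id.dist continuous_const)).isCompact
    have hne : ∀ x, η ≤ dist x a → x ≠ a := fun x hx => dist_pos.1 (hη.trans_le hx)
    have hw : w ∈ closure (G '' {x : X | η ≤ dist x a}) := by
      refine Metric.mem_closure_iff.2 fun δ hδ => ?_
      have hδ' : 0 < min (δ / 3) 1 := lt_min (by linarith) one_pos
      have h2 : ∀ n, ∃ x, (∃ x, dist (F n x) w < min (δ / 3) 1) →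
          dist (F n x) w < min (δ / 3) 1 := fun n => by
        by_cases h3 : ∃ x, dist (F n x) w < min (δ / 3) 1
        · exact h3.imp fun _ h _ => h
        · exact ⟨a, fun h => absurd h h3⟩
      choose z hz using h2
      obtain ⟨b, hb⟩ := hlim z
      have h3 : ∀ᶠ n in (u : Filter ℕ), dist (F n (z n)) w < min (δ / 3) 1 :=
        ((h.onto w _ hδ').filter_mono hu).mono hz
      have h4 : ∀ᶠ n in (u : Filter ℕ), η ≤ dist (z n) (y n) := by
        filter_upwards [hu h1, h3] with n h5 h6
        by_contra h7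
        have h8 := h5 _ (not_le.1 h7)
        have h9 := norm_sub_norm_le (F n (z n)) w
        rw [← dist_eq_norm] at h9
        linarith [(lt_min_iff.1 h6).2]
      have h5 : η ≤ dist b a := ge_of_tendsto (hb.dist ha) h4
      obtain ⟨ε, hε, h6⟩ := h.cont _ (half_pos hη) _ hδ'
      refine ⟨G b, ⟨b, h5, rfl⟩, ?_⟩
      refine (le_of_tendsto (b := 2 * (δ / 3))
        (tendsto_const_nhds.dist (hG b (hne b h5))) ?_).trans_lt (by linarith)
      filter_upwards [hu h6, h3, h4, hd b _ ((half_lt_self hη).trans_le h5),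
        Metric.tendsto_nhds.1 hb ε hε] with n h7 h8 h9 h10 h11
      have h12 := h7 _ _ ((half_lt_self hη).le.trans h9) h10 h11.le
      linarith [dist_triangle_left w (F n b) (F n (z n)), min_le_left (δ / 3) 1]
    rw [(hK.image_of_continuousOn (hc.mono hne)).isClosed.closure_eq] at hw
    obtain ⟨x, hx, e⟩ := hw
    exact ⟨x, hne x hx, e⟩
  · intro R
    obtain ⟨η, hη, h1⟩ := h.prop R
    refine ⟨η, hη, fun x hx hx' => ge_of_tendsto (hG x hx).norm ?_⟩
    filter_upwards [hu h1, (tendsto_const_nhds.dist ha).eventually_lt_const hx'] with n h2 h3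
    exact h2 x h3

end KAC
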