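import Pool.Agent.Lib.MP_e1e491_gt.Ac.Defs
import Pool.Agent.Lib.MP_e1e491_gt.GbA

/-! Quasiconvex subgroups: generators and the Morse lemma. -/

namespace KAC

open Set KKC
open scoped Pointwise Classical

set_option linter.unusedSectionVars false

variable {G Z : Type} [Group G] [MetricSpace Z] [CompactSpace Z] [MulAction G Z] (H : HB G Z)
  {A : Subgroup G} {C : Set Z} {c K : ℕ} {S : Finset A}

theorem rg_of_qc (hq : H.QC A C) : ∃ c, RG H A c := by
  obtain ⟨L, hL, h1, h2⟩ := hq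
  obtain ⟨C₁, hC₁, hcmp⟩ := H.q_cmpG
  obtain ⟨K₀, hK₀⟩ := H.len_le_of_near (C₁ + 2 * L)
  refine ⟨2 * K₀, fun x hx t ht => ?_⟩
  obtain ⟨ξ, hξ, hd⟩ := h1 x hx
  obtain ⟨p, hp, hp'⟩ := H.geod x t ht
  have hr := H.sc_pos p
  obtain ⟨h, hh, v1, v2, v3⟩ := h2 ξ hξ _ hr (H.sc_le_one p)
  have hq : H.q (.inl p) (.inl x) = H.sc p := by
    rw [H.q_GG, HB.sc, ← hp', hp]
    congr 1
    push_cast
    ring
  have hx' : H.sc x ≤ H.sc p := H.sc_le_sc.2 (hp ▸ ht)
  have d1 : dist (H.loc p) (H.loc x) ≤ C₁ * H.sc p :=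
    (le_max_left _ _).trans ((hcmp p x).2.trans_eq (by rw [hq]))
  have d2 : dist ξ (H.loc x) ≤ L * H.sc p :=
    hd.trans (mul_le_mul_of_nonneg_left hx' (by linarith))
  have d3 := dist_triangle4 (H.loc p) (H.loc x) ξ (H.loc h)
  rw [dist_comm (H.loc x)] at d3
  have hM : L ≤ C₁ + 2 * L := by linarith
  have hk := hK₀ p h (by linarith) (v3.trans (mul_le_mul_of_nonneg_right hM (H.sc_pos h).le))
    (v2.trans (mul_le_mul_of_nonneg_right hM hr.le))
  have hk' : H.len (h⁻¹ * p) ≤ K₀ := by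
    rw [← H.len_inv, mul_inv_rev, inv_inv]
    exact hk
  have e1 := H.len_mul p (p⁻¹ * h)
  have e2 := H.len_mul h (h⁻¹ * p)
  have e3 := H.len_mul (h⁻¹ * p) (p⁻¹ * x)
  rw [mul_inv_cancel_left] at e1 e2
  rw [mul_assoc, mul_inv_cancel_left] at e3
  exact ⟨h, hh, by omega, by omega, by omega⟩

theorem exists_Gen (A : Subgroup G) (K : ℕ) : ∃ S : Finset A, Gen H K S := by
  have h : {a : A | H.len a ≤ K}.Finite := (H.fin K).preimage Subtype.val_injective.injOn
  exact ⟨h.toFinset, fun a => h.mem_toFinset⟩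

theorem sub1_step (hS : Gen H K S) (hc : RG H A c) (hK : 3 * c < K) {x : A} (hx : K < H.len x) :
    ∃ h ∈ S, H.len (h⁻¹ * x : A) + (K - 3 * c) ≤ H.len x := by
  obtain ⟨h, hh, h1, h2, h3⟩ := hc x x.2 (K - c) (by omega)
  refine ⟨⟨h, hh⟩, (hS _).2 (show H.len h ≤ K by omega), ?_⟩
  change H.len (h⁻¹ * x) + _ ≤ _
  omega

theorem sub1_one {B : Type} [Group B] {T : Finset B} {s : B} (hs : s ∈ T) : wlen T s ≤ 1 :=
  Gb.wlen_le (l := [s]) (by simp [hs]) (by simp)

theorem Gen.closure (hS : Gen H K S) (hc : RG H A c) (hK : 3 * c < K) :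
    Subgroup.closure (S : Set A) = ⊤ := by
  have key : ∀ n, ∀ x : A, H.len x = n → x ∈ Subgroup.closure (S : Set A) := fun n => by
    induction n using Nat.strong_induction_on with
    | _ n ih =>
      intro x hx
      rcases le_or_gt (H.len x) K with h | h
      · exact Subgroup.subset_closure ((hS x).2 h)
      · obtain ⟨s, hs, h1⟩ := sub1_step H hS hc hK h
        rw [← mul_inv_cancel_left s x]
        exact mul_mem (Subgroup.subset_closure hs) (ih _ (by omega) _ rfl)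
  exact top_le_iff.1 fun x _ => key _ x rfl

theorem Gen.wlen_le (hS : Gen H K S) (hc : RG H A c) (hK : 3 * c < K) (x : A) :
    (K - 3 * c) * wlen S x ≤ H.len x + K := by
  have key : ∀ n, ∀ x : A, H.len x = n → (K - 3 * c) * wlen S x ≤ H.len x + K := fun n => by
    induction n using Nat.strong_induction_on with
    | _ n ih =>
      intro x hx
      rcases le_or_gt (H.len x) K with h | h
      · have h1 := Nat.mul_le_mul_left (K - 3 * c) (sub1_one ((hS x).2 h))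
        omega
      · obtain ⟨s, hs, h1⟩ := sub1_step H hS hc hK h
        have h2 := ih _ (by omega) (s⁻¹ * x) rfl
        have h3 := Gb.wlen_mul (hS.closure H hc hK) s (s⁻¹ * x)
        rw [mul_inv_cancel_left] at h3
        have h4 := Nat.mul_le_mul_left (K - 3 * c)
          (h3.trans (Nat.add_le_add_right (sub1_one hs) _))
        rw [mul_add, mul_one] at h4
        omega
  exact key _ x rfl

theorem Gen.len_le (hS : Gen H K S) (hc : RG H A c) (hK : 3 * c < K) (x : A) :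
    H.len x ≤ K * wlen S x := by
  obtain ⟨l, hl, rfl, e⟩ := Gb.exists_word (hS.closure H hc hK) x
  rw [← e]
  clear e
  induction l with
  | nil => exact ((H.len_eq_zero _).2 rfl).le.trans (Nat.zero_le _)
  | cons s l ih =>
    have h1 : H.len s ≤ K := by
      rcases hl s List.mem_cons_self with h | h
      · exact (hS s).1 h
      · rw [← H.len_inv]
        exact (hS s⁻¹).1 h
    have h2 := ih fun t ht => hl t (List.mem_cons_of_mem _ ht)
    have h3 := H.len_mul s (l.prod : A)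
    rw [List.prod_cons, List.length_cons, mul_add, mul_one, Subgroup.coe_mul]
    omega

/-- Local to global: `u⁻¹, 1, v` lie on a geodesic for `w`, and `u` has three letters. -/
theorem sub1_chain {B : Type} [Group B] {l : B → ℝ} {w : B → ℕ} {K c δ : ℝ} (hc : 0 ≤ c)
    (hδ : 0 ≤ δ) (hK : 27 * c + 3 * δ < K) (li : ∀ u, l u⁻¹ = l u)
    (wm : ∀ u v, w (u * v) ≤ w u + w v)
    (init : ∀ v, 3 ≤ w v → ∃ u, w u = 3 ∧ w (u⁻¹ * v) + 3 = w v)
    (lo : ∀ u, (K - 3 * c) * w u ≤ l u + K) (up : ∀ u, l u ≤ K * w u)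
    (fp : ∀ x y z, min ((l x + l y - l (x⁻¹ * y)) / 2) ((l y + l z - l (y⁻¹ * z)) / 2) - δ ≤
      (l x + l z - l (x⁻¹ * z)) / 2) (n : ℕ) :
    ∀ u v, w v = n → w u = 3 → w v + 3 ≤ w (u * v) →
      l u + l v - l (u * v) ≤ K + 18 * c + 2 * δ := by
  have base : ∀ u v, w v ≤ 3 → w u = 3 → w v + 3 ≤ w (u * v) →
      l u + l v - l (u * v) ≤ K + 18 * c := fun u v h1 h2 h3 => by
    have a1 := up u
    have a2 := up v
    have a3 := lo (u * v)
    have a4 : (K - 3 * c) * (w v + 3) ≤ (K - 3 * c) * w (u * v) :=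
      mul_le_mul_of_nonneg_left (by exact_mod_cast h3) (by linarith)
    have a5 : c * w v ≤ c * 3 := mul_le_mul_of_nonneg_left (by exact_mod_cast h1) hc
    rw [h2, Nat.cast_ofNat] at a1
    linarith
  induction n using Nat.strong_induction_on with
  | _ n ih =>
    intro u v hn hu h
    rcases le_or_gt (w v) 3 with h3 | h3
    · linarith [base u v h3 hu h]
    obtain ⟨t, ht, ht'⟩ := init v h3.le
    have b1 := ih _ (by omega) t (t⁻¹ * v) rfl ht (by rw [mul_inv_cancel_left]; omega)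
    have b2 := wm (u * t) (t⁻¹ * v)
    rw [mul_assoc, mul_inv_cancel_left] at b2
    have b3 := base u t ht.le hu (by omega)
    have b4 := fp u⁻¹ v t
    have b5 := lo t
    have b6 := li (t⁻¹ * v)
    rw [mul_inv_rev, inv_inv] at b6
    rw [mul_inv_cancel_left] at b1
    rw [inv_inv, li, b6, sub_le_iff_le_add, min_le_iff] at b4
    rw [ht, Nat.cast_ofNat] at b5
    rcases b4 with b4 | b4 <;> linarith

theorem morse (hc : RG H A c) : ∃ K₀ : ℕ, 3 * c < K₀ ∧ ∀ K, K₀ ≤ K → ∀ S : Finset A, Gen H K S →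
    ∃ B : ℕ, ∀ m x : A, wlen S m + wlen S (m⁻¹ * x) = wlen S x →
      H.len m + H.len (m⁻¹ * x : A) ≤ H.len x + B := by
  obtain ⟨δ, hδ, hfp⟩ := H.four_point
  obtain ⟨K₀, hK₀⟩ := exists_nat_gt (27 * (c : ℝ) + 3 * δ)
  have hc0 : (0 : ℝ) ≤ c := Nat.cast_nonneg c
  have h3 : 3 * c < K₀ := by
    have h : (3 * c : ℝ) < K₀ := by linarith
    exact_mod_cast h
  refine ⟨K₀, h3, fun K hK S hS => ⟨6 * K, fun m x h => ?_⟩⟩
  have hK3 : 3 * c < K := h3.trans_le hK
  have hK' : 27 * (c : ℝ) + 3 * δ < K := hK₀.trans_le (Nat.cast_le.2 hK)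
  have hcl := hS.closure H hc hK3
  have li : ∀ u : A, (H.len (u⁻¹ : A) : ℝ) = H.len u := fun u => congrArg _ (H.len_inv u)
  have lo : ∀ u : A, ((K : ℝ) - 3 * c) * wlen S u ≤ H.len u + K := fun u => by
    have h1 := hS.wlen_le H hc hK3 u
    zify [hK3.le] at h1
    exact_mod_cast h1
  have ch := fun u v : A => sub1_chain (l := fun u : A => (H.len u : ℝ)) (w := wlen S) hc0 hδ hK'
    li (Gb.wlen_mul hcl) (fun v hv => Gb.exists_init hcl v hv) lo
    (fun u => by exact_mod_cast hS.len_le H hc hK3 u) (fun x y z => hfp x y z) _ u v rfl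
  rcases lt_or_ge (wlen S m) 3 with hm | hm
  · have h1 := (hS.len_le H hc hK3 m).trans (Nat.mul_le_mul_left K hm.le)
    have h2 := H.len_mul (m : G)⁻¹ x
    rw [H.len_inv] at h2
    change H.len m + H.len ((m : G)⁻¹ * x) ≤ _
    omega
  have hi := Gb.wlen_inv hcl m
  obtain ⟨t, ht, ht'⟩ := Gb.exists_init hcl m⁻¹ (n := 3) (by omega)
  have b1 := ch t (t⁻¹ * m⁻¹) ht (by rw [mul_inv_cancel_left]; omega)
  have b2 := Gb.wlen_mul hcl (t⁻¹ * m⁻¹)⁻¹ (t⁻¹ * (m⁻¹ * x))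
  rw [Gb.wlen_inv hcl, show (t⁻¹ * m⁻¹)⁻¹ * (t⁻¹ * (m⁻¹ * x)) = x by group] at b2
  have b3 := ch t⁻¹ (m⁻¹ * x) ((Gb.wlen_inv hcl t).trans ht) (by omega)
  have b4 : min (((H.len t : ℝ) + H.len (m⁻¹ : A) - H.len (t⁻¹ * m⁻¹ : A)) / 2)
      (((H.len (m⁻¹ : A) : ℝ) + H.len (m⁻¹ * x : A) - H.len (m⁻¹⁻¹ * (m⁻¹ * x) : A)) / 2) - δ ≤
      ((H.len t : ℝ) + H.len (m⁻¹ * x : A) - H.len (t⁻¹ * (m⁻¹ * x) : A)) / 2 :=
    hfp t (m⁻¹ : A) (m⁻¹ * x : A)
  have b5 := lo t
  rw [mul_inv_cancel_left, li] at b1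
  rw [li] at b3
  rw [inv_inv, mul_inv_cancel_left, li, sub_le_iff_le_add, min_le_iff] at b4
  rw [ht, Nat.cast_ofNat] at b5
  have b6 : (H.len m : ℝ) + H.len (m⁻¹ * x : A) ≤ H.len x + 6 * K := by
    rcases b4 with b4 | b4 <;> linarith
  exact_mod_cast b6

end KAC
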