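import Pool.Agent.Lib.MP_e1e491_gt.Ac.Sub1

/-! Quasiconvex subgroups: comparison of the Gromov products. -/

namespace KAC

open Set KKC
open scoped Pointwise Classical

variable {G Z : Type} [Group G] [MetricSpace Z] [CompactSpace Z] [MulAction G Z] (H : HB G Z)
  {A : Subgroup G} {C : Set Z} {c K : ℕ} {S : Finset A}

set_option linter.unusedSectionVars false

theorem sub2_fp (A : Subgroup G) : ∃ δ : ℕ, ∀ x y z : A,
    H.len y + H.len (x⁻¹ * z : A) ≤ H.len z + H.len (x⁻¹ * y : A) + δ ∨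
      H.len y + H.len (x⁻¹ * z : A) ≤ H.len x + H.len (y⁻¹ * z : A) + δ := by
  obtain ⟨δ, -, h⟩ := H.four_point
  obtain ⟨n, hn⟩ := exists_nat_ge (2 * δ)
  refine ⟨n, fun x y z => ?_⟩
  simp only [Subgroup.coe_mul, Subgroup.coe_inv]
  rcases min_le_iff.1 (sub_le_iff_le_add.1 (h x y z)) with h1 | h1
  · left
    rw [← Nat.cast_le (α := ℝ)]
    push_cast
    linarith
  · right
    rw [← Nat.cast_le (α := ℝ)]
    push_cast
    linarith

theorem sub2_comm (x y : A) : H.len (x⁻¹ * y : A) = H.len (y⁻¹ * x : A) := by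
  rw [← H.len_inv, ← Subgroup.coe_inv, mul_inv_rev, inv_inv]

theorem sub2_tri (x y : A) : H.len y ≤ H.len x + H.len (x⁻¹ * y : A) := by
  simpa using H.len_mul x (x⁻¹ * y : A)

theorem sub2_wcomm (hS : Subgroup.closure (S : Set A) = ⊤) (x y : A) :
    wlen S (x⁻¹ * y) = wlen S (y⁻¹ * x) := by
  rw [← Gb.wlen_inv hS, mul_inv_rev, inv_inv]

theorem sub2_wtri (hS : Subgroup.closure (S : Set A) = ⊤) (x y : A) :
    wlen S y ≤ wlen S x + wlen S (x⁻¹ * y) := by
  simpa using Gb.wlen_mul hS x (x⁻¹ * y)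

theorem sub2_wtri' (hS : Subgroup.closure (S : Set A) = ⊤) (x y z : A) :
    wlen S (x⁻¹ * z) ≤ wlen S (x⁻¹ * y) + wlen S (y⁻¹ * z) := by
  simpa [mul_assoc] using Gb.wlen_mul hS (x⁻¹ * y) (y⁻¹ * z)

theorem sub2_wle (hS : Gen H K S) (hc : RG H A c) (hK : 3 * c < K) (x : A) :
    wlen S x ≤ H.len x + K :=
  (Nat.le_mul_of_pos_left _ (by omega)).trans (hS.wlen_le H hc hK x)

theorem sub2_ivt (hS : Gen H K S) (hc : RG H A c) (hK : 3 * c < K) (t n : ℕ) :
    ∀ x : A, wlen S x = n → t ≤ H.len x →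
      ∃ h : A, wlen S h + wlen S (h⁻¹ * x) = n ∧ t ≤ H.len h ∧ H.len h ≤ t + K := by
  have hT := hS.closure H hc hK
  induction n with
  | zero =>
    intro x hx ht
    have := hS.len_le H hc hK x
    rw [hx] at this
    exact ⟨x, by rw [inv_mul_cancel, Gb.wlen_one, hx], ht, by omega⟩
  | succ n ih =>
    intro x hx ht
    obtain ⟨y, h1, h2⟩ := Gb.exists_init hT x (n := n) (by omega)
    by_cases h : t ≤ H.len y
    · obtain ⟨p, h3, h4⟩ := ih y h1 h
      have h5 := sub2_wtri' hT p y x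
      have h6 := sub2_wtri hT p x
      exact ⟨p, by omega, h4⟩
    · have h3 := hS.len_le H hc hK (y⁻¹ * x)
      rw [show wlen S (y⁻¹ * x) = 1 by omega] at h3
      have h4 := sub2_tri H y x
      exact ⟨x, by rw [inv_mul_cancel, Gb.wlen_one, hx], ht, by omega⟩

theorem morse' (hS : Gen H K S) (hc : RG H A c) (hK : 3 * c < K) {B₀ : ℕ}
    (hm : ∀ m x : A, wlen S m + wlen S (m⁻¹ * x) = wlen S x →
      H.len m + H.len (m⁻¹ * x : A) ≤ H.len x + B₀) (B : ℕ) :
    ∃ B' : ℕ, ∀ m x : A, H.len m + H.len (m⁻¹ * x : A) ≤ H.len x + B →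
      wlen S m + wlen S (m⁻¹ * x) ≤ wlen S x + B' := by
  have hT := hS.closure H hc hK
  obtain ⟨δ, hδ⟩ := sub2_fp H A
  refine ⟨2 * (2 * K + 2 * B + B₀ + δ), fun m x h => ?_⟩
  obtain ⟨p, h1, h2, h3⟩ := sub2_ivt H hS hc hK (min (H.len m) (H.len x)) _ x rfl (min_le_right _ _)
  have h4 := hm p x h1
  have h5 := hδ m x p
  have h6 := sub2_comm H x p
  have h7 := sub2_wle H hS hc hK (m⁻¹ * p)
  have h8 := sub2_wtri hT p m
  have h9 := sub2_wtri' hT m p x
  have h10 := sub2_wcomm hT m p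
  omega

theorem exists_cmp (hq : H.QC A C) : ∃ (S : Finset A) (K B : ℝ), 1 ≤ K ∧
    Subgroup.closure (S : Set A) = ⊤ ∧ Cmp H S K B := by
  obtain ⟨c, hc⟩ := rg_of_qc H hq
  obtain ⟨K, hK, hm⟩ := morse H hc
  obtain ⟨S, hS⟩ := exists_Gen H A K
  obtain ⟨B₀, hm⟩ := hm K le_rfl S hS
  have hT := hS.closure H hc hK
  obtain ⟨δ, hδ⟩ := sub2_fp H A
  obtain ⟨B, hB⟩ := morse' H hS hc hK hm (5 * c + 4 + δ)
  have cen : ∀ x y : A, ∃ m : A,
      2 * H.len m + H.len (x⁻¹ * y : A) ≤ H.len x + H.len y + 2 * c ∧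
      H.len x + H.len y ≤ 2 * H.len m + H.len (x⁻¹ * y : A) + 2 * c + 1 ∧
      H.len m + H.len (m⁻¹ * x : A) ≤ H.len x + c ∧
      2 * wlen S m + wlen S (x⁻¹ * y) ≤ wlen S x + wlen S y + 2 * B ∧
      wlen S x + wlen S y ≤ 2 * wlen S m + wlen S (x⁻¹ * y) + B := fun x y => by
    have a1 := sub2_tri H x y
    have a2 : H.len (x⁻¹ * y : A) ≤ H.len x + H.len y := by
      simpa [H.len_inv] using H.len_mul (x : G)⁻¹ y
    obtain ⟨m, hmA, b1, b2, b3⟩ := hc x x.2 ((H.len x + H.len y - H.len (x⁻¹ * y : A)) / 2)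
      (by omega)
    lift m to A using hmA
    replace b3 : H.len m + H.len (m⁻¹ * x : A) ≤ H.len x + c := b3
    have a3 := hδ m x y
    have a4 := sub2_comm H m x
    have e : (x⁻¹ * m)⁻¹ * (x⁻¹ * y) = m⁻¹ * y := by group
    have c1 := hB m x (by omega)
    have c2 := hB m y (by omega)
    have c3 := hB (x⁻¹ * m) (x⁻¹ * y) (by rw [e]; omega)
    rw [e] at c3
    have c4 := sub2_wtri hT m x
    have c5 := sub2_wtri hT m y
    have c6 := sub2_wtri' hT x m y
    have c7 := sub2_wcomm hT m x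
    exact ⟨m, by omega, by omega, b3, by omega, by omega⟩
  have hK1 : (1 : ℝ) ≤ K := by exact_mod_cast (by omega : 1 ≤ K)
  refine ⟨S, K, (3 * B + 3 * c + 2 + δ + K : ℕ), hK1, hT, fun x y z => ?_⟩
  obtain ⟨m, a1, a2, a3, a4, a5⟩ := cen x y
  obtain ⟨n, b1, b2, b3, b4, b5⟩ := cen x z
  have c1 := hδ n x m
  have c2 := sub2_comm H x m
  have c3 := sub2_comm H n m
  have e : gG H (x : G) y - gG H (x : G) z = ((H.len y + H.len (x⁻¹ * z : A) : ℕ) -
      (H.len z + H.len (x⁻¹ * y : A) : ℕ) : ℝ) / 2 := by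
    simp only [gG, Subgroup.coe_mul, Subgroup.coe_inv]
    push_cast
    ring
  have e' : gp S x y - gp S x z = ((wlen S y + wlen S (x⁻¹ * z) : ℕ) -
      (wlen S z + wlen S (x⁻¹ * y) : ℕ) : ℝ) / 2 := by
    simp only [gp]
    push_cast
    ring
  rw [e, e', sub_le_iff_le_add, min_le_iff]
  by_cases h : H.len z + H.len (x⁻¹ * y : A) ≤ H.len y + H.len (x⁻¹ * z : A)
  · left
    have d1 := hB n m (by omega)
    have d2 := hS.len_le H hc hK (n⁻¹ * m)
    have d3 := sub2_tri H n m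
    have d4 : H.len y + H.len (x⁻¹ * z : A) ≤
        H.len z + H.len (x⁻¹ * y : A) + 2 * ((wlen S (n⁻¹ * m) + (2 * c + 1)) * K) := by
      have := Nat.le_mul_of_pos_right (2 * c + 1) (by omega : 0 < K)
      rw [add_mul, mul_comm _ K]
      omega
    have d5 : wlen S z + wlen S (x⁻¹ * y) + 2 * (wlen S (n⁻¹ * m) + (2 * c + 1)) ≤
        wlen S y + wlen S (x⁻¹ * z) + 2 * (3 * B + 3 * c + 2 + δ + K) := by omega
    rw [← Nat.cast_le (α := ℝ)] at d4 d5
    refine le_trans (b := ((wlen S (n⁻¹ * m) + (2 * c + 1) : ℕ) : ℝ)) ?_ ?_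
    · rw [div_le_iff₀ (by linarith)]
      push_cast at d4 ⊢
      linarith
    · push_cast at d5 ⊢
      linarith
  · right
    have d1 := sub2_wle H hS hc hK (m⁻¹ * n)
    have d2 := sub2_wtri hT m n
    have d3 : H.len y + H.len (x⁻¹ * z : A) + (wlen S z + wlen S (x⁻¹ * y)) ≤
        H.len z + H.len (x⁻¹ * y : A) + (wlen S y + wlen S (x⁻¹ * z)) +
          2 * (3 * B + 3 * c + 2 + δ + K) := by omega
    rw [← Nat.cast_le (α := ℝ)] at d3
    push_cast at d3 ⊢
    linarith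

theorem Cmp.hyp {K B : ℝ} (hK : 1 ≤ K) (hS : Subgroup.closure (S : Set A) = ⊤)
    (h : Cmp H S K B) : Hyperbolic S := by
  obtain ⟨δ, h0, hδ⟩ := H.four_point
  have comm : ∀ x y : G, gG H x y = gG H y x := fun x y => by
    rw [gG, gG, ← H.len_inv (x⁻¹ * y), mul_inv_rev, inv_inv, add_comm]
  have key : ∀ x y z : A, gG H (x : G) z - δ ≤ gG H (x : G) y → gp S x z - (δ + B) ≤ gp S x y :=
    fun x y z h1 => by
      have h2 := h x y z
      have h3 : -δ ≤ (gG H (x : G) y - gG H (x : G) z) / K := by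
        rw [le_div_iff₀ (by linarith)]
        nlinarith
      have h4 := le_min h3 (by linarith : -δ ≤ gG H (x : G) y - gG H (x : G) z)
      linarith
  refine ⟨δ + B, fun x y z => ?_⟩
  have h1 : min (gG H (x : G) y) (gG H (y : G) z) - δ ≤ gG H (x : G) z := hδ x y z
  rcases min_le_iff.1 (sub_le_iff_le_add.1 h1) with h2 | h2
  · have := key x z y (by linarith)
    linarith [min_le_left (gp S x y) (gp S y z)]
  · have := key z x y (by rw [comm z, comm z]; linarith)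
    rw [Gb.gp_comm hS z, Gb.gp_comm hS z] at this
    linarith [min_le_right (gp S x y) (gp S y z)]

end KAC
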