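import Pool.Agent.Lib.MP_e1e491_gt.Ac.Sub2
import Pool.Agent.Lib.MP_e1e491_gt.GbB

/-! The limit set of a quasiconvex subgroup is its boundary. -/

namespace KAC

open Set KKC Filter Topology
open scoped Pointwise Classical

set_option linter.unusedSectionVars false

variable {G Z : Type} [Group G] [MetricSpace Z] [CompactSpace Z] [MulAction G Z] (H : HB G Z)
  {A : Subgroup G} {C : Set Z} {S : Finset A} {K B : ℝ}

theorem sub3_one (x : G) : gG H x 1 = 0 := by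
  simp [gG, (H.len_eq_zero 1).2 rfl, H.len_inv]

theorem sub3_nonneg (x y : G) : 0 ≤ gG H x y := by
  have h : (H.len (x⁻¹ * y) : ℝ) ≤ H.len x + H.len y := by
    exact_mod_cast (H.len_mul _ _).trans_eq (by rw [H.len_inv])
  unfold gG
  linarith

theorem sub3_asymp (hK : 1 ≤ K) (hS : Subgroup.closure (S : Set A) = ⊤) (h : Cmp H S K B)
    {u v : ℕ → A} : Asymp S u v ↔
      ∀ ε > 0, ∃ N, ∀ i ≥ N, ∀ j ≥ N, H.q (.inl (u i : G)) (.inl (v j : G)) ≤ ε := by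
  have hq : ∀ (x y : G) (t : ℝ), H.q (.inl x) (.inl y) ≤ H.a ^ (-t) ↔ t ≤ gG H x y :=
    fun x y t => by rw [H.q_GG, Real.rpow_le_rpow_left_iff H.ha, neg_le_neg_iff]; rfl
  rw [Gb.asymp_iff]
  refine ⟨fun h1 ε hε => ?_, fun h1 M => ?_⟩
  · obtain ⟨t, rfl⟩ := Gb.exists_small H.ha hε
    obtain ⟨N, hN⟩ := h1 (t + B)
    refine ⟨N, fun i hi j hj => (hq _ _ _).2 ?_⟩
    have h2 := h (u i) 1 (v j)
    have h3 := sub3_nonneg H (u i) (v j)
    rw [Gb.gp_one hS, OneMemClass.coe_one, sub3_one, zero_sub, min_eq_right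
      ((le_div_iff₀ (by linarith)).2 (by nlinarith))] at h2
    linarith [hN i hi j hj]
  · obtain ⟨N, hN⟩ := h1 _ (Real.rpow_pos_of_pos (zero_lt_one.trans H.ha) (-(K * (M + B))))
    refine ⟨N, fun i hi j hj => ?_⟩
    have h2 := h (u i) (v j) 1
    have h3 := sub3_nonneg H (u i) (v j)
    have h4 := (hq _ _ _).1 (hN i hi j hj)
    rw [Gb.gp_one hS, OneMemClass.coe_one, sub3_one, sub_zero, min_eq_left (div_le_self h3 hK)]
      at h2
    have := (le_div_iff₀' (by linarith : 0 < K)).2 h4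
    linarith

theorem sub3_tends {u : ℕ → A} {ξ : Z} :
    Tends H u ξ ↔ ∀ ε > 0, ∃ N, ∀ i ≥ N, H.q (.inr ξ) (.inl (u i : G)) ≤ ε := by
  unfold Tends
  refine ⟨fun h ε hε => eventually_atTop.1 (h.eventually (ge_mem_nhds hε)), fun h =>
    Metric.tendsto_atTop.2 fun ε hε => ?_⟩
  obtain ⟨N, hN⟩ := h _ (half_pos hε)
  refine ⟨N, fun i hi => ?_⟩
  rw [Real.dist_eq, sub_zero, abs_of_nonneg (H.q_nonneg _ _)]
  linarith [hN i hi]

theorem sub3_iff (hK : 1 ≤ K) (hS : Subgroup.closure (S : Set A) = ⊤) (h : Cmp H S K B)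
    {u v : ℕ → A} {ξ ζ : Z} (hu : Tends H u ξ) (hv : Tends H v ζ) : Asymp S u v ↔ ξ = ζ := by
  have hC : 0 < H.C := zero_lt_one.trans_le H.hC
  rw [sub3_tends] at hu hv
  rw [sub3_asymp H hK hS h]
  refine ⟨fun h1 => dist_le_zero.1 (le_of_forall_pos_le_add fun ε hε => ?_), fun e ε hε => ?_⟩
  · have hp : 0 < ε / H.C ^ 3 := by positivity
    obtain ⟨N1, h1⟩ := h1 _ hp
    obtain ⟨N2, h2⟩ := hu _ hp
    obtain ⟨N3, h3⟩ := hv _ hp
    set n := N1 + N2 + N3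
    have e1 := (H.ultra (.inr ξ) (.inl (u n : G)) (.inl (v n : G))).trans
      (mul_le_mul_of_nonneg_left (max_le (h2 n (by omega)) (h1 n (by omega) n (by omega))) hC.le)
    have e2 : H.q (.inl (v n : G)) (.inr ζ) ≤ H.C * (ε / H.C ^ 3) := by
      rw [H.q_comm]
      exact (h3 n (by omega)).trans (le_mul_of_one_le_left hp.le H.hC)
    have e3 := (H.ultra _ _ _).trans (mul_le_mul_of_nonneg_left (max_le e1 e2) hC.le)
    refine (H.le_q ξ ζ).trans ((mul_le_mul_of_nonneg_left e3 hC.le).trans (le_of_eq ?_))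
    field_simp
    ring
  · subst e
    have hp : 0 < ε / H.C := by positivity
    obtain ⟨N2, h2⟩ := hu _ hp
    obtain ⟨N3, h3⟩ := hv _ hp
    refine ⟨N2 + N3, fun i hi j hj => (H.ultra _ (.inr ξ) _).trans ?_⟩
    rw [H.q_comm (.inl _), ← le_div_iff₀' hC]
    exact max_le (h2 i (by omega)) (h3 j (by omega))

theorem sub3_view (hq : H.QC A C) {ξ : Z} (hξ : ξ ∈ C) : ∃ u : ℕ → A, Tends H u ξ := by
  obtain ⟨L, hL, -, h⟩ := hq
  obtain ⟨C₁, hC₁, hc⟩ := H.q_cmp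
  have hr : ∀ i : ℕ, (0 : ℝ) < 1 / (i + 1) := fun i => Nat.one_div_pos_of_nat
  choose u hu hv using fun i : ℕ => h ξ hξ _ (hr i)
    ((div_le_one (by positivity)).2 (by simp))
  refine ⟨fun i => ⟨u i, hu i⟩, squeeze_zero (fun i => H.q_nonneg _ _) (fun i => (hc ξ (u i)).1.trans
    (mul_le_mul_of_nonneg_left (max_le (hv i).1 (hv i).2.1) (by linarith))) ?_⟩
  simpa using (tendsto_one_div_add_atTop_nhds_zero_nat.const_mul L).const_mul C₁

theorem sub3_lim (hq : H.QC A C) (hC : IsClosed C) {u : ℕ → A}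
    (h : ∀ ε > 0, ∃ N, ∀ i ≥ N, ∀ j ≥ N, H.q (.inl (u i : G)) (.inl (u j : G)) ≤ ε) :
    ∃ ξ ∈ C, Tends H u ξ := by
  obtain ⟨L, hL, h1, -⟩ := hq
  obtain ⟨C₁, hC₁, hc⟩ := H.q_cmp
  obtain ⟨C₂, hC₂, hg⟩ := H.q_cmpG
  have hs : Tendsto (fun i => H.sc (u i)) atTop (𝓝 0) := Metric.tendsto_atTop.2 fun ε hε => by
    obtain ⟨N, hN⟩ := h _ (half_pos hε)
    refine ⟨N, fun i hi => ?_⟩
    rw [Real.dist_eq, sub_zero, abs_of_pos (H.sc_pos _), ← H.q_self]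
    linarith [hN i hi i hi]
  have hcau : CauchySeq fun i => H.loc (u i) := Metric.cauchySeq_iff.2 fun ε hε => by
    obtain ⟨N, hN⟩ := h (ε / (2 * C₂)) (by positivity)
    refine ⟨N, fun i hi j hj => ((le_max_left _ _).trans ((hg _ _).2.trans
      (mul_le_mul_of_nonneg_left (hN i hi j hj) (by linarith)))).trans_lt ?_⟩
    rw [show C₂ * (ε / (2 * C₂)) = ε / 2 by field_simp]
    linarith
  obtain ⟨ξ, hξ⟩ := cauchySeq_tendsto_of_complete hcau
  choose p hp hd using fun i => h1 (u i) (u i).2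
  refine ⟨ξ, hC.mem_of_tendsto (hξ.congr_dist (squeeze_zero (fun i => dist_nonneg)
    (fun i => (dist_comm _ _).trans_le (hd i)) (by simpa using hs.const_mul L)))
    (Eventually.of_forall hp), squeeze_zero (fun i => H.q_nonneg _ _) (fun i => (hc ξ _).1) ?_⟩
  simpa using ((tendsto_iff_dist_tendsto_zero.1 hξ).congr (fun i => dist_comm _ _) |>.max
    hs).const_mul C₁

theorem exists_equiv (hq : H.QC A C) (hC : IsClosed C) (hK : 1 ≤ K)
    (hS : Subgroup.closure (S : Set A) = ⊤) (h : Cmp H S K B) :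
    ∃ e : C ≃ Bdry S, ∀ ξ : C, ∃ u : {x : ℕ → A // Asymp S x x}, Gb.mk u = e ξ ∧ Tends H u.1 ξ := by
  choose u hu using fun ξ : C => sub3_view H hq ξ.2
  have ha : ∀ ξ, Asymp S (u ξ) (u ξ) := fun ξ => (sub3_iff H hK hS h (hu ξ) (hu ξ)).2 rfl
  let v : C → {x : ℕ → A // Asymp S x x} := fun ξ => ⟨u ξ, ha ξ⟩
  have hi : Function.Injective fun ξ => Gb.mk (v ξ) := fun ξ ζ e =>
    Subtype.ext ((sub3_iff H hK hS h (hu ξ) (hu ζ)).1
      (Gb.asymp_of_eq hS (Cmp.hyp H hK hS h) (x := v ξ) (y := v ζ) e))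
  have hs : Function.Surjective fun ξ => Gb.mk (v ξ) := fun η => by
    obtain ⟨x, rfl⟩ := Gb.mk_surj η
    obtain ⟨ξ, hξ, ht⟩ := sub3_lim H hq hC ((sub3_asymp H hK hS h).1 x.2)
    have e : Asymp S (v ⟨ξ, hξ⟩).1 x.1 := (sub3_iff H hK hS h (hu ⟨ξ, hξ⟩) ht).2 rfl
    exact ⟨⟨ξ, hξ⟩, Quot.sound e⟩
  exact ⟨Equiv.ofBijective _ ⟨hi, hs⟩, fun ξ => ⟨v ξ, rfl, hu ξ⟩⟩

end KAC
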