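import Pool.Agent.Lib.MP_e1e491_gt.Ac.Defs
import Pool.Agent.Lib.MP_e1e491_gt.S1U

/-! Metric properties of the nested family. -/

namespace KAC

open Set KKC
open scoped Pointwise Classical

theorem tr1_unif {α : Type} {F : Set α} (hF : F.Finite) (P : α → ℝ → Prop)
    (mono : ∀ a c c', c' ≤ c → P a c → P a c') (h : ∀ a ∈ F, ∃ c > 0, P a c) :
    ∃ c > 0, ∀ a ∈ F, P a c := by
  induction F, hF using Set.Finite.induction_on with
  | empty => exact ⟨1, one_pos, fun a ha => absurd ha (notMem_empty a)⟩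
  | @insert a s _ _ ih =>
    obtain ⟨c, hc, h1⟩ := ih fun b hb => h b (mem_insert_of_mem _ hb)
    obtain ⟨c', hc', h2⟩ := h a (mem_insert _ _)
    refine ⟨min c c', lt_min hc hc', fun b hb => ?_⟩
    rcases hb with rfl | hb
    · exact mono _ _ _ (min_le_right _ _) h2
    · exact mono _ _ _ (min_le_left _ _) (h1 b hb)

theorem tr1_mono {Z : Type} [MetricSpace Z] {s : Set Z} {c c' : ℝ} (h : c' ≤ c) (hb : Big c s) :
    Big c' s := by
  obtain ⟨x, hx, y, hy, k⟩ := hb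
  exact ⟨x, hx, y, hy, h.trans k⟩

theorem tr1_nt {Z : Type} [MetricSpace Z] {s : Set Z} (h : s.Nontrivial) : ∃ c > 0, Big c s := by
  obtain ⟨x, hx, y, hy, k⟩ := h
  exact ⟨_, dist_pos.2 k, x, hx, y, hy, le_rfl⟩

theorem tr1_big {Z : Type} [MetricSpace Z] (𝒞 : Set (Set Z)) {o : Fin 3 → Z}
    (ho : Function.Injective o) : ∃ δ > 0, ∀ V ∈ small 𝒞 o, Big δ Vᶜ := by
  have p01 : 0 < dist (o 0) (o 1) := dist_pos.2 (ho.ne (by decide))
  have p02 : 0 < dist (o 0) (o 2) := dist_pos.2 (ho.ne (by decide))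
  have p12 : 0 < dist (o 1) (o 2) := dist_pos.2 (ho.ne (by decide))
  refine ⟨_, lt_min (lt_min p01 p02) p12, fun V hV => ?_⟩
  by_cases h0 : o 0 ∈ V
  · exact ⟨o 1, fun h => absurd (hV.2 0 1 h0 h) (by decide), o 2,
      fun h => absurd (hV.2 0 2 h0 h) (by decide), min_le_right _ _⟩
  by_cases h1 : o 1 ∈ V
  · exact ⟨o 0, h0, o 2, fun h => absurd (hV.2 1 2 h1 h) (by decide),
      (min_le_left _ _).trans (min_le_right _ _)⟩
  · exact ⟨o 0, h0, o 1, h1, (min_le_left _ _).trans (min_le_left _ _)⟩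

theorem tr1_gap {Z : Type} [MetricSpace Z] [CompactSpace Z] {W : Set Z} (hW : IsClopen W) :
    ∃ c > 0, ∀ x ∈ W, ∀ y ∉ W, c ≤ dist x y := by
  obtain ⟨η, hη, hd⟩ := (disjoint_compl_right (a := W)).exists_thickenings
    hW.isClosed.isCompact hW.compl.isClosed
  refine ⟨η, hη, fun x hx y hy => ?_⟩
  have h1 : y ∉ Metric.thickening η W := fun k =>
    Set.disjoint_left.1 hd k (Metric.self_subset_thickening hη _ hy)
  exact HB.v2_far h1 hx

variable {G Z : Type} [Group G] [MetricSpace Z] [CompactSpace Z] [MulAction G Z] (H : HB G Z)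
  {𝒞 : Set (Set Z)} (hF : Fam G 𝒞) {o : Fin 3 → Z}
include H

theorem dob : Dob Z := by
  obtain ⟨C₀, Q, h⟩ := H.exists_dbl
  intro T
  refine ⟨C₀ * (max 1 ⌈T⌉₊) ^ Q, fun r hr ξ P h1 h2 =>
    h r hr _ (le_max_left _ _) ξ P h1 fun z hz => (h2 z hz).trans ?_⟩
  refine mul_le_mul_of_nonneg_right ?_ hr.le
  exact (Nat.le_ceil T).trans (by exact_mod_cast le_max_right _ _)

theorem far {W : Set Z} (hW : IsClopen W) {δ : ℝ} (hδ : 0 < δ) : ∃ c > 0, ∀ g : G,
    Big δ (g • W)ᶜ → ∀ x ∈ W, c ≤ max (dist x (H.loc g⁻¹)) (H.sc g) := by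
  obtain ⟨η, hη, hd⟩ := (disjoint_compl_right (a := W)).exists_thickenings
    hW.isClosed.isCompact hW.compl.isClosed
  obtain ⟨C₁, h1, h⟩ := H.conv
  have h0 : 0 < C₁ := by linarith
  refine ⟨min η (η * (δ / 2) / C₁), lt_min hη (by positivity), fun g hb x hx => ?_⟩
  by_cases hp : H.loc g⁻¹ ∈ Metric.thickening η W
  · rw [← smul_set_compl] at hb
    obtain ⟨y, e1, e2⟩ := H.v2_big (Set.disjoint_left.1 hd hp) hb
    refine (min_le_right _ _).trans (le_trans ?_ (le_max_right _ _))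
    rw [div_le_iff₀ h0, mul_comm (H.sc g)]
    exact (mul_le_mul e1 e2 (half_pos hδ).le dist_nonneg).trans (h g y)
  · exact (min_le_left _ _).trans ((HB.v2_far hp hx).trans (le_max_left _ _))

omit [CompactSpace Z] in
theorem tr1_dist {c : ℝ} (hc : 0 < c) : ∃ M : ℝ, 1 ≤ M ∧ ∀ (g : G) (x y : Z),
    c ≤ max (dist x (H.loc g⁻¹)) (H.sc g) → c ≤ max (dist y (H.loc g⁻¹)) (H.sc g) →
    dist (g • x) (g • y) ≤ M * (H.sc g * dist x y) := by
  obtain ⟨C₁, h1, h⟩ := H.mobZ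
  refine ⟨max 1 (C₁ / (c * c)), le_max_left _ _, fun g x y hx hy => ?_⟩
  have hs : 0 ≤ H.sc g * dist x y := mul_nonneg (H.sc_pos g).le dist_nonneg
  refine le_trans ?_ (mul_le_mul_of_nonneg_right (le_max_right _ _) hs)
  rw [div_mul_eq_mul_div, le_div_iff₀ (mul_pos hc hc), ← mul_assoc]
  refine le_trans ?_ (h g x y).1
  exact mul_le_mul (mul_le_mul_of_nonneg_left hx dist_nonneg) hy hc.le
    (mul_nonneg dist_nonneg (hc.le.trans hx))

set_option linter.unusedSectionVars false in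
theorem dist_smul_le {c : ℝ} (hc : 0 < c) : ∃ M : ℝ, 1 ≤ M ∧ ∀ (g : G) (x y : Z),
    c ≤ max (dist x (H.loc g⁻¹)) (H.sc g) → c ≤ max (dist y (H.loc g⁻¹)) (H.sc g) →
    dist (g • x) (g • y) ≤ M * (H.sc g * dist x y) := by
  exact tr1_dist H hc

include hF

theorem finN {δ : ℝ} (hδ : 0 < δ) : {U ∈ 𝒞 | Big δ U ∧ Big δ Uᶜ}.Finite := by
  obtain ⟨F, h1, h2, h3⟩ := hF.orb
  refine (h1.biUnion (t := fun W => (fun g : G => g • W) ''
    {g : G | Big δ (g • W) ∧ Big δ (g • Wᶜ)}) fun W hW => ?_).subset ?_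
  · have hc := hF.clopen W (h2 hW)
    exact (H.lemmaN hc.isClosed.isCompact hc.compl.isClosed.isCompact disjoint_compl_right
      hδ).image _
  · rintro U ⟨hU, b1, b2⟩
    obtain ⟨g, W, hW, rfl⟩ := h3 U hU
    rw [← smul_set_compl] at b2
    exact mem_biUnion hW ⟨g, ⟨b1, b2⟩, rfl⟩

theorem exists_models (ho : Function.Injective o) : ∃ (F : Set (Set Z)) (M : ℝ), F.Finite ∧
    F ⊆ small 𝒞 o ∧ 1 ≤ M ∧ ∀ V ∈ small 𝒞 o, ∃ g : G, ∃ W ∈ F, V = g • W ∧ ∀ x ∈ W, ∀ y ∈ W,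
      dist (g • x) (g • y) ≤ M * (H.sc g * dist x y) ∧
      H.sc g * dist x y ≤ M * dist (g • x) (g • y) := by
  obtain ⟨F, h1, h2, h3⟩ := hF.orb
  obtain ⟨δ, hδ, hb⟩ := tr1_big 𝒞 ho
  have hr : ∀ W : Set Z, ∃ r : G, (∃ g : G, g • W ∈ small 𝒞 o) → r • W ∈ small 𝒞 o := by
    intro W
    by_cases h : ∃ g : G, g • W ∈ small 𝒞 o
    · exact h.imp fun g hg _ => hg
    · exact ⟨1, fun k => absurd k h⟩
  choose r hr using hr
  have hf : ((fun W => r W • W) '' {W ∈ F | ∃ g : G, g • W ∈ small 𝒞 o}).Finite :=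
    (h1.subset (sep_subset _ _)).image _
  have hs : (fun W => r W • W) '' {W ∈ F | ∃ g : G, g • W ∈ small 𝒞 o} ⊆ small 𝒞 o := by
    rintro _ ⟨W, hW, rfl⟩
    exact hr W hW.2
  obtain ⟨c, hc, hu⟩ := tr1_unif hf (fun W c => ∀ g : G, Big δ (g • W)ᶜ → ∀ x ∈ W,
      c ≤ max (dist x (H.loc g⁻¹)) (H.sc g))
    (fun W c c' k h g hg x hx => k.trans (h g hg x hx))
    fun W hW => far H (hF.clopen W (hs hW).1) hδ
  obtain ⟨M, hM, hm⟩ := dist_smul_le H hc
  obtain ⟨C₁, hC, hl⟩ := H.lip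
  refine ⟨_, max M C₁, hf, hs, le_max_of_le_left hM, fun V hV => ?_⟩
  obtain ⟨g, W, hW, rfl⟩ := h3 V hV.1
  have e : g • W = (g * (r W)⁻¹) • r W • W := by rw [mul_smul, inv_smul_smul]
  have hm' : r W • W ∈ (fun W => r W • W) '' {W ∈ F | ∃ g : G, g • W ∈ small 𝒞 o} :=
    ⟨W, ⟨hW, g, hV⟩, rfl⟩
  have hb' := hb _ hV
  rw [e] at hb'
  refine ⟨g * (r W)⁻¹, _, hm', e, fun x hx y hy => ⟨?_, ?_⟩⟩
  · exact (hm _ x y (hu _ hm' _ hb' x hx) (hu _ hm' _ hb' y hy)).trans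
      (mul_le_mul_of_nonneg_right (le_max_left _ _) (mul_nonneg (H.sc_pos _).le dist_nonneg))
  · exact (hl _ x y).2.trans (mul_le_mul_of_nonneg_right (le_max_right _ _) dist_nonneg)

theorem lam_small (ho : Function.Injective o) : ∃ L, Lam (small 𝒞 o) L := by
  obtain ⟨F, h1, h2, h3⟩ := hF.orb
  obtain ⟨δ, hδ, hb⟩ := tr1_big 𝒞 ho
  obtain ⟨c, hc, hu⟩ := tr1_unif h1 (fun W c => (∀ g : G, Big δ (g • W)ᶜ → ∀ x ∈ W,
      c ≤ max (dist x (H.loc g⁻¹)) (H.sc g)) ∧ (∀ x ∈ W, ∀ y ∉ W, c ≤ dist x y) ∧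
      Big c W ∧ Big c Wᶜ)
    (fun W c c' k h => ⟨fun g hg x hx => k.trans (h.1 g hg x hx),
      fun x hx y hy => k.trans (h.2.1 x hx y hy), tr1_mono k h.2.2.1, tr1_mono k h.2.2.2⟩)
    fun W hW => by
      obtain ⟨c1, p1, k1⟩ := far H (hF.clopen W (h2 hW)) hδ
      obtain ⟨c2, p2, k2⟩ := tr1_gap (hF.clopen W (h2 hW))
      obtain ⟨c3, p3, k3⟩ := tr1_nt (hF.nt W (h2 hW))
      obtain ⟨c4, p4, k4⟩ := tr1_nt (hF.nt _ (hF.compl W (h2 hW)))
      exact ⟨min (min c1 c2) (min c3 c4), lt_min (lt_min p1 p2) (lt_min p3 p4),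
        fun g hg x hx => ((min_le_left _ _).trans (min_le_left _ _)).trans (k1 g hg x hx),
        fun x hx y hy => ((min_le_left _ _).trans (min_le_right _ _)).trans (k2 x hx y hy),
        tr1_mono ((min_le_right _ _).trans (min_le_left _ _)) k3,
        tr1_mono ((min_le_right _ _).trans (min_le_right _ _)) k4⟩
  obtain ⟨M, hM, hm⟩ := dist_smul_le H (half_pos hc)
  obtain ⟨C₁, hC, hl⟩ := H.lip
  have hC0 : 0 ≤ H.C := zero_le_one.trans H.hC
  have hM0 : 0 ≤ M := zero_le_one.trans hM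
  have key : ∀ (g : G) (a a' b b' : Z), c / 2 ≤ max (dist a (H.loc g⁻¹)) (H.sc g) →
      c / 2 ≤ max (dist a' (H.loc g⁻¹)) (H.sc g) → c ≤ dist b b' →
      dist (g • a) (g • a') ≤ max 1 (M * H.C * C₁ / c) * dist (g • b) (g • b') := by
    intro g a a' b b' e1 e2 e3
    have hs := (H.sc_pos g).le
    refine le_trans ?_ (mul_le_mul_of_nonneg_right (le_max_right _ _) dist_nonneg)
    rw [div_mul_eq_mul_div, le_div_iff₀ hc]
    have k1 : dist (g • a) (g • a') ≤ M * (H.sc g * H.C) := (hm g a a' e1 e2).trans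
      (mul_le_mul_of_nonneg_left (mul_le_mul_of_nonneg_left (H.dist_le_C _ _) hs) hM0)
    have k2 : H.sc g * c ≤ C₁ * dist (g • b) (g • b') :=
      (mul_le_mul_of_nonneg_left e3 hs).trans (hl g b b').2
    calc _ ≤ M * (H.sc g * H.C) * c := mul_le_mul_of_nonneg_right k1 hc.le
      _ = M * H.C * (H.sc g * c) := by ring
      _ ≤ M * H.C * (C₁ * dist (g • b) (g • b')) :=
          mul_le_mul_of_nonneg_left k2 (mul_nonneg hM0 hC0)
      _ = _ := by ring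
  have hh : c / 2 ≤ c := half_le_self hc.le
  refine ⟨max 1 (M * H.C * C₁ / c), le_max_left _ _, fun U hU W hW => ?_,
    fun U hU => hF.nt U hU.1, fun h => absurd (h.2 0 1 trivial trivial) (by decide),
    fun ε hε => ?_, fun U hU => ?_, fun U hU => ?_⟩
  · rcases hF.nested U hU.1 W hW.1 with h | h | h | h
    · exact Or.inl h
    · exact Or.inr (Or.inl h)
    · exact Or.inr (Or.inr h)
    · have hm : ∀ i, o i ∈ U ∨ o i ∈ W := fun i => by
        have : o i ∈ U ∪ W := h ▸ mem_univ _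
        exact this
      exfalso
      rcases hm 0 with a | a <;> rcases hm 1 with b | b <;> rcases hm 2 with d | d
      all_goals first
        | exact absurd (hU.2 _ _ a b) (by decide)
        | exact absurd (hW.2 _ _ a b) (by decide)
        | exact absurd (hU.2 _ _ a d) (by decide)
        | exact absurd (hW.2 _ _ a d) (by decide)
        | exact absurd (hU.2 _ _ b d) (by decide)
        | exact absurd (hW.2 _ _ b d) (by decide)
  · refine (finN H hF (lt_min hε hδ)).subset fun U hU => ?_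
    exact ⟨hU.1.1, tr1_mono (min_le_left _ _) hU.2, tr1_mono (min_le_right _ _) (hb U hU.1)⟩
  · have hb' := hb U hU
    obtain ⟨g, W, hW, rfl⟩ := h3 U hU.1
    obtain ⟨u1, u2, -, -⟩ := hu W hW
    rintro _ ⟨a, ha, rfl⟩ _ ⟨a', ha', rfl⟩ y hy
    have hy' : g⁻¹ • y ∉ W := fun k => hy (mem_smul_set_iff_inv_smul_mem.2 k)
    have k := key g a a' a (g⁻¹ • y) (hh.trans (u1 g hb' a ha)) (hh.trans (u1 g hb' a' ha'))
      (u2 a ha _ hy')
    rwa [smul_inv_smul] at k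
  · have hb' := hb U hU
    obtain ⟨g, W, hW, rfl⟩ := h3 U hU.1
    obtain ⟨u1, -, ⟨a, ha, a', ha', u3⟩, b, hb1, b', hb2, u4⟩ := hu W hW
    obtain ⟨y, hy, u5⟩ : ∃ y ∉ W, c / 2 ≤ dist y (H.loc g⁻¹) := by
      have t := u4.trans (dist_triangle_right b b' (H.loc g⁻¹))
      rcases le_total (dist b (H.loc g⁻¹)) (dist b' (H.loc g⁻¹)) with k | k
      · exact ⟨b', hb2, by linarith⟩
      · exact ⟨b, hb1, by linarith⟩
    exact ⟨g • a, smul_mem_smul_set ha, g • a', smul_mem_smul_set ha', g • y,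
      fun k => hy (smul_mem_smul_set_iff.1 k),
      key g a y a a' (hh.trans (u1 g hb' a ha)) (u5.trans (le_max_left _ _)) u3⟩

end KAC
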